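import Pool.Agent.Lib.MP_bd65ca_an.Gen.Defs

/-!
# TUR, module Avoid: points outside finitely many proper subspaces
-/

open MeasureTheory Pointwise Set Filter Topology
open scoped RealInnerProductSpace

namespace Pool.Agent.MPbd65ca

variable {d : ℕ}

theorem exists_notMem {ι : Type*} (s : Finset ι) (V : ι → Submodule ℝ (E d))
    (hV : ∀ i ∈ s, V i ≠ ⊤) (x₀ : E d) {ε : ℝ} (hε : 0 < ε) :
    ∃ x : E d, ‖x - x₀‖ < ε ∧ ∀ i ∈ s, x ∉ V i := by
  have h0 : volume (⋃ i ∈ s, (V i : Set (E d))) = 0 := by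
    refine (measure_biUnion_null_iff s.countable_toSet).mpr fun i hi => ?_
    exact Measure.addHaar_submodule volume (V i) (hV i hi)
  by_contra hcon
  push Not at hcon
  have h1 : Metric.ball x₀ ε ⊆ ⋃ i ∈ s, (V i : Set (E d)) := by
    intro x hx
    rw [Metric.mem_ball, dist_eq_norm] at hx
    obtain ⟨i, hi, hxi⟩ := hcon x hx
    exact Set.mem_biUnion (Finset.mem_coe.mpr hi) hxi
  have h2 : 0 < volume (Metric.ball x₀ ε) := Metric.measure_ball_pos _ _ hε
  exact h2.ne' (measure_mono_null h1 h0)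

/-- A finite union of hyperplanes has a dense complement. -/
theorem exists_avoid {ι : Type*} (s : Finset ι) (w : ι → E d) (hw : ∀ i ∈ s, w i ≠ 0) (n₀ : E d)
    {ε : ℝ} (hε : 0 < ε) : ∃ n : E d, ‖n - n₀‖ < ε ∧ ∀ i ∈ s, ⟪n, w i⟫ ≠ 0 := by
  have hV : ∀ i ∈ s, (ℝ ∙ w i)ᗮ ≠ ⊤ := by
    intro i hi hT
    have : w i ∈ (ℝ ∙ w i)ᗮ := by
      rw [hT]
      trivial
    rw [Submodule.mem_orthogonal_singleton_iff_inner_left] at this
    exact hw i hi (inner_self_eq_zero.mp this)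
  obtain ⟨n, hn, h⟩ := exists_notMem s (fun i => (ℝ ∙ w i)ᗮ) hV n₀ hε
  refine ⟨n, hn, fun i hi h0 => h i hi ?_⟩
  rw [Submodule.mem_orthogonal_singleton_iff_inner_left]
  exact h0

end Pool.Agent.MPbd65ca
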