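import Pool.Agent.Lib.MP_bd65ca_an.Gen.Defs

/-!
# TUR, module Basic: elementary facts about the definitions
-/

open MeasureTheory Pointwise Set Filter Topology
open scoped RealInnerProductSpace

namespace Pool.Agent.MPbd65ca

variable {d : ℕ}

theorem vdet_nonneg (u : Fin d → E d) : 0 ≤ vdet u := abs_nonneg _

theorem vdet_pos {u : Fin d → E d} (hu : LinearIndependent ℝ u) : 0 < vdet u := by
  have h1 : LinearIndependent ℝ (Matrix.of fun i j => u i j).row :=
    hu.map' (WithLp.linearEquiv 2 ℝ (Fin d → ℝ)).toLinearMap (LinearEquiv.ker _)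
  rw [Matrix.linearIndependent_rows_iff_isUnit, Matrix.isUnit_iff_isUnit_det] at h1
  exact abs_pos.2 h1.ne_zero

theorem cf_smul_right (u : Fin d → E d) {c : ℝ} (hc : c ≠ 0) (x : E d) (o : Option (Fin d)) :
    cf u (c • x) o = (c ^ d)⁻¹ * cf u x o := by
  cases o with
  | none =>
    have h1 : ∏ k, -⟪c • x, u k⟫ = c ^ d * ∏ k, -⟪x, u k⟫ := by
      have h2 : ∀ k, -⟪c • x, u k⟫ = c * -⟪x, u k⟫ := fun k => by
        rw [real_inner_smul_left]
        ring
      rw [Finset.prod_congr rfl fun k _ => h2 k, Finset.prod_mul_distrib, Finset.prod_const,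
        Finset.card_univ, Fintype.card_fin]
    simp only [cf]
    rw [h1, mul_inv]
    ring
  | some k =>
    have hd : d = (d - 1) + 1 := by
      have := k.pos
      omega
    have h1 : ∏ l ∈ Finset.univ.erase k, (⟪c • x, u k⟫ - ⟪c • x, u l⟫) =
        c ^ (d - 1) * ∏ l ∈ Finset.univ.erase k, (⟪x, u k⟫ - ⟪x, u l⟫) := by
      have h2 : ∀ l, ⟪c • x, u k⟫ - ⟪c • x, u l⟫ = c * (⟪x, u k⟫ - ⟪x, u l⟫) := fun l => by
        rw [real_inner_smul_left, real_inner_smul_left]
        ring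
      rw [Finset.prod_congr rfl fun l _ => h2 l, Finset.prod_mul_distrib, Finset.prod_const,
        Finset.card_erase_of_mem (Finset.mem_univ k), Finset.card_univ, Fintype.card_fin]
    have h3 : c ^ d = c ^ (d - 1) * c := by
      conv_lhs => rw [hd]
      rw [pow_succ]
    simp only [cf]
    rw [h1, h3, real_inner_smul_left, mul_inv, mul_inv, mul_inv, mul_inv, mul_inv]
    ring

theorem cf_smul_left (u : Fin d → E d) {μ : ℝ} (hμ : 0 < μ) (x : E d) (o : Option (Fin d)) :
    cf (fun k => μ • u k) x o = cf u x o := by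
  have hv : vdet (fun k => μ • u k) = μ ^ d * vdet u := by
    unfold vdet
    have h1 : (Matrix.of fun i j => (μ • u i) j) = μ • (Matrix.of fun i j => u i j) := by
      ext i j
      simp
    rw [h1, Matrix.det_smul, abs_mul, abs_pow, abs_of_pos hμ, Fintype.card_fin]
  have hμd : μ ^ d ≠ 0 := pow_ne_zero _ hμ.ne'
  cases o with
  | none =>
    have h1 : ∏ k, -⟪x, μ • u k⟫ = μ ^ d * ∏ k, -⟪x, u k⟫ := by
      have h2 : ∀ k, -⟪x, μ • u k⟫ = μ * -⟪x, u k⟫ := fun k => by
        rw [real_inner_smul_right]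
        ring
      rw [Finset.prod_congr rfl fun k _ => h2 k, Finset.prod_mul_distrib, Finset.prod_const,
        Finset.card_univ, Fintype.card_fin]
    simp only [cf]
    rw [h1, hv, mul_inv]
    field_simp
  | some k =>
    have hd : d = (d - 1) + 1 := by
      have := k.pos
      omega
    have h1 : ∏ l ∈ Finset.univ.erase k, (⟪x, μ • u k⟫ - ⟪x, μ • u l⟫) =
        μ ^ (d - 1) * ∏ l ∈ Finset.univ.erase k, (⟪x, u k⟫ - ⟪x, u l⟫) := by
      have h2 : ∀ l, ⟪x, μ • u k⟫ - ⟪x, μ • u l⟫ = μ * (⟪x, u k⟫ - ⟪x, u l⟫) := fun l => by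
        rw [real_inner_smul_right, real_inner_smul_right]
        ring
      rw [Finset.prod_congr rfl fun l _ => h2 l, Finset.prod_mul_distrib, Finset.prod_const,
        Finset.card_erase_of_mem (Finset.mem_univ k), Finset.card_univ, Fintype.card_fin]
    have h3 : μ ^ d = μ ^ (d - 1) * μ := by
      conv_lhs => rw [hd]
      rw [pow_succ]
    have h4 : μ * ⟪x, u k⟫ * (μ ^ (d - 1) * ∏ l ∈ Finset.univ.erase k, (⟪x, u k⟫ - ⟪x, u l⟫)) =
        μ ^ d * (⟪x, u k⟫ * ∏ l ∈ Finset.univ.erase k, (⟪x, u k⟫ - ⟪x, u l⟫)) := by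
      rw [h3]
      ring
    simp only [cf]
    rw [h1, hv, real_inner_smul_right, h4, mul_inv]
    field_simp

theorem good_smul_right {u : Fin d → E d} {x : E d} {c : ℝ} (hc : c ≠ 0) (h : good u x) :
    good u (c • x) := by
  refine ⟨fun k => ?_, fun k l hkl => ?_⟩
  · rw [real_inner_smul_left]
    exact mul_ne_zero hc (h.1 k)
  · rw [real_inner_smul_left, real_inner_smul_left]
    exact fun h1 => h.2 k l hkl (mul_left_cancel₀ hc h1)

theorem good_smul_left {u : Fin d → E d} {x : E d} {c : ℝ} (hc : c ≠ 0) (h : good u x) :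
    good (fun k => c • u k) x := by
  refine ⟨fun k => ?_, fun k l hkl => ?_⟩
  · rw [real_inner_smul_right]
    exact mul_ne_zero hc (h.1 k)
  · rw [real_inner_smul_right, real_inner_smul_right]
    exact fun h1 => h.2 k l hkl (mul_left_cancel₀ hc h1)

theorem isOpen_good (u : Fin d → E d) : IsOpen {x | good u x} := by
  have h1 : {x | good u x} = (⋂ k, {x : E d | ⟪x, u k⟫ ≠ 0}) ∩
      ⋂ k, ⋂ l, {x : E d | k ≠ l → ⟪x, u k⟫ ≠ ⟪x, u l⟫} := by
    ext x
    simp only [good, Set.mem_ofPred_eq, Set.mem_inter_iff, Set.mem_iInter]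
  rw [h1]
  refine (isOpen_iInter_of_finite fun k => isOpen_ne_fun (by fun_prop) continuous_const).inter
    (isOpen_iInter_of_finite fun k => isOpen_iInter_of_finite fun l => ?_)
  by_cases h : k = l
  · have h2 : {x : E d | k ≠ l → ⟪x, u k⟫ ≠ ⟪x, u l⟫} = Set.univ := by
      ext x
      simp [h]
    rw [h2]
    exact isOpen_univ
  · have h2 : {x : E d | k ≠ l → ⟪x, u k⟫ ≠ ⟪x, u l⟫} = {x : E d | ⟪x, u k⟫ ≠ ⟪x, u l⟫} := by
      ext x
      simp [h]
    rw [h2]
    exact isOpen_ne_fun (by fun_prop) (by fun_prop)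

theorem continuousAt_cf_none {u : Fin d → E d} {x : E d} (h : ∀ k, ⟪x, u k⟫ ≠ 0) :
    ContinuousAt (fun x => cf u x none) x := by
  have h1 : ContinuousAt (fun x : E d => ∏ k, -⟪x, u k⟫) x := by
    apply Continuous.continuousAt
    exact continuous_finset_prod _ fun k _ => by fun_prop
  have h2 : ∏ k, -⟪x, u k⟫ ≠ 0 := Finset.prod_ne_zero_iff.2 fun k _ => neg_ne_zero.2 (h k)
  exact continuousAt_const.mul (h1.inv₀ h2)

theorem continuousAt_cf {u : Fin d → E d} {x : E d} (h : good u x) (o : Option (Fin d)) :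
    ContinuousAt (fun x => cf u x o) x := by
  cases o with
  | none => exact continuousAt_cf_none h.1
  | some k =>
    have h1 : ContinuousAt (fun x : E d =>
        ⟪x, u k⟫ * ∏ l ∈ Finset.univ.erase k, (⟪x, u k⟫ - ⟪x, u l⟫)) x := by
      apply Continuous.continuousAt
      refine Continuous.mul (by fun_prop) (continuous_finset_prod _ fun k _ => by fun_prop)
    have h2 : ⟪x, u k⟫ * ∏ l ∈ Finset.univ.erase k, (⟪x, u k⟫ - ⟪x, u l⟫) ≠ 0 :=
      mul_ne_zero (h.1 k) (Finset.prod_ne_zero_iff.2 fun l hl =>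
        sub_ne_zero.2 (h.2 k l (Finset.ne_of_mem_erase hl).symm))
    exact continuousAt_const.mul (h1.inv₀ h2)

theorem gv_inner {n a : E d} {F : Fin d → E d} (h0 : ⟪n, a⟫ ≠ 0)
    (hne : ∀ k, F k ≠ a → ⟪n, F k⟫ ≠ ⟪n, a⟫) (k : Fin d) : ⟪n, gv n a F k⟫ = -1 := by
  unfold gv
  split_ifs with h
  · rw [inner_neg_right, real_inner_smul_right, inv_mul_cancel₀ h0]
  · have h1 : ⟪n, a⟫ - ⟪n, F k⟫ ≠ 0 := sub_ne_zero.2 (hne k h).symm
    rw [real_inner_smul_right, inner_sub_right]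
    field_simp
    ring

theorem gv_li {n a : E d} {F : Fin d → E d} (hF : LinearIndependent ℝ F) (ha : ∃ k, F k = a)
    (h0 : ⟪n, a⟫ ≠ 0) (hne : ∀ k, F k ≠ a → ⟪n, F k⟫ ≠ ⟪n, a⟫) :
    LinearIndependent ℝ (gv n a F) := by
  classical
  obtain ⟨k₀, hk₀⟩ := ha
  have hinj : Function.Injective F := hF.injective
  have hFa : ∀ k, F k = a ↔ k = k₀ :=
    fun k => ⟨fun h => hinj (h.trans hk₀.symm), fun h => h ▸ hk₀⟩
  rw [Fintype.linearIndependent_iff] at hF ⊢
  intro g hg
  set e : Fin d → ℝ := fun k =>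
    if k = k₀ then -(g k * ⟪n, a⟫⁻¹) else g k * (⟪n, a⟫ - ⟪n, F k⟫)⁻¹ with he
  set f : Fin d → ℝ := fun k =>
    if k = k₀ then 0 else g k * (⟪n, a⟫ - ⟪n, F k⟫)⁻¹ with hf
  have h1 : ∀ k, g k • gv n a F k = e k • F k - f k • a := by
    intro k
    by_cases hk : k = k₀
    · have h2 : F k = a := (hFa k).2 hk
      have h3 : e k = -(g k * ⟪n, a⟫⁻¹) := if_pos hk
      have h4 : f k = 0 := if_pos hk
      have h5 : gv n a F k = -(⟪n, a⟫⁻¹ • a) := if_pos h2
      rw [h3, h4, h5, h2, smul_neg, smul_smul, neg_smul, zero_smul, sub_zero]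
    · have h2 : ¬ F k = a := fun h => hk ((hFa k).1 h)
      have h3 : e k = g k * (⟪n, a⟫ - ⟪n, F k⟫)⁻¹ := if_neg hk
      have h4 : f k = g k * (⟪n, a⟫ - ⟪n, F k⟫)⁻¹ := if_neg hk
      have h5 : gv n a F k = (⟪n, a⟫ - ⟪n, F k⟫)⁻¹ • (F k - a) := if_neg h2
      rw [h3, h4, h5, smul_smul, smul_sub]
  have h2 : ∑ k, (e k - if k = k₀ then ∑ l, f l else 0) • F k = 0 := by
    rw [← hg, Finset.sum_congr rfl fun k _ => h1 k]
    simp only [sub_smul, Finset.sum_sub_distrib, ite_smul, zero_smul, Finset.sum_ite_eq',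
      Finset.mem_univ, if_true, hk₀, Finset.sum_smul]
  have h3 := hF _ h2
  have h4 : ∀ k, k ≠ k₀ → g k = 0 := by
    intro k hk
    have h5 := h3 k
    have h6 : e k = g k * (⟪n, a⟫ - ⟪n, F k⟫)⁻¹ := if_neg hk
    rw [if_neg hk, sub_zero, h6] at h5
    have h7 : ⟪n, a⟫ - ⟪n, F k⟫ ≠ 0 :=
      sub_ne_zero.2 (hne k fun h => hk ((hFa k).1 h)).symm
    rcases mul_eq_zero.1 h5 with h8 | h8
    · exact h8
    · exact absurd h8 (inv_ne_zero h7)
  intro k
  by_cases hk : k = k₀
  · have h5 := h3 k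
    have h6 : e k = -(g k * ⟪n, a⟫⁻¹) := if_pos hk
    have h7 : ∑ l, f l = 0 := Finset.sum_eq_zero fun l _ => by
      by_cases hl : l = k₀
      · exact if_pos hl
      · have h8 : f l = g l * (⟪n, a⟫ - ⟪n, F l⟫)⁻¹ := if_neg hl
        rw [h8, h4 l hl, zero_mul]
    rw [if_pos hk, h6, h7, sub_zero, neg_eq_zero] at h5
    rcases mul_eq_zero.1 h5 with h8 | h8
    · exact h8
    · exact absurd h8 (inv_ne_zero h0)
  · exact h4 k hk

theorem isCompact_stdS (d : ℕ) (s : ℝ) : IsCompact (stdS d s) := by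
  have h1 : IsClosed (stdS d s) := by
    have h2 : stdS d s = (⋂ k, {t : Fin d → ℝ | 0 ≤ t k}) ∩ {t | ∑ k, t k ≤ s} := by
      ext t
      simp only [stdS, Set.mem_ofPred_eq, Set.mem_inter_iff, Set.mem_iInter]
    rw [h2]
    exact (isClosed_iInter fun k => isClosed_le continuous_const (continuous_apply k)).inter
      (isClosed_le (continuous_finset_sum _ fun k _ => continuous_apply k) continuous_const)
  have h3 : stdS d s ⊆ Set.univ.pi fun _ => Set.Icc 0 s := by
    intro t ht k _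
    exact ⟨ht.1 k, (Finset.single_le_sum (fun l _ => ht.1 l) (Finset.mem_univ k)).trans ht.2⟩
  exact (isCompact_univ_pi fun _ => isCompact_Icc).of_isClosed_subset h1 h3

theorem isCompact_spx (p : E d) (u : Fin d → E d) : IsCompact (spx p u) := by
  have h1 : spx p u = (fun t : Fin d → ℝ => p + ∑ k, t k • u k) '' stdS d 1 := by
    ext y
    constructor
    · rintro ⟨t, ht, rfl⟩
      exact ⟨t, ht, rfl⟩
    · rintro ⟨t, ht, rfl⟩
      exact ⟨t, ht, rfl⟩
  rw [h1]
  refine (isCompact_stdS d 1).image ?_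
  exact continuous_const.add (continuous_finset_sum _ fun k _ =>
    (continuous_apply k).smul continuous_const)

theorem spx_subset {C : Set (E d)} (hC : Convex ℝ C) {p : E d} {u : Fin d → E d} (hp : p ∈ C)
    (hu : ∀ k, p + u k ∈ C) : spx p u ⊆ C := by
  rintro y ⟨t, ht, rfl⟩
  have h1 : ∑ o : Option (Fin d), (Option.elim o (1 - ∑ k, t k) t) •
      (Option.elim o p fun k => p + u k) ∈ C := by
    refine hC.sum_mem ?_ ?_ ?_
    · rintro (_ | k) -
      · exact sub_nonneg.2 ht.2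
      · exact ht.1 k
    · rw [Fintype.sum_option]
      simp
    · rintro (_ | k) -
      · exact hp
      · exact hu k
  rw [Fintype.sum_option] at h1
  simp only [Option.elim] at h1
  have h2 : p + ∑ k, t k • u k = (1 - ∑ k, t k) • p + ∑ k, t k • (p + u k) := by
    simp only [smul_add, Finset.sum_add_distrib, sub_smul, one_smul, Finset.sum_smul]
    abel
  rw [h2]
  exact h1

theorem mem_Ta {T : Finset (Fin d → E d)} {a : E d} {F : Fin d → E d} :
    F ∈ Ta T a ↔ F ∈ T ∧ ∃ k, F k = a := by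
  classical
  unfold Ta
  exact Finset.mem_filter

/-- A linear functional with a strict maximum at `a` on a symmetric set is positive at `a`. -/
theorem inner_pos_of_top {N : Finset (E d)} {n a : E d} (hneg : ∀ v ∈ N, -v ∈ N) (ha : a ∈ N)
    (ha0 : a ≠ 0) (hn : ∀ v ∈ N, v ≠ a → ⟪n, v⟫ < ⟪n, a⟫) : 0 < ⟪n, a⟫ := by
  have h1 : -a ≠ a := by
    intro h
    apply ha0
    have h2 : (2 : ℝ) • a = 0 := by
      rw [two_smul]
      nth_rewrite 1 [← h]
      exact neg_add_cancel a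
    exact (smul_eq_zero.1 h2).resolve_left two_ne_zero
  have h2 := hn (-a) (hneg a ha) h1
  rw [inner_neg_right] at h2
  linarith

end Pool.Agent.MPbd65ca
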