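import Pool.Agent.Lib.MP_bd65ca_an.Gen.Basic

/-!
# TUR, module Cap: the cap of a simplex at its top vertex
-/

open MeasureTheory Pointwise Set Filter Topology
open scoped RealInnerProductSpace

namespace Pool.Agent.MPbd65ca

variable {d : ℕ}

namespace CapAux

/-- Replace the coefficient of `k₀` by `1 - ∑ t`. -/
def fl (k₀ : Fin d) (t : Fin d → ℝ) (k : Fin d) : ℝ := if k = k₀ then 1 - ∑ l, t l else t k

/-- The edge vectors at the vertex `a = F k₀`. -/
noncomputable def G (F : Fin d → E d) (a : E d) (k₀ : Fin d) (k : Fin d) : E d :=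
  if k = k₀ then -a else F k - a

theorem sum_fl (k₀ : Fin d) (t : Fin d → ℝ) : ∑ k, fl k₀ t k = 1 - t k₀ := by
  have h1 : ∀ k, fl k₀ t k = t k + if k = k₀ then 1 - ∑ l, t l - t k₀ else 0 := by
    intro k
    unfold fl
    split_ifs with h
    · rw [h]; ring
    · ring
  rw [Finset.sum_congr rfl fun k _ => h1 k, Finset.sum_add_distrib,
    Finset.sum_ite_eq' Finset.univ k₀, if_pos (Finset.mem_univ _)]
  ring

theorem fl_fl (k₀ : Fin d) (t : Fin d → ℝ) : fl k₀ (fl k₀ t) = t := by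
  funext k
  by_cases h : k = k₀
  · have h1 : fl k₀ (fl k₀ t) k = 1 - ∑ l, fl k₀ t l := by
      conv_lhs => unfold fl
      rw [if_pos h]
      rfl
    rw [h1, sum_fl, h]
    ring
  · have h1 : fl k₀ (fl k₀ t) k = fl k₀ t k := by
      conv_lhs => unfold fl
      rw [if_neg h]
      unfold fl
      rw [if_neg h]
    rw [h1]
    unfold fl
    rw [if_neg h]

theorem sum_eq {F : Fin d → E d} {a : E d} {k₀ : Fin d} (h : F k₀ = a) (t : Fin d → ℝ) :
    ∑ k, t k • F k = a + ∑ k, fl k₀ t k • G F a k₀ k := by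
  classical
  have h1 : ∑ k, t k = t k₀ + ∑ k ∈ Finset.univ.erase k₀, t k :=
    (Finset.add_sum_erase _ _ (Finset.mem_univ k₀)).symm
  have h2 : ∑ k, t k • F k = t k₀ • a + ∑ k ∈ Finset.univ.erase k₀, t k • F k := by
    rw [← Finset.add_sum_erase _ (fun k => t k • F k) (Finset.mem_univ k₀), h]
  have h3 : ∑ k, fl k₀ t k • G F a k₀ k =
      (1 - ∑ l, t l) • (-a) + ∑ k ∈ Finset.univ.erase k₀, t k • (F k - a) := by
    rw [← Finset.add_sum_erase _ (fun k => fl k₀ t k • G F a k₀ k) (Finset.mem_univ k₀)]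
    congr 1
    · unfold fl G
      rw [if_pos rfl, if_pos rfl]
    · refine Finset.sum_congr rfl fun k hk => ?_
      have h4 : k ≠ k₀ := Finset.ne_of_mem_erase hk
      unfold fl G
      rw [if_neg h4, if_neg h4]
  have h5 : ∑ k ∈ Finset.univ.erase k₀, t k • (F k - a) =
      ∑ k ∈ Finset.univ.erase k₀, t k • F k - (∑ k ∈ Finset.univ.erase k₀, t k) • a := by
    rw [Finset.sum_smul, ← Finset.sum_sub_distrib]
    exact Finset.sum_congr rfl fun k _ => smul_sub _ _ _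
  rw [h3, h2, h5, h1]
  module

theorem gv_eq {n a : E d} {F : Fin d → E d} (hF : LinearIndependent ℝ F) {k₀ : Fin d}
    (h : F k₀ = a) (k : Fin d) : gv n a F k = (-⟪n, G F a k₀ k⟫)⁻¹ • G F a k₀ k := by
  unfold gv G
  by_cases hk : k = k₀
  · rw [if_pos (by rw [hk, h]), if_pos hk, inner_neg_right, neg_neg, smul_neg]
  · have h1 : F k ≠ a := fun h2 => hk (hF.injective (h2.trans h.symm))
    rw [if_neg h1, if_neg hk, inner_sub_right, neg_sub]

theorem inner_sum_G (n a : E d) (F : Fin d → E d) (k₀ : Fin d) (c : Fin d → ℝ) :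
    ⟪n, a + ∑ k, c k • G F a k₀ k⟫ = ⟪n, a⟫ - ∑ k, c k * -⟪n, G F a k₀ k⟫ := by
  rw [inner_add_right, inner_sum, sub_eq_add_neg, ← Finset.sum_neg_distrib]
  congr 1
  refine Finset.sum_congr rfl fun k _ => ?_
  rw [real_inner_smul_right]
  ring

end CapAux

open CapAux in
theorem cap_eq {n a : E d} {F : Fin d → E d} (hF : LinearIndependent ℝ F) (ha : ∃ k, F k = a)
    {μ : ℝ} (hμ : 0 < μ) (hμa : μ ≤ ⟪n, a⟫) (hμ' : ∀ k, F k ≠ a → ⟪n, F k⟫ ≤ ⟪n, a⟫ - μ) :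
    {y ∈ spx 0 F | ⟪n, a⟫ - μ ≤ ⟪n, y⟫} = spx a (fun k => μ • gv n a F k) := by
  obtain ⟨k₀, hk₀⟩ := ha
  have hm : ∀ k, μ ≤ -⟪n, G F a k₀ k⟫ := by
    intro k
    unfold G
    split_ifs with hk
    · rw [inner_neg_right, neg_neg]
      exact hμa
    · have h1 : F k ≠ a := fun h2 => hk (hF.injective (h2.trans hk₀.symm))
      rw [inner_sub_right]
      linarith [hμ' k h1]
  have hm0 : ∀ k, 0 < -⟪n, G F a k₀ k⟫ := fun k => lt_of_lt_of_le hμ (hm k)
  ext y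
  constructor
  · rintro ⟨⟨t, ht, hy⟩, hin⟩
    rw [zero_add, sum_eq hk₀] at hy
    have hfl : ∀ k, 0 ≤ fl k₀ t k := by
      intro k
      unfold fl
      split_ifs
      · linarith [ht.2]
      · exact ht.1 k
    refine ⟨fun k => fl k₀ t k * -⟪n, G F a k₀ k⟫ / μ, ⟨fun k => ?_, ?_⟩, ?_⟩
    · exact div_nonneg (mul_nonneg (hfl k) (hm0 k).le) hμ.le
    · rw [← Finset.sum_div, div_le_one hμ]
      rw [hy, inner_sum_G] at hin
      linarith
    · rw [hy]
      congr 1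
      refine Finset.sum_congr rfl fun k _ => ?_
      beta_reduce
      rw [gv_eq hF hk₀, smul_smul, smul_smul]
      congr 1
      have hw := (hm0 k).ne'
      generalize -⟪n, G F a k₀ k⟫ = w at hw ⊢
      field_simp
  · rintro ⟨t', ht', hy⟩
    have hc0 : ∀ k, 0 ≤ t' k * μ / -⟪n, G F a k₀ k⟫ := fun k =>
      div_nonneg (mul_nonneg (ht'.1 k) hμ.le) (hm0 k).le
    have hc1 : ∀ k, t' k * μ / -⟪n, G F a k₀ k⟫ ≤ t' k := by
      intro k
      rw [div_le_iff₀ (hm0 k)]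
      exact mul_le_mul_of_nonneg_left (hm k) (ht'.1 k)
    have hcs : ∑ k, t' k * μ / -⟪n, G F a k₀ k⟫ ≤ 1 :=
      (Finset.sum_le_sum fun k _ => hc1 k).trans ht'.2
    have hy' : y = a + ∑ k, (t' k * μ / -⟪n, G F a k₀ k⟫) • G F a k₀ k := by
      rw [hy]
      congr 1
      refine Finset.sum_congr rfl fun k _ => ?_
      beta_reduce
      rw [gv_eq hF hk₀, smul_smul, smul_smul]
      congr 1
    refine ⟨⟨fl k₀ fun k => t' k * μ / -⟪n, G F a k₀ k⟫, ⟨fun k => ?_, ?_⟩, ?_⟩, ?_⟩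
    · by_cases hk : k = k₀
      · have h1 : fl k₀ (fun k => t' k * μ / -⟪n, G F a k₀ k⟫) k =
            1 - ∑ l, t' l * μ / -⟪n, G F a k₀ l⟫ := by
          unfold fl
          rw [if_pos hk]
        rw [h1]
        linarith
      · have h1 : fl k₀ (fun k => t' k * μ / -⟪n, G F a k₀ k⟫) k =
            t' k * μ / -⟪n, G F a k₀ k⟫ := by
          unfold fl
          rw [if_neg hk]
        rw [h1]
        exact hc0 k
    · rw [sum_fl]
      linarith [hc0 k₀]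
    · rw [zero_add, sum_eq hk₀, fl_fl]
      exact hy'
    · rw [hy', inner_sum_G]
      have h1 : ∑ k, t' k * μ / -⟪n, G F a k₀ k⟫ * -⟪n, G F a k₀ k⟫ = (∑ k, t' k) * μ := by
        rw [Finset.sum_mul]
        refine Finset.sum_congr rfl fun k _ => ?_
        exact div_mul_cancel₀ _ (hm0 k).ne'
      rw [h1]
      have h2 : (∑ k, t' k) * μ ≤ 1 * μ := mul_le_mul_of_nonneg_right ht'.2 hμ.le
      linarith

theorem cap_empty {n a : E d} {F : Fin d → E d} {μ : ℝ} (hμa : μ < ⟪n, a⟫)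
    (hμ' : ∀ k, ⟪n, F k⟫ < ⟪n, a⟫ - μ) :
    {y ∈ spx 0 F | ⟪n, a⟫ - μ ≤ ⟪n, y⟫} = ∅ := by
  rw [Set.eq_empty_iff_forall_notMem]
  rintro y ⟨⟨t, ht, hy⟩, hin⟩
  have h1 : ⟪n, y⟫ = ∑ k, t k * ⟪n, F k⟫ := by
    rw [hy, zero_add, inner_sum]
    exact Finset.sum_congr rfl fun k _ => real_inner_smul_right _ _ _
  have hc : 0 < ⟪n, a⟫ - μ := by linarith
  by_cases h0 : ∀ k, t k = 0
  · have h2 : ∑ k, t k * ⟪n, F k⟫ = 0 := Finset.sum_eq_zero fun k _ => by rw [h0 k, zero_mul]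
    linarith
  · push Not at h0
    obtain ⟨k₁, hk₁⟩ := h0
    have h2 : 0 < t k₁ := lt_of_le_of_ne (ht.1 k₁) (Ne.symm hk₁)
    have h3 : ∑ k, t k * ⟪n, F k⟫ < ∑ k, t k * (⟪n, a⟫ - μ) :=
      Finset.sum_lt_sum (fun k _ => mul_le_mul_of_nonneg_left (hμ' k).le (ht.1 k))
        ⟨k₁, Finset.mem_univ _, mul_lt_mul_of_pos_left (hμ' k₁) h2⟩
    have h4 : ∑ k, t k * (⟪n, a⟫ - μ) ≤ 1 * (⟪n, a⟫ - μ) := by
      rw [← Finset.sum_mul]
      exact mul_le_mul_of_nonneg_right ht.2 hc.le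
    linarith

end Pool.Agent.MPbd65ca
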