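import Pool.Agent.Lib.MP_bd65ca_an.Gen.Defs

/-!
# TUR, module Core: the inequality for the trigonometric polynomials
-/

open Real

namespace Pool.Agent.MPbd65ca

theorem core {ι : Type*} (s : Finset ι) (b θ em ep cm cp e : ι → ℝ) {α S B Y z P' sg : ℝ}
    (hB : 0 < B) (hY : 0 ≤ Y) (hS : 0 ≤ S) (hsg : sg = 1 ∨ sg = -1)
    (hm : ∀ i ∈ s, |em i + cm i - cos (α - θ i)| ≤ e i)
    (hp : ∀ i ∈ s, |ep i + cp i - cos (α + θ i)| ≤ e i)
    (he : ∑ i ∈ s, |b i| * e i ≤ 2 * S * Y)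
    (hβ : B ≤ sg * ∑ i ∈ s, b i * (cm i + cp i))
    (hz : z * S ≤ |∑ i ∈ s, b i * cos (θ i)| + Y + 1)
    (hz1 : 8 * Y ≤ z) (hz2 : 32 * Y * (Y + 1) ≤ z * B)
    (hP : |∑ i ∈ s, b i * cos (θ i) - P'| ≤ B / 12) :
    0 ≤ -sg * ∑ i ∈ s, b i * (em i + ep i) - B / 4 + 9 / B * P' ^ 2 := by
  set P : ℝ := ∑ i ∈ s, b i * cos (θ i) with hPd
  set β : ℝ := ∑ i ∈ s, b i * (cm i + cp i) with hβd
  set X : ℝ := ∑ i ∈ s, b i * (em i + ep i) with hXd
  -- the error
  have h1 : |X + β - 2 * cos α * P| ≤ 4 * S * Y := by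
    have e1 : X + β - 2 * cos α * P =
        ∑ i ∈ s, b i * ((em i + cm i - cos (α - θ i)) + (ep i + cp i - cos (α + θ i))) := by
      rw [hXd, hβd, hPd, Finset.mul_sum, ← Finset.sum_add_distrib, ← Finset.sum_sub_distrib]
      refine Finset.sum_congr rfl fun i _ => ?_
      rw [cos_sub, cos_add]
      ring
    rw [e1]
    calc |∑ i ∈ s, b i * ((em i + cm i - cos (α - θ i)) + (ep i + cp i - cos (α + θ i)))|
        ≤ ∑ i ∈ s, |b i * ((em i + cm i - cos (α - θ i)) + (ep i + cp i - cos (α + θ i)))| :=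
          Finset.abs_sum_le_sum_abs _ _
      _ ≤ ∑ i ∈ s, 2 * (|b i| * e i) := by
          refine Finset.sum_le_sum fun i hi => ?_
          rw [abs_mul]
          have h2 : |(em i + cm i - cos (α - θ i)) + (ep i + cp i - cos (α + θ i))| ≤ 2 * e i :=
            (abs_add_le _ _).trans (by linarith [hm i hi, hp i hi])
          calc |b i| * |(em i + cm i - cos (α - θ i)) + (ep i + cp i - cos (α + θ i))|
              ≤ |b i| * (2 * e i) := mul_le_mul_of_nonneg_left h2 (abs_nonneg _)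
            _ = 2 * (|b i| * e i) := by ring
      _ = 2 * ∑ i ∈ s, |b i| * e i := by rw [Finset.mul_sum]
      _ ≤ 4 * S * Y := by linarith
  -- the bound of the error
  have h2 : 4 * S * Y ≤ |P| / 2 + B / 8 := by
    have hPn : 0 ≤ |P| := abs_nonneg P
    rcases eq_or_lt_of_le hY with h0 | h0
    · rw [← h0]
      linarith
    · have hzp : 0 < z := by linarith
      refine le_of_mul_le_mul_left ?_ hzp
      have h3 : z * (4 * S * Y) = 4 * Y * (z * S) := by ring
      have h4 : 4 * Y * (z * S) ≤ 4 * Y * (|P| + Y + 1) :=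
        mul_le_mul_of_nonneg_left hz (by linarith)
      have h5 : 8 * Y * |P| ≤ z * |P| := mul_le_mul_of_nonneg_right hz1 hPn
      nlinarith
  have hc : |cos α| ≤ 1 := abs_cos_le_one α
  have h3 : |cos α * P| ≤ |P| := by
    rw [abs_mul]
    exact mul_le_of_le_one_left (abs_nonneg _) hc
  have h4 : |P| ≤ |P'| + B / 12 := by
    have := abs_sub_abs_le_abs_sub P P'
    linarith
  have hX : B - 2 * |P| - 4 * S * Y ≤ -sg * X := by
    have h5 := abs_le.mp h1
    have h6 := abs_le.mp h3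
    rcases hsg with rfl | rfl
    · linarith [h5.1, h5.2, h6.1, h6.2]
    · linarith [h5.1, h5.2, h6.1, h6.2]
  have hq : 9 / B * P' ^ 2 = 9 / B * (|P'| - B / 6) ^ 2 + 3 * |P'| - B / 4 := by
    have h7 : P' ^ 2 = |P'| ^ 2 := (sq_abs P').symm
    rw [h7]
    field_simp
    ring
  have hsq : 0 ≤ 9 / B * (|P'| - B / 6) ^ 2 := by positivity
  have hP'n : 0 ≤ |P'| := abs_nonneg P'
  rw [hq]
  linarith

end Pool.Agent.MPbd65ca
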