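import Pool.Agent.Lib.MP_bd65ca_an.Gap

/-!
# The Turán problem, generic failure in all dimensions: definitions
-/

open MeasureTheory Pointwise Set
open scoped RealInnerProductSpace

namespace Pool.Agent.MPbd65ca

variable {d : ℕ}

/-- The simplex `t k ≥ 0`, `∑ t k ≤ s`. -/
def stdS (d : ℕ) (s : ℝ) : Set (Fin d → ℝ) := {t | (∀ k, 0 ≤ t k) ∧ ∑ k, t k ≤ s}

/-- The simplex with the vertex `p` and the edge vectors `u k`. -/
def spx (p : E d) (u : Fin d → E d) : Set (E d) :=
  {y | ∃ t ∈ stdS d 1, y = p + ∑ k, t k • u k}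

/-- The absolute value of the determinant of `u 0, ..., u (d - 1)`. -/
noncomputable def vdet (u : Fin d → E d) : ℝ := |Matrix.det (Matrix.of fun i j => u i j)|

/-- The coefficients of the cosines in the cosine transform of a simplex. -/
noncomputable def cf (u : Fin d → E d) (x : E d) : Option (Fin d) → ℝ
  | none => vdet u * (∏ k, -⟪x, u k⟫)⁻¹
  | some k => vdet u * (⟪x, u k⟫ * ∏ l ∈ Finset.univ.erase k, (⟪x, u k⟫ - ⟪x, u l⟫))⁻¹

/-- The vertices of `spx p u`. -/
def vt (p : E d) (u : Fin d → E d) : Option (Fin d) → E d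
  | none => p
  | some k => p + u k

/-- No denominator of the coefficients vanishes. -/
def good (u : Fin d → E d) (x : E d) : Prop :=
  (∀ k, ⟪x, u k⟫ ≠ 0) ∧ ∀ k l, k ≠ l → ⟪x, u k⟫ ≠ ⟪x, u l⟫

/-- The phase `2 π ⟨x, w⟩ - π d / 2`. -/
noncomputable def ph (x w : E d) : ℝ := 2 * Real.pi * ⟪x, w⟫ - Real.pi * d / 2

/-- The edge vectors at the vertex `a = F k₀` of the simplex with the vertices `0` and `F k`,
multiplied such that their `n`-component is `-1`. -/
noncomputable def gv (n a : E d) (F : Fin d → E d) (k : Fin d) : E d :=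
  open Classical in
  if F k = a then -(⟪n, a⟫⁻¹ • a) else (⟪n, a⟫ - ⟪n, F k⟫)⁻¹ • (F k - a)

/-- The part of `W` between two parallel hyperplanes. -/
def slab (W : Set (E d)) (n : E d) (s : ℝ) : Set (E d) := {y ∈ W | |⟪n, y⟫| ≤ s}

/-- The members of `T` with the vertex `a`. -/
noncomputable def Ta (T : Finset (Fin d → E d)) (a : E d) : Finset (Fin d → E d) :=
  open Classical in T.filter (fun F => ∃ k, F k = a)

/-- The coefficient of `cos (ph x κ)`, for the frequencies `κ` and `-κ` together. -/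
noncomputable def bet (T : Finset (Fin d → E d)) (κ x : E d) : ℝ :=
  open Classical in
  ∑ F ∈ T, ∑ k, ((if F k = κ then cf F x (some k) else 0) +
    (-1) ^ d * (if F k = -κ then cf F x (some k) else 0))

/-- `T` is a triangulation of the convex hull of `N` by simplices with the vertex `0`. -/
structure Tri (N : Finset (E d)) (T : Finset (Fin d → E d)) : Prop where
  mem : ∀ F ∈ T, ∀ k, F k ∈ N
  li : ∀ F ∈ T, LinearIndependent ℝ F
  ind : ∀ᵐ y : E d, (convexHull ℝ (N : Set (E d))).indicator (fun _ => (1 : ℝ)) y =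
    ∑ F ∈ T, (spx 0 F).indicator (fun _ => (1 : ℝ)) y

/-- A fine, generic, symmetric set `N` of vertices, with two near vertices `a` and `κ` which do
not lie on a common facet of the convex hull of `N`. -/
structure Fine (N : Finset (E d)) (a κ : E d) (r : ℝ) : Prop where
  neg : ∀ v ∈ N, -v ∈ N
  ha : a ∈ N
  hκ : κ ∈ N
  hκa : κ ≠ a
  hr : 0 < r
  ball : Metric.closedBall (0 : E d) (2 * r) ⊆ interior (convexHull ℝ (N : Set (E d)))
  near : ‖κ - a‖ < r
  mid : (1 / 2 : ℝ) • (κ + a) ∈ interior (convexHull ℝ (N : Set (E d)))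
  far : ∀ v ∈ N, ‖v - a‖ < r ∨ (1 / 2 : ℝ) • (κ + v) ∈ interior (convexHull ℝ (N : Set (E d)))
  expa : ∃ n : E d, ∀ v ∈ N, v ≠ a → ⟪n, v⟫ < ⟪n, a⟫
  expκ : ∃ n : E d, ∀ v ∈ N, v ≠ κ → ⟪n, v⟫ < ⟪n, κ⟫
  gp1 : ∀ s : Finset (E d), s ⊆ N → s.card ≤ d → (∀ v ∈ s, -v ∉ s) →
    LinearIndependent ℝ (fun v : s => (v : E d))
  gp2 : ∀ (l : E d) (s : Finset (E d)), s ⊆ N → (∀ v ∈ s, ⟪l, v⟫ = 1) → s.card ≤ d

/-- The frequency which replaces `κ - w`. -/
noncomputable def fm (a κ : E d) (r : ℝ) (w : E d) : E d :=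
  open Classical in if ‖w + a‖ < r then κ - w - (2 : ℝ) • a else κ - w

/-- The frequency which replaces `κ + w`. -/
noncomputable def fp (a κ : E d) (r : ℝ) (w : E d) : E d :=
  open Classical in if ‖w - a‖ < r then κ + w - (2 : ℝ) • a else κ + w

/-- The frequency `f` is admissible for the body `W + W`, with the margin `ρ`. -/
def okf (W : Set (E d)) (ρ : ℝ) (f : E d) : Prop := Metric.closedBall f ρ ⊆ W + W ∧ ρ < ‖f‖

/-! ### The terms of the cosine transform of the slab -/

/-- The indices of the terms: the terms of the simplices `spx 0 F` and the terms of the caps. -/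
abbrev Ix (d : ℕ) := ((Fin d → E d) × Option (Fin d)) ⊕ ((Fin d → E d) × Option (Fin d))

/-- The set of the indices. -/
noncomputable def ixs (T : Finset (Fin d → E d)) (a : E d) : Finset (Ix d) :=
  (T ×ˢ Finset.univ).disjSum (Ta T a ×ˢ Finset.univ)

/-- The terms of the new vertices. -/
def top : Ix d → Bool
  | .inl _ => false
  | .inr (_, none) => false
  | .inr (_, some _) => true

/-- The vertex of a term. -/
noncomputable def wv (n a : E d) (μ : ℝ) : Ix d → E d
  | .inl p => vt 0 p.1 p.2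
  | .inr p => vt a (fun k => μ • gv n a p.1 k) p.2

/-- The coefficient of a term. -/
noncomputable def cc (n a x : E d) : Ix d → ℝ
  | .inl p => cf p.1 x p.2
  | .inr p => -2 * cf (gv n a p.1) x p.2

/-- The sum of the terms of the new vertices, without the factor `-2`. -/
noncomputable def topZ (T : Finset (Fin d → E d)) (n a x : E d) (m : ℝ) : ℂ :=
  ∑ F ∈ Ta T a, ∑ k, (cf (gv n a F) x (some k) : ℂ) *
    Complex.exp ((2 * Real.pi * (m * ⟪x, gv n a F k⟫) : ℝ) * Complex.I)

/-- The frequencies `κ - w`, `κ + w`, some of them shifted by `-2 a`. -/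
noncomputable def fq (n a κ : E d) (r μ : ℝ) (i : Ix d) : Bool → E d
  | false => if top i = true then κ - wv n a μ i else fm a κ r (wv n a μ i)
  | true => if top i = true then κ + wv n a μ i else fp a κ r (wv n a μ i)

/-- The phases. -/
noncomputable def fs (n a : E d) (r μ ζ : ℝ) (i : Ix d) : Bool → ℝ
  | false => open Classical in
    if top i = false ∧ ‖wv n a μ i + a‖ < r then Real.pi * d - 2 * ζ + Real.pi else 0
  | true => open Classical in
    if top i = false ∧ ‖wv n a μ i - a‖ < r then Real.pi - 2 * ζ else -(Real.pi * d)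

/-- The constant terms. -/
noncomputable def rm (n a κ : E d) (μ : ℝ) (i : Ix d) : Bool → ℝ
  | false => open Classical in if top i = false ∧ wv n a μ i = κ then 1 else 0
  | true => open Classical in if top i = false ∧ wv n a μ i = -κ then (-1) ^ d else 0

/-- Zero for the constant terms, one for the other terms. -/
noncomputable def kp (n a κ : E d) (μ : ℝ) (i : Ix d) : Bool → ℝ
  | false => open Classical in if top i = false ∧ wv n a μ i = κ then 0 else 1
  | true => open Classical in if top i = false ∧ wv n a μ i = -κ then 0 else 1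

/-- A strictly convex norm on the Euclidean space. -/
structure SNorm (ν : E d → ℝ) : Prop where
  add : ∀ x y, ν (x + y) ≤ ν x + ν y
  smul : ∀ (c : ℝ) x, ν (c • x) = |c| * ν x
  lo : ∃ m > 0, ∀ x, m * ‖x‖ ≤ ν x
  hi : ∃ M > 0, ∀ x, ν x ≤ M * ‖x‖
  strict : ∀ x y, ν x ≤ 1 → ν y ≤ 1 → x ≠ y → ν ((1 / 2 : ℝ) • (x + y)) < 1

end Pool.Agent.MPbd65ca
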