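import Pool.Agent.Lib.MP_bd65ca_an.Gen.Avoid
import Pool.Agent.Lib.MP_bd65ca_an.Gen.Basic

/-!
# TUR, module Dir: the second direction and the frequency of the cut
-/

open MeasureTheory Pointwise Set Filter Topology
open scoped RealInnerProductSpace

namespace Pool.Agent.MPbd65ca

variable {d : ℕ}

/-- Exponential sums with distinct frequencies and a nonzero coefficient do not vanish on
`(0, ∞)`. -/
theorem exists_expsum {ι : Type*} (s : Finset ι) (θ : ι → ℝ) (b : ι → ℂ) (θ₀ : ℝ)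
    (h : ∑ i ∈ s with θ i = θ₀, b i ≠ 0) : ∃ c : ℝ, 0 < c ∧
      ∑ i ∈ s, b i * Complex.exp ((2 * Real.pi * (c * θ i) : ℝ) * Complex.I) ≠ 0 := by
  classical
  by_contra hcon
  push Not at hcon
  set M : ℝ := ∑ i ∈ s, |θ i - θ₀| with hM
  have hM0 : 0 ≤ M := Finset.sum_nonneg fun i _ => abs_nonneg _
  set δ : ℝ := (M + 1)⁻¹ with hδ
  have hδ0 : 0 < δ := by positivity
  set z : ℝ → ℂ := fun t => Complex.exp ((2 * Real.pi * (δ * t) : ℝ) * Complex.I) with hz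
  have hzne : ∀ i ∈ s, θ i ≠ θ₀ → z θ₀ ≠ z (θ i) := by
    intro i hi hne heq
    have h1 : |θ i - θ₀| ≤ M := Finset.single_le_sum (f := fun i => |θ i - θ₀|)
      (fun j _ => abs_nonneg _) hi
    have h2 : |δ * (θ₀ - θ i)| < 1 := by
      rw [abs_mul, abs_of_pos hδ0, abs_sub_comm, hδ, inv_mul_lt_iff₀ (by positivity)]
      linarith
    rw [hz] at heq
    simp only at heq
    rw [Complex.exp_eq_exp_iff_exists_int] at heq
    obtain ⟨n, hn⟩ := heq
    have h3 : ((2 * Real.pi * (δ * θ₀) : ℝ) : ℂ) * Complex.I =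
        ((2 * Real.pi * (δ * θ i + n) : ℝ) : ℂ) * Complex.I := by
      rw [hn]
      push_cast
      ring
    have h4 := Complex.ofReal_injective (mul_right_cancel₀ Complex.I_ne_zero h3)
    have h5 : δ * θ₀ = δ * θ i + n := by
      have := mul_left_cancel₀ (by positivity : (2 * Real.pi) ≠ 0) h4
      exact this
    have h6 : δ * (θ₀ - θ i) = n := by
      rw [mul_sub, h5]
      ring
    rw [h6] at h2
    have h7 : n = 0 := by
      have h8 : |n| < 1 := by exact_mod_cast h2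
      exact Int.abs_lt_one_iff.1 h8
    rw [h7, Int.cast_zero] at h6
    rcases mul_eq_zero.1 h6 with h8 | h8
    · exact hδ0.ne' h8
    · exact hne (sub_eq_zero.1 h8).symm
  set P : Polynomial ℂ := Polynomial.X * ∏ i ∈ s with θ i ≠ θ₀,
    (Polynomial.X - Polynomial.C (z (θ i))) with hP
  have hP0 : P.coeff 0 = 0 := by
    rw [hP]
    simp
  have hPz : P.eval (z θ₀) ≠ 0 := by
    rw [hP, Polynomial.eval_mul, Polynomial.eval_X, Polynomial.eval_prod]
    refine mul_ne_zero (Complex.exp_ne_zero _) (Finset.prod_ne_zero_iff.2 fun i hi => ?_)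
    rw [Polynomial.eval_sub, Polynomial.eval_X, Polynomial.eval_C]
    obtain ⟨hi1, hi2⟩ := Finset.mem_filter.1 hi
    exact sub_ne_zero.2 (hzne i hi1 hi2)
  have hPr : ∀ i ∈ s, θ i ≠ θ₀ → P.eval (z (θ i)) = 0 := by
    intro i hi hne
    rw [hP, Polynomial.eval_mul, Polynomial.eval_prod]
    rw [Finset.prod_eq_zero (Finset.mem_filter.2 ⟨hi, hne⟩), mul_zero]
    simp
  have hzn : ∀ (n : ℕ) (t : ℝ), z t ^ n =
      Complex.exp ((2 * Real.pi * ((n * δ) * t) : ℝ) * Complex.I) := by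
    intro n t
    rw [hz]
    simp only
    rw [← Complex.exp_nat_mul]
    congr 1
    push_cast
    ring
  have hsum : ∑ i ∈ s, b i * P.eval (z (θ i)) = 0 := by
    have h1 : ∀ i ∈ s, b i * P.eval (z (θ i)) =
        ∑ n ∈ Finset.range (P.natDegree + 1), P.coeff n *
          (b i * Complex.exp ((2 * Real.pi * ((n * δ) * θ i) : ℝ) * Complex.I)) := by
      intro i _
      rw [Polynomial.eval_eq_sum_range, Finset.mul_sum]
      refine Finset.sum_congr rfl fun n _ => ?_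
      rw [hzn]
      ring
    rw [Finset.sum_congr rfl h1, Finset.sum_comm]
    refine Finset.sum_eq_zero fun n _ => ?_
    rw [← Finset.mul_sum]
    rcases Nat.eq_zero_or_pos n with rfl | hn
    · rw [hP0, zero_mul]
    · rw [hcon (n * δ) (by positivity), mul_zero]
  have hsum2 : ∑ i ∈ s, b i * P.eval (z (θ i)) =
      (∑ i ∈ s with θ i = θ₀, b i) * P.eval (z θ₀) := by
    rw [Finset.sum_mul, Finset.sum_filter]
    refine Finset.sum_congr rfl fun i hi => ?_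
    by_cases hi0 : θ i = θ₀
    · rw [if_pos hi0, hi0]
    · rw [if_neg hi0, hPr i hi hi0, mul_zero]
  rw [hsum] at hsum2
  exact mul_ne_zero h hPz hsum2.symm

theorem exists_dir {ι : Type*} (s : Finset ι) (hs : s.Nonempty) (hd : 0 < d)
    (u : ι → Fin d → E d) (hu : ∀ i ∈ s, LinearIndependent ℝ (u i)) :
    ∃ (n' : E d) (c : ℝ), 0 < c ∧ (∀ i ∈ s, ∀ k l, k ≠ l → ⟪n', u i k⟫ ≠ ⟪n', u i l⟫) ∧
      ∑ i ∈ s, ∑ k, ((vdet (u i) * (∏ l ∈ Finset.univ.erase k,
        (⟪n', u i k⟫ - ⟪n', u i l⟫))⁻¹ : ℝ) : ℂ) *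
          Complex.exp ((2 * Real.pi * (c * ⟪n', u i k⟫) : ℝ) * Complex.I) ≠ 0 := by
  classical
  obtain ⟨n', -, hn'⟩ := exists_avoid
    ((s ×ˢ (Finset.univ : Finset (Fin d × Fin d))).filter fun p => p.2.1 ≠ p.2.2)
    (fun p => u p.1 p.2.1 - u p.1 p.2.2) (fun p hp => by
      obtain ⟨h1, h2⟩ := Finset.mem_filter.1 hp
      have h3 := hu p.1 (Finset.mem_product.1 h1).1
      exact sub_ne_zero.2 fun h => h2 (h3.injective h)) 0 one_pos
  have hne : ∀ i ∈ s, ∀ k l, k ≠ l → ⟪n', u i k⟫ ≠ ⟪n', u i l⟫ := by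
    intro i hi k l hkl heq
    have h1 := hn' (i, (k, l)) (Finset.mem_filter.2
      ⟨Finset.mem_product.2 ⟨hi, Finset.mem_univ _⟩, hkl⟩)
    apply h1
    simp only
    rw [inner_sub_right, heq, sub_self]
  have : Nonempty (Fin d) := ⟨⟨0, hd⟩⟩
  obtain ⟨p₀, hp₀, hmax⟩ := Finset.exists_max_image (s ×ˢ (Finset.univ : Finset (Fin d)))
    (fun p => ⟪n', u p.1 p.2⟫) (hs.product Finset.univ_nonempty)
  set b : ι × Fin d → ℝ := fun p => vdet (u p.1) * (∏ l ∈ Finset.univ.erase p.2,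
    (⟪n', u p.1 p.2⟫ - ⟪n', u p.1 l⟫))⁻¹ with hb
  have hbpos : ∀ p ∈ (s ×ˢ (Finset.univ : Finset (Fin d))).filter
      (fun p => ⟪n', u p.1 p.2⟫ = ⟪n', u p₀.1 p₀.2⟫), 0 < b p := by
    intro p hp
    obtain ⟨h1, h2⟩ := Finset.mem_filter.1 hp
    have hi := (Finset.mem_product.1 h1).1
    refine mul_pos (vdet_pos (hu p.1 hi)) (inv_pos.2 (Finset.prod_pos fun l hl => ?_))
    have h3 := hmax (p.1, l) (Finset.mem_product.2 ⟨hi, Finset.mem_univ l⟩)
    have h4 := hne p.1 hi l p.2 (Finset.ne_of_mem_erase hl)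
    simp only at h3 h2
    rw [← h2] at h3
    exact sub_pos.2 (lt_of_le_of_ne h3 h4)
  have hne0 : ∑ p ∈ s ×ˢ (Finset.univ : Finset (Fin d)) with
      ⟪n', u p.1 p.2⟫ = ⟪n', u p₀.1 p₀.2⟫, (b p : ℂ) ≠ 0 := by
    rw [← Complex.ofReal_sum]
    refine Complex.ofReal_ne_zero.2 (Finset.sum_pos hbpos ⟨p₀, ?_⟩).ne'
    exact Finset.mem_filter.2 ⟨hp₀, rfl⟩
  obtain ⟨c, hc, hcs⟩ := exists_expsum (s ×ˢ (Finset.univ : Finset (Fin d)))
    (fun p => ⟪n', u p.1 p.2⟫) (fun p => (b p : ℂ)) _ hne0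
  refine ⟨n', c, hc, hne, ?_⟩
  rw [Finset.sum_product] at hcs
  exact hcs

end Pool.Agent.MPbd65ca
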