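import Pool.Agent.Lib.MP_bd65ca_an.Gen.Avoid

/-!
# TUR, module GenPos: general position
-/

open MeasureTheory Pointwise Set Filter Topology
open scoped RealInnerProductSpace

namespace Pool.Agent.MPbd65ca

variable {d : ℕ}

private theorem genPos_aux {δ : ℝ} (hδ : 0 < δ) : ∀ (m : ℕ) (y : Fin m → E d),
    ∃ x : Fin m → E d, (∀ i, ‖x i - y i‖ < δ) ∧
      ∀ s : Finset (Fin m), s.card ≤ d → LinearIndepOn ℝ x (s : Set (Fin m)) := by
  classical
  intro m
  induction m with
  | zero =>
    intro y
    refine ⟨y, fun i => i.elim0, fun s _ => ?_⟩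
    have hs : s = ∅ := Finset.eq_empty_of_isEmpty s
    rw [hs, Finset.coe_empty]
    exact linearIndepOn_empty ℝ y
  | succ m ih =>
    intro y
    obtain ⟨x', hx', hli⟩ := ih (fun i => y i.castSucc)
    obtain ⟨z, hz, hzV⟩ := exists_notMem
      ((Finset.univ : Finset (Finset (Fin m))).filter (fun s => s.card < d))
      (fun s => Submodule.span ℝ (x' '' (s : Set (Fin m)))) (by
        intro s hs htop
        have hcard : s.card < d := (Finset.mem_filter.1 hs).2
        have h1 : Module.finrank ℝ (Submodule.span ℝ (x' '' (s : Set (Fin m)))) ≤ s.card := by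
          have h2 := finrank_span_finset_le_card (R := ℝ) (s.image x')
          rw [Finset.coe_image] at h2
          exact h2.trans Finset.card_image_le
        rw [htop, finrank_top] at h1
        have h3 : Module.finrank ℝ (E d) = d := by simp [E]
        omega) (y (Fin.last m)) hδ
    refine ⟨Fin.snoc x' z, ?_, ?_⟩
    · intro i
      refine Fin.lastCases ?_ (fun i => ?_) i
      · rw [Fin.snoc_last]
        exact hz
      · rw [Fin.snoc_castSucc]
        exact hx' i
    · intro s hs
      set t : Finset (Fin m) := Finset.univ.filter (fun i => i.castSucc ∈ s) with ht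
      have hcomp : (Fin.snoc x' z : Fin (m + 1) → E d) ∘ Fin.castSucc = x' := by
        funext i
        exact Fin.snoc_castSucc (α := fun _ => E d) z x' i
      have hti : (t.map Fin.castSuccEmb) = s.erase (Fin.last m) := by
        ext i
        rw [Finset.mem_map, Finset.mem_erase]
        constructor
        · rintro ⟨j, hj, rfl⟩
          exact ⟨(Fin.castSucc_lt_last j).ne, (Finset.mem_filter.1 hj).2⟩
        · rintro ⟨h1, h2⟩
          obtain ⟨j, rfl⟩ := Fin.exists_castSucc_eq.2 h1
          exact ⟨j, Finset.mem_filter.2 ⟨Finset.mem_univ _, h2⟩, rfl⟩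
      have htc : t.card = (s.erase (Fin.last m)).card := by
        rw [← hti, Finset.card_map]
      have hset : ((s.erase (Fin.last m) : Finset (Fin (m + 1))) : Set (Fin (m + 1))) =
          Fin.castSucc '' (t : Set (Fin m)) := by
        rw [← hti, Finset.coe_map]
        rfl
      have htd : t.card ≤ d := by
        rw [htc]
        exact (Finset.card_le_card (Finset.erase_subset _ _)).trans hs
      have hli' : LinearIndepOn ℝ (Fin.snoc x' z : Fin (m + 1) → E d)
          ((s.erase (Fin.last m) : Finset (Fin (m + 1))) : Set (Fin (m + 1))) := by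
        rw [hset]
        apply LinearIndepOn.image_of_comp
        rw [hcomp]
        exact hli t htd
      by_cases hl : Fin.last m ∈ s
      · have hs' : (s : Set (Fin (m + 1))) = insert (Fin.last m)
            ((s.erase (Fin.last m) : Finset (Fin (m + 1))) : Set (Fin (m + 1))) := by
          rw [← Finset.coe_insert, Finset.insert_erase hl]
        rw [hs', linearIndepOn_insert (by simp)]
        refine ⟨hli', ?_⟩
        rw [hset, ← Set.image_comp, hcomp, Fin.snoc_last]
        refine hzV t (Finset.mem_filter.2 ⟨Finset.mem_univ _, ?_⟩)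
        rw [htc, Finset.card_erase_of_mem hl]
        have : 0 < s.card := Finset.card_pos.2 ⟨_, hl⟩
        omega
      · rwa [Finset.erase_eq_of_notMem hl] at hli'

theorem gen_pos {m : ℕ} (y : Fin m → E d) {δ : ℝ} (hδ : 0 < δ) :
    ∃ x : Fin m → E d, (∀ i, ‖x i - y i‖ < δ) ∧
      ∀ s : Finset (Fin m), s.card ≤ d → LinearIndependent ℝ (fun i : s => x i) := by
  obtain ⟨x, hx, h⟩ := genPos_aux hδ m y
  exact ⟨x, hx, fun s hs => h s hs⟩

end Pool.Agent.MPbd65ca
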