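import Pool.Agent.Lib.MP_bd65ca_an.Gen.NormFacts

/-!
# TUR, module NormNet: near points, finite nets and their convex hulls
-/

open MeasureTheory Pointwise Set Filter Topology
open scoped RealInnerProductSpace

namespace Pool.Agent.MPbd65ca

variable {d : ℕ} {ν : E d → ℝ}

namespace SNorm

/-- The sphere of a norm is compact. -/
private theorem isCompact_sphere (h : SNorm ν) : IsCompact {y : E d | ν y = 1} := by
  refine Metric.isCompact_of_isClosed_isBounded (isClosed_eq h.continuous continuous_const) ?_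
  obtain ⟨m, hm, hm'⟩ := h.lo
  rw [isBounded_iff_forall_norm_le]
  refine ⟨m⁻¹, fun y hy => ?_⟩
  have h0 : ν y = 1 := hy
  have h1 := (hm' y).trans h0.le
  rw [← one_div, le_div_iff₀ hm]
  linarith

/-- Near points on the sphere. -/
theorem exists_near (h : SNorm ν) (hd : 2 ≤ d) {r : ℝ} (hr : 0 < r) :
    ∃ a κ : E d, ν a = 1 ∧ ν κ = 1 ∧ 0 < ‖κ - a‖ ∧ ‖κ - a‖ < r := by
  set e1 : E d := EuclideanSpace.single (⟨0, by omega⟩ : Fin d) (1 : ℝ) with he1
  set e2 : E d := EuclideanSpace.single (⟨1, by omega⟩ : Fin d) (1 : ℝ) with he2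
  have h11 : e1 (⟨0, by omega⟩ : Fin d) = 1 := by simp [he1]
  have h12 : e1 (⟨1, by omega⟩ : Fin d) = 0 := by simp [he1]
  have h21 : e2 (⟨0, by omega⟩ : Fin d) = 0 := by simp [he2]
  have h22 : e2 (⟨1, by omega⟩ : Fin d) = 1 := by simp [he2]
  have hne : ∀ t : ℝ, e1 + t • e2 ≠ 0 := by
    intro t h0
    have h1 : (e1 + t • e2) (⟨0, by omega⟩ : Fin d) = 1 := by
      rw [PiLp.add_apply, PiLp.smul_apply, h11, h21, smul_zero, add_zero]
    rw [h0] at h1
    exact zero_ne_one h1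
  set v : ℝ → E d := fun t => (ν (e1 + t • e2))⁻¹ • (e1 + t • e2) with hv
  have hv1 : ∀ t, ν (v t) = 1 := fun t => (h.exists_unit (hne t)).2
  have hpos : ∀ t : ℝ, 0 < ν (e1 + t • e2) := fun t => (h.exists_unit (hne t)).1
  have hc0 : Continuous fun t : ℝ => e1 + t • e2 := by fun_prop
  have hc1 : Continuous fun t : ℝ => ν (e1 + t • e2) := h.continuous.comp hc0
  have hcv : Continuous v := (hc1.inv₀ fun t => (hpos t).ne').smul hc0
  have hcn : Continuous fun t : ℝ => ‖v t - v 0‖ := (hcv.sub continuous_const).norm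
  have hlim : Tendsto (fun t : ℝ => ‖v t - v 0‖) (𝓝 0) (𝓝 0) := by
    have := hcn.tendsto 0
    simpa using this
  have hev : ∀ᶠ t in 𝓝[≠] (0 : ℝ), ‖v t - v 0‖ < r :=
    (hlim.eventually (gt_mem_nhds hr)).filter_mono nhdsWithin_le_nhds
  have hev2 : ∀ᶠ t in 𝓝[≠] (0 : ℝ), t ≠ 0 := eventually_mem_nhdsWithin
  obtain ⟨t, ht, ht0⟩ := (hev.and hev2).exists
  refine ⟨v 0, v t, hv1 0, hv1 t, norm_pos_iff.2 (sub_ne_zero.2 fun heq => ?_), ht⟩
  have h1 : v t (⟨1, by omega⟩ : Fin d) = (ν (e1 + t • e2))⁻¹ * t := by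
    simp only [hv, PiLp.smul_apply, PiLp.add_apply, h12, h22, smul_eq_mul, mul_one, zero_add]
  have h2 : v 0 (⟨1, by omega⟩ : Fin d) = 0 := by
    simp only [hv, PiLp.smul_apply, PiLp.add_apply, h12, h22, smul_eq_mul, mul_one, zero_add,
      mul_zero]
  rw [heq, h2] at h1
  rcases mul_eq_zero.1 h1.symm with h3 | h3
  · exact (inv_ne_zero (hpos t).ne') h3
  · exact ht0 h3

/-- Finite nets of the sphere. -/
theorem net (h : SNorm ν) {δ : ℝ} (hδ : 0 < δ) : ∃ (m : ℕ) (y : Fin m → E d),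
    (∀ i, ν (y i) = 1) ∧ ∀ x, ν x = 1 → ∃ i, ν (x - y i) ≤ δ := by
  obtain ⟨M, hM, hM'⟩ := h.hi
  obtain ⟨t, hts, htf, htc⟩ := (isCompact_sphere h).finite_cover_balls (div_pos hδ hM)
  have hfin : Finite t := htf
  obtain ⟨m, ⟨e⟩⟩ := Finite.exists_equiv_fin t
  refine ⟨m, fun i => (e.symm i : E d), fun i => hts (e.symm i).2, fun x hx => ?_⟩
  have h1 := htc (show x ∈ {y : E d | ν y = 1} from hx)
  simp only [Set.mem_iUnion] at h1
  obtain ⟨y, hy, hxy⟩ := h1
  refine ⟨e ⟨y, hy⟩, ?_⟩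
  beta_reduce
  rw [Equiv.symm_apply_apply]
  rw [Metric.mem_ball, dist_eq_norm, lt_div_iff₀ hM] at hxy
  have := hM' (x - y)
  change ν (x - y) ≤ δ
  linarith

/-- The convex hull of a net contains a large ball. -/
theorem hull (h : SNorm ν) (hd : 0 < d) {N : Finset (E d)} {δ : ℝ} (hδ : δ < 1)
    (hN : ∀ y, ν y = 1 → ∃ v ∈ N, ν (y - v) ≤ δ) {x : E d} (hx : ν x ≤ 1 - δ) :
    x ∈ convexHull ℝ (N : Set (E d)) := by
  by_contra hcon
  have hcl : IsClosed (convexHull ℝ (N : Set (E d))) :=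
    ((Finset.finite_toSet N).isCompact_convexHull (𝕜 := ℝ)).isClosed
  obtain ⟨f, s, hf1, hf2⟩ := geometric_hahn_banach_closed_point (convex_convexHull ℝ _) hcl hcon
  set e1 : E d := EuclideanSpace.single (⟨0, hd⟩ : Fin d) (1 : ℝ) with he1
  have he0 : e1 ≠ 0 := by
    intro h0
    have h1 : e1 (⟨0, hd⟩ : Fin d) = 1 := by simp [he1]
    rw [h0] at h1
    exact zero_ne_one h1
  have hne : ({y : E d | ν y = 1}).Nonempty := ⟨_, (h.exists_unit he0).2⟩
  obtain ⟨y0, hy0, hmax⟩ := (isCompact_sphere h).exists_isMaxOn hne f.continuous.continuousOn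
  have hy0' : ν y0 = 1 := hy0
  have hle : ∀ z, f z ≤ f y0 * ν z := by
    intro z
    by_cases hz : z = 0
    · rw [hz, _root_.map_zero, h.map_zero, mul_zero]
    · obtain ⟨hz0, hz1⟩ := h.exists_unit hz
      have h1 : f ((ν z)⁻¹ • z) ≤ f y0 := hmax (show (ν z)⁻¹ • z ∈ {y : E d | ν y = 1} from hz1)
      rw [map_smul, smul_eq_mul, inv_mul_le_iff₀ hz0] at h1
      linarith
  have hpos : 0 ≤ f y0 := by
    have h1 := hle (-y0)
    rw [_root_.map_neg, h.map_neg, hy0'] at h1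
    linarith
  obtain ⟨v, hv, hyv⟩ := hN y0 hy0'
  have h1 := hf1 v (subset_convexHull ℝ _ (Finset.mem_coe.2 hv))
  have h2 := hle (y0 - v)
  rw [map_sub] at h2
  have h3 := hle x
  have h4 := mul_le_mul_of_nonneg_left hyv hpos
  have h5 := mul_le_mul_of_nonneg_left hx hpos
  have h6 : f y0 * (1 - δ) = f y0 - f y0 * δ := by ring
  linarith

end SNorm

end Pool.Agent.MPbd65ca
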