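import Pool.Agent.Lib.MP_bd65ca_an.Gen.Defs

/-!
# TUR, module ScaleGP: generic scalings
-/

open MeasureTheory Pointwise Set Filter Topology
open scoped RealInnerProductSpace

namespace Pool.Agent.MPbd65ca

variable {d : ℕ}

namespace ScaleGPAux

private theorem inj {m : ℕ} (u : Fin m → E d) {t : Fin m → ℝ} (ht : ∀ i, 0 < t i)
    {S : Finset (Fin m)} (hS : S.card = d) (hli : LinearIndependent ℝ (fun i : S => u i))
    {l l' : E d} (h : ∀ i ∈ S, ⟪l, t i • u i⟫ = ⟪l', t i • u i⟫) : l = l' := by
  have hcard : Fintype.card S = Module.finrank ℝ (E d) := by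
    rw [Fintype.card_coe, hS, finrank_euclideanSpace_fin]
  have hspan := hli.span_eq_top_of_card_eq_finrank' hcard
  have h1 : ∀ i : S, ⟪l - l', u i⟫ = 0 := by
    intro i
    have h2 := h i i.2
    rw [inner_smul_right, inner_smul_right] at h2
    have h3 : ⟪l, u i⟫ = ⟪l', u i⟫ := mul_left_cancel₀ (ht i).ne' h2
    rw [inner_sub_left, h3, sub_self]
  have h4 : ∀ x ∈ Submodule.span ℝ (Set.range fun i : S => u i), ⟪l - l', x⟫ = 0 := by
    intro x hx
    induction hx using Submodule.span_induction with
    | mem x hx =>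
      obtain ⟨i, rfl⟩ := hx
      exact h1 i
    | zero => exact inner_zero_right _
    | add x y _ _ hx hy => rw [inner_add_right, hx, hy, add_zero]
    | smul c x _ hx => rw [inner_smul_right, hx, mul_zero]
  have h5 := h4 (l - l') (by rw [hspan]; exact Submodule.mem_top)
  exact sub_eq_zero.1 (inner_self_eq_zero.1 h5)

private theorem fin_sols {m : ℕ} (u : Fin m → E d) {t : Fin m → ℝ} (ht : ∀ i, 0 < t i)
    {S : Finset (Fin m)} (hS : S.card = d) (hli : LinearIndependent ℝ (fun i : S => u i)) :
    {l : E d | ∀ i ∈ S, |⟪l, t i • u i⟫| = 1}.Finite := by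
  have hfin : (Set.univ.pi fun _ : S => ({1, -1} : Set ℝ)).Finite :=
    Set.Finite.pi fun _ => Set.toFinite _
  refine Set.Finite.of_injOn (f := fun l : E d => fun i : S => ⟪l, t i • u i⟫) ?_ ?_ hfin
  · intro l hl i _
    have h1 := hl i i.2
    rcases (abs_eq (zero_le_one' ℝ)).1 h1 with h | h
    · left
      exact h
    · right
      exact h
  · intro l _ l' _ h
    refine inj u ht hS hli fun i hi => ?_
    exact congrFun h ⟨i, hi⟩

private theorem step {m : ℕ} (u : Fin m → E d)
    (hu : ∀ s : Finset (Fin m), s.card ≤ d → LinearIndependent ℝ (fun i : s => u i)) {δ : ℝ}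
    (hδ : 0 < δ) (hδ1 : δ < 1) (n : ℕ) : ∃ t : Fin m → ℝ, (∀ i, 1 - δ < t i ∧ t i < 1) ∧
      ∀ (l : E d) (s : Finset (Fin m)), (∀ i ∈ s, i.val < n) →
        (∀ i ∈ s, |⟪l, t i • u i⟫| = 1) → s.card ≤ d := by
  classical
  induction n with
  | zero =>
    refine ⟨fun _ => 1 - δ / 2, fun _ => ⟨by linarith, by linarith⟩, fun l s hs _ => ?_⟩
    have : s = ∅ := Finset.eq_empty_of_forall_notMem fun i hi => absurd (hs i hi) (by omega)
    rw [this, Finset.card_empty]
    exact Nat.zero_le _
  | succ n ih =>
    obtain ⟨t, ht, ht1⟩ := ih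
    have htpos : ∀ i, 0 < t i := fun i => by linarith [(ht i).1]
    by_cases hn : n < m
    · set k : Fin m := ⟨n, hn⟩ with hk
      have hF : (⋃ S : {S : Finset (Fin m) // S.card = d},
          {l : E d | ∀ i ∈ S.1, |⟪l, t i • u i⟫| = 1}).Finite :=
        Set.finite_iUnion fun S => fin_sols u htpos S.2 (hu S.1 S.2.le)
      have hB := hF.image fun l : E d => |⟪l, u k⟫|⁻¹
      obtain ⟨τ, hτ, hτB⟩ := (Set.Ioo_infinite (show 1 - δ < 1 by linarith)).exists_notMem_finite
        hB
      have hτ0 : 0 < τ := by linarith [hτ.1]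
      refine ⟨Function.update t k τ, ?_, ?_⟩
      · intro i
        by_cases hi : i = k
        · rw [hi, Function.update_self]
          exact hτ
        · rw [Function.update_of_ne hi]
          exact ht i
      · intro l s hs hls
        by_contra hcard
        push Not at hcard
        by_cases hks : k ∈ s
        · have h1 : d ≤ (s.erase k).card := by
            rw [Finset.card_erase_of_mem hks]
            omega
          obtain ⟨S, hSs, hSc⟩ := Finset.exists_subset_card_eq h1
          apply hτB
          refine ⟨l, Set.mem_iUnion.2 ⟨⟨S, hSc⟩, fun i hi => ?_⟩, ?_⟩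
          · have h2 := Finset.mem_erase.1 (hSs hi)
            have h3 := hls i h2.2
            rwa [Function.update_of_ne h2.1] at h3
          · have h3 := hls k hks
            rw [Function.update_self, inner_smul_right, abs_mul, abs_of_pos hτ0] at h3
            exact (eq_inv_of_mul_eq_one_left h3).symm
        · refine absurd (ht1 l s (fun i hi => ?_) fun i hi => ?_) (not_le.2 hcard)
          · have h1 := hs i hi
            have h2 : i ≠ k := fun h => hks (h ▸ hi)
            have h3 : i.val ≠ n := fun h => h2 (Fin.ext h)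
            omega
          · have h2 : i ≠ k := fun h => hks (h ▸ hi)
            have h3 := hls i hi
            rwa [Function.update_of_ne h2] at h3
    · refine ⟨t, ht, fun l s _ hls => ht1 l s (fun i _ => ?_) hls⟩
      have := i.2
      omega

end ScaleGPAux

theorem scale_gp {m : ℕ} (u : Fin m → E d)
    (hu : ∀ s : Finset (Fin m), s.card ≤ d → LinearIndependent ℝ (fun i : s => u i)) {δ : ℝ}
    (hδ : 0 < δ) (hδ1 : δ < 1) : ∃ t : Fin m → ℝ, (∀ i, 1 - δ < t i ∧ t i < 1) ∧
      ∀ (l : E d) (s : Finset (Fin m)), (∀ i ∈ s, |⟪l, t i • u i⟫| = 1) → s.card ≤ d := by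
  obtain ⟨t, ht, h⟩ := ScaleGPAux.step u hu hδ hδ1 m
  exact ⟨t, ht, fun l s hs => h l s (fun i _ => i.2) hs⟩

end Pool.Agent.MPbd65ca
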