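import Pool.Agent.Lib.MP_bd65ca_an.Gen.Strict
import Pool.Agent.Lib.MP_bd65ca_an.Gen.NormNet
import Pool.Agent.Lib.MP_bd65ca_an.Gen.GenPos
import Pool.Agent.Lib.MP_bd65ca_an.Gen.ScaleGP

/-!
# TUR, module FineExist: fine generic polytopes near a body
-/

open MeasureTheory Pointwise Set Filter Topology
open scoped RealInnerProductSpace

namespace Pool.Agent.MPbd65ca

variable {d : ℕ}

namespace FineExistAux

variable {ν : E d → ℝ}

theorem exists_gap_fin {ι : Type} [Finite ι] [Nonempty ι] (P : ι → ℝ → Prop)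
    (hmono : ∀ i g g', g' ≤ g → P i g → P i g') (h : ∀ i, ∃ g : ℝ, 0 < g ∧ P i g) :
    ∃ g : ℝ, 0 < g ∧ ∀ i, P i g := by
  choose g hg hP using h
  obtain ⟨i0, hi0⟩ := Finite.exists_min g
  exact ⟨g i0, hg i0, fun i => hmono i _ _ (hi0 i) (hP i)⟩

theorem lt_aux {t c g δ T : ℝ} (ht0 : 0 < t) (ht1 : t < 1) (hc : c ≤ 1 - g) (hδ : δ ≤ g)
    (hδ1 : δ < 1) (hT : 1 - δ < T) : t * c < T := by
  rcases le_or_gt c 0 with h | h
  · have : t * c ≤ 0 := mul_nonpos_of_nonneg_of_nonpos ht0.le h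
    linarith
  · have : t * c < 1 * c := mul_lt_mul_of_pos_right ht1 h
    linarith

theorem expo (h : SNorm ν) {k : ℕ} (u : Fin k → E d) (hu1 : ∀ i, ν (u i) = 1)
    (hne : ∀ i j, i ≠ j → u i ≠ u j) (hneg : ∀ i j, u i ≠ -u j) (i0 : Fin k) :
    ∃ (n : E d) (g : ℝ), 0 < g ∧ ⟪n, u i0⟫ = 1 ∧ (∀ j, j ≠ i0 → ⟪n, u j⟫ ≤ 1 - g) ∧
      ∀ j, ⟪n, -u j⟫ ≤ 1 - g := by
  obtain ⟨n, hn1, hn⟩ := h.expose (hu1 i0)
  have : Nonempty (Fin k) := ⟨i0⟩
  obtain ⟨g, hg, hP⟩ := exists_gap_fin (ι := Fin k)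
    (fun j g => (j ≠ i0 → ⟪n, u j⟫ ≤ 1 - g) ∧ ⟪n, -u j⟫ ≤ 1 - g)
    (fun j g g' hgg h1 => ⟨fun hj => by linarith [h1.1 hj], by linarith [h1.2]⟩)
    (fun j => by
      have h2 : ⟪n, -u j⟫ < 1 := hn _ (by rw [h.map_neg, hu1]) (Ne.symm (hneg i0 j))
      by_cases hj : j = i0
      · exact ⟨1 - ⟪n, -u j⟫, by linarith, fun hj' => absurd hj hj', by linarith⟩
      · have h3 : ⟪n, u j⟫ < 1 := hn _ (hu1 j).le (hne j i0 hj)
        refine ⟨min (1 - ⟪n, -u j⟫) (1 - ⟪n, u j⟫), lt_min (by linarith) (by linarith), ?_, ?_⟩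
        · intro _
          linarith [min_le_right (1 - ⟪n, -u j⟫) (1 - ⟪n, u j⟫)]
        · linarith [min_le_left (1 - ⟪n, -u j⟫) (1 - ⟪n, u j⟫)])
  exact ⟨n, g, hg, hn1, fun j => (hP j).1, fun j => (hP j).2⟩

theorem pair_li (hd : 2 ≤ d) {k : ℕ} (u : Fin k → E d)
    (hu : ∀ s : Finset (Fin k), s.card ≤ d → LinearIndependent ℝ (fun i : s => u i))
    {i j : Fin k} (hij : i ≠ j) (c : ℝ) : u i ≠ c • u j := by
  classical
  intro he
  have h1 := hu {i, j} ((Finset.card_le_two).trans hd)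
  have hi : i ∈ ({i, j} : Finset (Fin k)) := by simp
  have hj : j ∈ ({i, j} : Finset (Fin k)) := by simp
  have h2 := h1.comp (![⟨i, hi⟩, ⟨j, hj⟩] : Fin 2 → ({i, j} : Finset (Fin k))) (by
    intro a b hab
    fin_cases a <;> fin_cases b
    · rfl
    · exact absurd (congrArg Subtype.val hab) hij
    · exact absurd (congrArg Subtype.val hab).symm hij
    · rfl)
  have h3 : (fun i_1 : ({i, j} : Finset (Fin k)) => u i_1) ∘
      (![⟨i, hi⟩, ⟨j, hj⟩] : Fin 2 → ({i, j} : Finset (Fin k))) = ![u i, u j] := by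
    funext a
    fin_cases a <;> rfl
  rw [h3, LinearIndependent.pair_iff] at h2
  have h4 := h2 1 (-c) (by rw [he, one_smul, neg_smul, add_neg_cancel])
  exact one_ne_zero h4.1

theorem unit_near (h : SNorm ν) {M e : ℝ} (hhi : ∀ x, ν x ≤ M * ‖x‖) (hM : 0 < M)
    {x y : E d} (hy : ν y = 1) (hxy : ‖x - y‖ < e) (he : M * e < 1) :
    0 < ν x ∧ ν ((ν x)⁻¹ • x) = 1 ∧ ν ((ν x)⁻¹ • x - y) ≤ 2 * (M * e) := by
  have h1 : ν (x - y) ≤ M * e := (hhi _).trans (mul_le_mul_of_nonneg_left hxy.le hM.le)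
  have h2 : ν (y - x) ≤ M * e := by
    have : y - x = -(x - y) := by abel
    rw [this, h.map_neg]
    exact h1
  have h3 := h.sub_le y x
  have h4 := h.sub_le x y
  have hx : 0 < ν x := by linarith
  refine ⟨hx, ?_, ?_⟩
  · rw [h.smul, abs_of_pos (inv_pos.2 hx), inv_mul_cancel₀ hx.ne']
  · have h5 : (ν x)⁻¹ • x - y = ((ν x)⁻¹ - 1) • x + (x - y) := by
      rw [sub_smul, one_smul]
      abel
    rw [h5]
    refine (h.add _ _).trans ?_
    have h6 : ν (((ν x)⁻¹ - 1) • x) ≤ M * e := by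
      rw [h.smul]
      have h7 : |(ν x)⁻¹ - 1| * ν x = |1 - ν x| := by
        rw [← abs_of_pos hx, ← abs_mul, abs_of_pos hx]
        congr 1
        field_simp
      rw [h7, abs_le]
      constructor <;> linarith
    linarith

theorem gp1_aux {k : ℕ} (u : Fin k → E d)
    (hu : ∀ s : Finset (Fin k), s.card ≤ d → LinearIndependent ℝ (fun i : s => u i))
    (J : E d → Fin k) (C : E d → ℝ) {s : Finset (E d)} (hC : ∀ w ∈ s, C w ≠ 0)
    (hJ : ∀ w ∈ s, w = C w • u (J w)) (hinj : ∀ w ∈ s, ∀ w' ∈ s, J w = J w' → w = w')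
    (hs : s.card ≤ d) : LinearIndependent ℝ (fun v : s => (v : E d)) := by
  classical
  have h1 := hu (s.image J) (Finset.card_image_le.trans hs)
  have h2 := h1.comp (fun w : s => (⟨J w, Finset.mem_image_of_mem J w.2⟩ : s.image J)) (by
    intro a b hab
    have h3 := congrArg Subtype.val hab
    exact Subtype.ext (hinj a a.2 b b.2 h3))
  have h3 := h2.units_smul (fun w : s => Units.mk0 (C w) (hC w w.2))
  have h4 : (fun v : s => (v : E d)) = (fun w : s => Units.mk0 (C w) (hC w w.2)) •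
      ((fun i : s.image J => u i) ∘
        fun w : s => (⟨J w, Finset.mem_image_of_mem J w.2⟩ : s.image J)) := by
    funext w
    exact hJ w w.2
  rw [h4]
  exact h3

theorem core (h : SNorm ν) (hd : 2 ≤ d) {k : ℕ} (y : Fin k → E d) (iA iK : Fin k)
    (hy1 : ∀ i, ν (y i) = 1) {m0 M r r0 m δ₂ : ℝ} (hm0 : 0 < m0)
    (hlo : ∀ x, m0 * ‖x‖ ≤ ν x) (hM : 0 < M) (hhi : ∀ x, ν x ≤ M * ‖x‖) (hr : 0 < r)
    (hMr : 4 * M * r ≤ 1 / 2) (h0 : ‖y iK - y iA‖ = 2 * r0) (hr0 : 0 < r0) (hr0r : 8 * r0 < r)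
    (hmarg : ∀ z, ν z ≤ 1 → r0 ≤ ‖z - y iK‖ → ν ((1 / 2 : ℝ) • (y iK + z)) ≤ 1 - m)
    (hδ₂ : 0 < δ₂) (hδm : δ₂ ≤ m / 4) (hδ4 : δ₂ ≤ 1 / 4) (hδr : δ₂ ≤ m0 * r0)
    (hnet : ∀ x, ν x = 1 → ∃ i, ν (x - y i) ≤ δ₂ / 2) :
    ∃ (N : Finset (E d)) (a κ : E d), Fine N a κ r ∧
      (∀ x, ν x ≤ 1 - δ₂ → x ∈ convexHull ℝ (N : Set (E d))) ∧ ∀ v ∈ N, ν v ≤ 1 := by
  classical
  obtain ⟨x, hx, hxli⟩ := gen_pos y (δ := δ₂ / (8 * M)) (by positivity)
  have hMe : M * (δ₂ / (8 * M)) = δ₂ / 8 := by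
    field_simp
  have hun := fun i => unit_near h hhi hM (hy1 i) (hx i) (by rw [hMe]; linarith)
  set u : Fin k → E d := fun i => (ν (x i))⁻¹ • x i with hudef
  have hu1 : ∀ i, ν (u i) = 1 := fun i => (hun i).2.1
  have huy : ∀ i, ν (u i - y i) ≤ δ₂ / 4 := fun i => by
    have := (hun i).2.2
    rw [hMe] at this
    linarith
  have hu : ∀ s : Finset (Fin k), s.card ≤ d → LinearIndependent ℝ (fun i : s => u i) := by
    intro s hs
    have h1 := (hxli s hs).units_smul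
      (fun i : s => Units.mk0 (ν (x i))⁻¹ (inv_ne_zero (hun i).1.ne'))
    exact h1
  have hne : ∀ i j, i ≠ j → u i ≠ u j := by
    intro i j hij
    have := pair_li hd u hu hij 1
    rwa [one_smul] at this
  have hneg : ∀ i j, u i ≠ -u j := by
    intro i j
    by_cases hij : i = j
    · subst hij
      intro he
      have h1 : u i = 0 := by
        have h2 : (2 : ℝ) • u i = 0 := by
          rw [two_smul]
          nth_rewrite 1 [he]
          exact neg_add_cancel _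
        exact (smul_eq_zero.1 h2).resolve_left two_ne_zero
      have h3 := hu1 i
      rw [h1, h.map_zero] at h3
      exact zero_ne_one h3
    · have := pair_li hd u hu hij (-1)
      rwa [neg_one_smul] at this
  obtain ⟨nA, gA, hgA, hnA1, hnA2, hnA3⟩ := expo h u hu1 hne hneg iA
  obtain ⟨nK, gK, hgK, hnK1, hnK2, hnK3⟩ := expo h u hu1 hne hneg iK
  set δ : ℝ := min (δ₂ / 4) (min gA gK) with hδdef
  have hδpos : 0 < δ := lt_min (by linarith) (lt_min hgA hgK)
  have hδle : δ ≤ δ₂ / 4 := min_le_left _ _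
  have hδA : δ ≤ gA := (min_le_right _ _).trans (min_le_left _ _)
  have hδK : δ ≤ gK := (min_le_right _ _).trans (min_le_right _ _)
  have hδ1 : δ < 1 := by linarith
  obtain ⟨t, ht, htgp⟩ := scale_gp u hu hδpos hδ1
  have ht0 : ∀ i, 0 < t i := fun i => by linarith [(ht i).1]
  set v : Fin k → E d := fun i => t i • u i with hvdef
  have hvnu : ∀ i, ν (v i) ≤ 1 := by
    intro i
    rw [hvdef]
    simp only
    rw [h.smul, hu1, mul_one, abs_of_pos (ht0 i)]
    exact (ht i).2.le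
  have hvy : ∀ i, ν (v i - y i) ≤ δ₂ / 2 := by
    intro i
    have h1 : v i - y i = (t i - 1) • u i + (u i - y i) := by
      rw [hvdef]
      simp only
      rw [sub_smul, one_smul]
      abel
    rw [h1]
    refine (h.add _ _).trans ?_
    rw [h.smul, hu1, mul_one]
    have h2 : |t i - 1| ≤ δ₂ / 4 := by
      rw [abs_le]
      constructor <;> linarith [(ht i).1, (ht i).2]
    linarith [huy i]
  have hvyn : ∀ i, ‖v i - y i‖ ≤ r0 / 2 := by
    intro i
    have h1 := (hlo (v i - y i)).trans (hvy i)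
    have h2 : m0 * ‖v i - y i‖ ≤ m0 * (r0 / 2) := by linarith
    exact le_of_mul_le_mul_left h2 hm0
  set N : Finset (E d) := Finset.univ.image v ∪ Finset.univ.image (fun i => -v i) with hN
  have hmemN : ∀ w, w ∈ N ↔ (∃ i, v i = w) ∨ ∃ i, -v i = w := by
    intro w
    rw [hN, Finset.mem_union, Finset.mem_image, Finset.mem_image]
    simp
  have hNnu : ∀ w ∈ N, ν w ≤ 1 := by
    intro w hw
    rcases (hmemN w).1 hw with ⟨i, rfl⟩ | ⟨i, rfl⟩
    · exact hvnu i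
    · rw [h.map_neg]
      exact hvnu i
  have hnetN : ∀ z, ν z = 1 → ∃ w ∈ N, ν (z - w) ≤ δ₂ := by
    intro z hz
    obtain ⟨i, hi⟩ := hnet z hz
    refine ⟨v i, (hmemN _).2 (Or.inl ⟨i, rfl⟩), ?_⟩
    have h1 : z - v i = (z - y i) + -(v i - y i) := by abel
    rw [h1]
    refine (h.add _ _).trans ?_
    rw [h.map_neg]
    linarith [hvy i]
  have hhull : ∀ z, ν z ≤ 1 - δ₂ → z ∈ convexHull ℝ (N : Set (E d)) := fun z hz =>
    h.hull (by omega) (by linarith) hnetN hz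
  have hint : ∀ z, ν z < 1 - δ₂ → z ∈ interior (convexHull ℝ (N : Set (E d))) := by
    intro z hz
    refine mem_interior.2 ⟨{z | ν z < 1 - δ₂}, fun w hw => hhull w (le_of_lt hw), ?_, hz⟩
    exact isOpen_lt h.continuous continuous_const
  have hmid : ∀ z, ν z ≤ 1 → r0 ≤ ‖z - y iK‖ →
      (1 / 2 : ℝ) • (v iK + z) ∈ interior (convexHull ℝ (N : Set (E d))) := by
    intro z hz hz2
    apply hint
    have h1 : (1 / 2 : ℝ) • (v iK + z) = (1 / 2 : ℝ) • (y iK + z) +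
        (1 / 2 : ℝ) • (v iK - y iK) := by
      rw [← smul_add]
      congr 1
      abel
    rw [h1]
    refine lt_of_le_of_lt (h.add _ _) ?_
    have h2 := hmarg z hz hz2
    rw [h.smul (1 / 2) (v iK - y iK), abs_of_pos (by norm_num : (0 : ℝ) < 1 / 2)]
    linarith [hvy iK]
  have hexp : ∀ (i0 : Fin k) (n : E d) (g : ℝ), δ ≤ g → ⟪n, u i0⟫ = 1 →
      (∀ j, j ≠ i0 → ⟪n, u j⟫ ≤ 1 - g) → (∀ j, ⟪n, -u j⟫ ≤ 1 - g) →
      ∀ w ∈ N, w ≠ v i0 → ⟪n, w⟫ < ⟪n, v i0⟫ := by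
    intro i0 n g hg h1 h2 h3 w hw hw0
    have h4 : ⟪n, v i0⟫ = t i0 := by
      rw [hvdef]
      simp only
      rw [inner_smul_right, h1, mul_one]
    rw [h4]
    rcases (hmemN w).1 hw with ⟨j, rfl⟩ | ⟨j, rfl⟩
    · have hj : j ≠ i0 := fun hj => hw0 (by rw [hj])
      have h5 : ⟪n, v j⟫ = t j * ⟪n, u j⟫ := by
        rw [hvdef]
        simp only
        rw [inner_smul_right]
      rw [h5]
      exact lt_aux (ht0 j) (ht j).2 (h2 j hj) hg hδ1 (ht i0).1
    · have h5 : ⟪n, -v j⟫ = t j * ⟪n, -u j⟫ := by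
        rw [hvdef]
        simp only
        rw [inner_neg_right, inner_neg_right, inner_smul_right]
        ring
      rw [h5]
      exact lt_aux (ht0 j) (ht j).2 (h3 j) hg hδ1 (ht i0).1
  have hv0 : ∀ i, v i ≠ 0 := by
    intro i hi
    have h1 : t i • u i = 0 := hi
    rcases smul_eq_zero.1 h1 with h2 | h2
    · exact (ht0 i).ne' h2
    · have h3 := hu1 i
      rw [h2, h.map_zero] at h3
      exact zero_ne_one h3
  -- indices and signs
  have hsel : ∀ w, w ∈ N → ∃ (j : Fin k) (s : ℝ), (s = 1 ∨ s = -1) ∧ w = s • v j := by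
    intro w hw
    rcases (hmemN w).1 hw with ⟨j, rfl⟩ | ⟨j, rfl⟩
    · exact ⟨j, 1, Or.inl rfl, (one_smul _ _).symm⟩
    · exact ⟨j, -1, Or.inr rfl, (neg_one_smul _ _).symm⟩
  have : Nonempty (Fin k) := ⟨iA⟩
  choose! J S hS hJ using hsel
  have hinjN : ∀ w ∈ N, ∀ w' ∈ N, J w = J w' → w = w' ∨ w' = -w := by
    intro w hw w' hw' hJJ
    have h1 := hJ w hw
    have h2 := hJ w' hw'
    rw [← hJJ] at h2
    rcases hS w hw with h3 | h3 <;> rcases hS w' hw' with h4 | h4 <;> rw [h3] at h1 <;>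
      rw [h4] at h2
    · left
      rw [h1, h2]
    · right
      rw [h1, h2, neg_one_smul, one_smul]
    · right
      rw [h1, h2, neg_one_smul, one_smul, neg_neg]
    · left
      rw [h1, h2]
  have hvAK : ‖v iK - v iA‖ ≤ 3 * r0 ∧ r0 ≤ ‖v iK - v iA‖ := by
    have h1 : v iK - v iA = (y iK - y iA) + ((v iK - y iK) - (v iA - y iA)) := by abel
    have h2 : ‖(v iK - y iK) - (v iA - y iA)‖ ≤ r0 := by
      refine (norm_sub_le _ _).trans ?_
      linarith [hvyn iK, hvyn iA]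
    constructor
    · rw [h1]
      refine (norm_add_le _ _).trans ?_
      linarith
    · have h3 : ‖y iK - y iA‖ ≤ ‖v iK - v iA‖ + ‖(v iK - y iK) - (v iA - y iA)‖ := by
        have h4 : y iK - y iA = (v iK - v iA) - ((v iK - y iK) - (v iA - y iA)) := by abel
        rw [h4]
        exact norm_sub_le _ _
      linarith
  refine ⟨N, v iA, v iK, ?_, hhull, hNnu⟩
  refine
    { neg := ?_
      ha := (hmemN _).2 (Or.inl ⟨iA, rfl⟩)
      hκ := (hmemN _).2 (Or.inl ⟨iK, rfl⟩)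
      hκa := ?_
      hr := hr
      ball := ?_
      near := ?_
      mid := ?_
      far := ?_
      expa := ⟨nA, hexp iA nA gA hδA hnA1 hnA2 hnA3⟩
      expκ := ⟨nK, hexp iK nK gK hδK hnK1 hnK2 hnK3⟩
      gp1 := ?_
      gp2 := ?_ }
  · intro w hw
    rcases (hmemN w).1 hw with ⟨i, rfl⟩ | ⟨i, rfl⟩
    · exact (hmemN _).2 (Or.inr ⟨i, rfl⟩)
    · rw [neg_neg]
      exact (hmemN _).2 (Or.inl ⟨i, rfl⟩)
  · intro he
    have h1 := hvAK.2
    rw [he, sub_self, norm_zero] at h1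
    linarith
  · intro z hz
    rw [Metric.mem_closedBall, dist_zero_right] at hz
    apply hint
    have h1 := (hhi z).trans (mul_le_mul_of_nonneg_left hz hM.le)
    have h2 : M * (2 * r) ≤ 1 / 4 := by linarith
    linarith
  · linarith [hvAK.1]
  · apply hmid _ (hvnu iA)
    have h1 : v iA - y iK = -((y iK - y iA) - (v iA - y iA)) := by abel
    rw [h1, norm_neg]
    have h2 : ‖y iK - y iA‖ ≤ ‖(y iK - y iA) - (v iA - y iA)‖ + ‖v iA - y iA‖ := by
      have h4 : y iK - y iA = ((y iK - y iA) - (v iA - y iA)) + (v iA - y iA) := by abel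
      nth_rewrite 1 [h4]
      exact norm_add_le _ _
    linarith [hvyn iA]
  · intro w hw
    rcases lt_or_ge ‖w - v iA‖ r with h1 | h1
    · exact Or.inl h1
    · right
      apply hmid w (hNnu w hw)
      have h2 : ‖w - v iA‖ ≤ ‖w - y iK‖ + (‖y iK - y iA‖ + ‖v iA - y iA‖) := by
        have h4 : w - v iA = (w - y iK) + ((y iK - y iA) - (v iA - y iA)) := by abel
        rw [h4]
        refine (norm_add_le _ _).trans ?_
        linarith [norm_sub_le (y iK - y iA) (v iA - y iA)]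
      linarith [hvyn iA]
  · intro s hs hcard hanti
    refine gp1_aux u hu J (fun w => S w * t (J w)) (fun w hw => ?_) (fun w hw => ?_)
      (fun w hw w' hw' hJJ => ?_) hcard
    · rcases hS w (hs hw) with h1 | h1 <;> rw [h1]
      · rw [one_mul]
        exact (ht0 _).ne'
      · rw [neg_one_mul]
        exact neg_ne_zero.2 (ht0 _).ne'
    · have h1 := hJ w (hs hw)
      rw [mul_smul]
      exact h1
    · rcases hinjN w (hs hw) w' (hs hw') hJJ with h1 | h1
      · exact h1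
      · exact absurd (h1 ▸ hw') (hanti w hw)
  · intro l s hs hl
    have hinj : Set.InjOn J s := by
      intro w hw w' hw' hJJ
      rcases hinjN w (hs hw) w' (hs hw') hJJ with h1 | h1
      · exact h1
      · have h2 := hl w hw
        have h3 := hl w' hw'
        rw [h1, inner_neg_right, h2] at h3
        norm_num at h3
    rw [← Finset.card_image_of_injOn hinj]
    apply htgp l
    intro i hi
    obtain ⟨w, hw, rfl⟩ := Finset.mem_image.1 hi
    have h2 := hl w hw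
    rw [hJ w (hs hw), inner_smul_right] at h2
    change |⟪l, v (J w)⟫| = 1
    rcases hS w (hs hw) with h1 | h1 <;> rw [h1] at h2
    · rw [one_mul] at h2
      rw [h2, abs_one]
    · have h3 : ⟪l, v (J w)⟫ = -1 := by linarith
      rw [h3, abs_neg, abs_one]

end FineExistAux

theorem exists_fine (hd : 2 ≤ d) {W : Set (E d)} (hW : IsBody W) {η : ℝ} (hη : 0 < η)
    (hη1 : η < 1) : ∃ (N : Finset (E d)) (a κ : E d) (r : ℝ), Fine N a κ r ∧
      (1 - η) • W ⊆ convexHull ℝ (N : Set (E d)) ∧ convexHull ℝ (N : Set (E d)) ⊆ W := by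
  obtain ⟨ν, h, hν1, hν2⟩ := exists_snorm hW (η := η / 2) (by linarith)
  obtain ⟨m0, hm0, hlo⟩ := h.lo
  obtain ⟨M, hM, hhi⟩ := h.hi
  set r : ℝ := 1 / (8 * M) with hr
  have hr0' : 0 < r := by positivity
  have hMr : 4 * M * r ≤ 1 / 2 := by
    rw [hr]
    apply le_of_eq
    field_simp
    norm_num
  obtain ⟨a0, κ0, ha0, hκ0, hpos, hlt⟩ := h.exists_near hd (r := r / 4) (by linarith)
  set r0 : ℝ := ‖κ0 - a0‖ / 2 with hr0
  have hr0pos : 0 < r0 := by linarith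
  obtain ⟨m, hm, hmarg⟩ := h.margin hκ0 hr0pos
  set δ₂ : ℝ := min (min (η / 2) (m / 4)) (min (1 / 4) (m0 * r0)) with hδ₂
  have hδ₂pos : 0 < δ₂ :=
    lt_min (lt_min (by linarith) (by linarith)) (lt_min (by norm_num) (mul_pos hm0 hr0pos))
  have h1 : δ₂ ≤ η / 2 := (min_le_left _ _).trans (min_le_left _ _)
  have h2 : δ₂ ≤ m / 4 := (min_le_left _ _).trans (min_le_right _ _)
  have h3 : δ₂ ≤ 1 / 4 := (min_le_right _ _).trans (min_le_left _ _)
  have h4 : δ₂ ≤ m0 * r0 := (min_le_right _ _).trans (min_le_right _ _)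
  obtain ⟨m', y, hy1, hynet⟩ := h.net (δ := δ₂ / 2) (by linarith)
  obtain ⟨N, a, κ, hF, hhull, hN⟩ := FineExistAux.core h hd
    (Fin.cons a0 (Fin.cons κ0 y : Fin (m' + 1) → E d) : Fin (m' + 2) → E d) 0 1
    (by
      intro i
      refine Fin.cases ?_ (fun i => ?_) i
      · exact ha0
      · refine Fin.cases ?_ (fun i => ?_) i
        · exact hκ0
        · exact hy1 i)
    hm0 hlo hM hhi hr0' hMr (r0 := r0) (m := m) (δ₂ := δ₂)
    (by
      change ‖κ0 - a0‖ = 2 * r0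
      rw [hr0]
      ring) hr0pos (by linarith) hmarg hδ₂pos h2 h3 h4
    (by
      intro x hx
      obtain ⟨i, hi⟩ := hynet x hx
      exact ⟨i.succ.succ, hi⟩)
  refine ⟨N, a, κ, r, hF, ?_, ?_⟩
  · rintro _ ⟨w, hw, rfl⟩
    apply hhull
    change ν ((1 - η) • w) ≤ 1 - δ₂
    rw [h.smul, abs_of_pos (by linarith : (0 : ℝ) < 1 - η)]
    have h5 := mul_le_mul_of_nonneg_left (hν1 w hw) (by linarith : (0 : ℝ) ≤ 1 - η)
    nlinarith
  · exact convexHull_min (fun v hv => hν2 v (hN v hv)) hW.convex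

end Pool.Agent.MPbd65ca
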