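import Pool.Agent.Lib.MP_bd65ca_an.Gen.GenMain
import Pool.Agent.Lib.MP_bd65ca_an.Gen.FineExist

/-!
# TUR, module Final: density of the bodies with a smaller value in all dimensions
-/

open MeasureTheory Pointwise Set Filter Topology
open scoped RealInnerProductSpace

namespace Pool.Agent.MPbd65ca

open ScaleAux

variable {d : ℕ}

theorem IsBody.smul_subset_smul {K : Set (E d)} (hK : IsBody K) {s t : ℝ} (hs : 0 ≤ s)
    (hst : s ≤ t) (ht : 0 < t) : s • K ⊆ t • K := by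
  rintro _ ⟨x, hx, rfl⟩
  have h0 : (0 : E d) ∈ K := interior_subset hK.zero_mem
  have hc : (s / t) • x ∈ K := by
    have := hK.convex hx h0 (a := s / t) (b := 1 - s / t) (div_nonneg hs ht.le) (by
      rw [sub_nonneg, div_le_one ht]; exact hst) (by ring)
    simpa using this
  refine ⟨_, hc, ?_⟩
  simp only
  rw [smul_smul, mul_div_cancel₀ _ ht.ne']

theorem gen_dense (hd : 2 ≤ d) {K₀ : Set (E d)} (hK : IsBody K₀) {η : ℝ} (hη : 0 < η)
    (hη1 : η < 1) : ∃ K : Set (E d), IsBody K ∧ (1 - η) • K₀ ⊆ K ∧ K ⊆ (1 + η) • K₀ ∧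
      ∃ F ∈ cls K, ∫ x, F x < 2 ^ d / volume.real K := by
  set W₀ : Set (E d) := (1 / 2 : ℝ) • K₀ with hW₀
  have hW₀b : IsBody W₀ := hK.smul (by norm_num)
  obtain ⟨N, a, κ, r, hF, h1, h2⟩ := exists_fine hd hW₀b (half_pos hη) (by linarith)
  obtain ⟨W, hW, h3, h4, F, hFc, hFi⟩ := fine_main hd hF (half_pos hη) (by linarith)
  have h2K : (2 : ℝ) • W₀ = K₀ := by
    rw [hW₀, smul_smul]
    norm_num
  have h5 : (1 - η) • W₀ ⊆ W := by
    have e1 : (1 - η) • W₀ ⊆ ((1 - η / 2) * (1 - η / 2)) • W₀ :=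
      hW₀b.smul_subset_smul (by linarith) (by nlinarith [sq_nonneg η])
        (mul_pos (by linarith) (by linarith))
    refine e1.trans ?_
    rw [mul_smul]
    exact (smul_set_mono h1).trans h3
  have h6 : W ⊆ (1 + η) • W₀ := by
    have e1 : W₀ ⊆ (1 + η) • W₀ := by
      have := hW₀b.smul_subset_smul (s := 1) (t := 1 + η) (by norm_num) (by linarith)
        (by linarith)
      rwa [one_smul] at this
    exact (h4.trans h2).trans e1
  refine ⟨W + W, ?_, ?_, ?_, F, hFc, ?_⟩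
  · rw [Convex.add_self hW.convex]
    exact hW.smul two_pos
  · rw [Convex.add_self hW.convex, ← h2K, smul_comm]
    exact smul_set_mono h5
  · rw [Convex.add_self hW.convex, ← h2K, smul_comm]
    exact smul_set_mono h6
  · rw [Convex.add_self hW.convex, vol_smul two_pos]
    refine hFi.trans_le (le_of_eq ?_)
    have := vol_pos hW
    field_simp

/-- The bodies with the value `2 ^ d / |K|` are nowhere dense. -/
theorem gen_generic (hd : 2 ≤ d) (K₀ : Set (E d)) (hK₀ : IsBody K₀) (η : ℝ) (hη : 0 < η)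
    (hη1 : η < 1) : ∃ K : Set (E d), IsBody K ∧ (1 - η) • K₀ ⊆ K ∧ K ⊆ (1 + η) • K₀ ∧
      turan K < 2 ^ d / volume.real K ∧
      ∃ δ : ℝ, 0 < δ ∧ δ < 1 ∧ ∀ K' : Set (E d), IsBody K' → (1 - δ) • K ⊆ K' →
        K' ⊆ (1 + δ) • K → turan K' < 2 ^ d / volume.real K' := by
  obtain ⟨K, hK, h1, h2, F, hF, hFi⟩ := gen_dense hd hK₀ hη hη1
  have h := (turan_le_integral hF).trans_lt hFi
  exact ⟨K, hK, h1, h2, h, turan_open hK h ⟨F, hF⟩⟩

end Pool.Agent.MPbd65ca
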