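import Pool.Agent.Lib.MP_bd65ca_an.Gen.Basic

/-!
# TUR, module TriVert: the exposed points of `N` are vertices of the triangulation
-/

open MeasureTheory Pointwise Set Filter Topology
open scoped RealInnerProductSpace

namespace Pool.Agent.MPbd65ca

variable {d : ℕ}

theorem Fine.ne_zero {N : Finset (E d)} {a κ : E d} {r : ℝ} (h : Fine N a κ r) :
    a ≠ 0 ∧ κ ≠ 0 ∧ κ ≠ -a := by
  have hr := h.hr
  refine ⟨?_, ?_, ?_⟩
  · rintro rfl
    obtain ⟨n, hn⟩ := h.expa
    have h1 := hn κ h.hκ h.hκa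
    have h2 := hn (-κ) (h.neg κ h.hκ) (fun h3 => h.hκa (neg_eq_zero.1 h3))
    rw [inner_zero_right] at h1 h2
    rw [inner_neg_right] at h2
    linarith
  · rintro rfl
    obtain ⟨n, hn⟩ := h.expκ
    have h1 := hn a h.ha h.hκa.symm
    have h2 := hn (-a) (h.neg a h.ha) (fun h3 => h.hκa.symm (neg_eq_zero.1 h3))
    rw [inner_zero_right] at h1 h2
    rw [inner_neg_right] at h2
    linarith
  · intro hκ
    have hnear := h.near
    have h1 : ‖a‖ < r := by
      have h2 : κ - a = -((2 : ℝ) • a) := by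
        rw [hκ, two_smul]
        abel
      rw [h2, norm_neg, norm_smul, Real.norm_eq_abs, abs_of_pos two_pos] at hnear
      have := norm_nonneg a
      linarith
    obtain ⟨n, hn⟩ := h.expa
    have hle : ∀ y ∈ convexHull ℝ (N : Set (E d)), ⟪n, y⟫ ≤ ⟪n, a⟫ := by
      have hsub : convexHull ℝ (N : Set (E d)) ⊆ {y | ⟪n, y⟫ ≤ ⟪n, a⟫} := by
        refine convexHull_min ?_ ?_
        · intro v hv
          by_cases hva : v = a
          · rw [hva]
            exact le_refl ⟪n, a⟫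
          · exact (hn v hv hva).le
        · exact convex_halfSpace_le ((innerₛₗ ℝ n).isLinear) _
      exact fun y hy => hsub hy
    have hn0 : n ≠ 0 := by
      rintro rfl
      have := hn κ h.hκ h.hκa
      rw [inner_zero_left, inner_zero_left] at this
      exact lt_irrefl _ this
    have hnp : 0 < ‖n‖ := norm_pos_iff.2 hn0
    have h3 : a + (r / ‖n‖) • n ∈ convexHull ℝ (N : Set (E d)) := by
      refine interior_subset (h.ball ?_)
      rw [mem_closedBall_zero_iff]
      refine (norm_add_le _ _).trans ?_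
      rw [norm_smul, Real.norm_eq_abs, abs_of_pos (div_pos hr hnp), div_mul_cancel₀ _ hnp.ne']
      linarith
    have h4 := hle _ h3
    rw [inner_add_right, real_inner_smul_right, real_inner_self_eq_norm_sq] at h4
    have h5 : 0 < r / ‖n‖ * ‖n‖ ^ 2 := by positivity
    linarith

theorem tri_mem {N : Finset (E d)} {a κ : E d} {r : ℝ} (h : Fine N a κ r)
    {T : Finset (Fin d → E d)} (hT : Tri N T) {v n : E d} (hv : v ∈ N)
    (hn : ∀ w ∈ N, w ≠ v → ⟪n, w⟫ < ⟪n, v⟫) : ∃ F ∈ T, ∃ k, F k = v := by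
  classical
  set W := convexHull ℝ (N : Set (E d)) with hW
  have hWc : IsClosed W := (N.finite_toSet.isCompact_convexHull (𝕜 := ℝ)).isClosed
  have hWne : (interior W).Nonempty := ⟨0, h.ball (Metric.mem_closedBall_self (by
    have := h.hr
    linarith))⟩
  have hWcl : W ⊆ closure (interior W) := by
    rw [(convex_convexHull ℝ _).closure_interior_eq_closure_of_nonempty_interior hWne]
    exact subset_closure
  let C : Set (E d) := ⋃ F ∈ T, spx 0 F
  have hC : IsClosed C := T.finite_toSet.isClosed_biUnion fun F _ => (isCompact_spx 0 F).isClosed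
  have hWC : W ⊆ C := by
    intro y hy
    by_contra hyC
    have hU : IsOpen (Cᶜ ∩ interior W) := hC.isOpen_compl.inter isOpen_interior
    have hUne : (Cᶜ ∩ interior W).Nonempty := by
      have := mem_closure_iff.1 (hWcl hy) Cᶜ hC.isOpen_compl hyC
      exact this
    have hpos := hU.measure_pos volume hUne
    have hae := hT.ind
    rw [ae_iff] at hae
    have hsub : Cᶜ ∩ interior W ⊆ {z | ¬ ((convexHull ℝ (N : Set (E d))).indicator
        (fun _ => (1 : ℝ)) z = ∑ F ∈ T, (spx 0 F).indicator (fun _ => (1 : ℝ)) z)} := by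
      rintro z ⟨hz1, hz2⟩ hz3
      rw [Set.indicator_of_mem (interior_subset hz2), Finset.sum_eq_zero] at hz3
      · exact one_ne_zero hz3
      · intro F hF
        refine Set.indicator_of_notMem (fun hzF => hz1 ?_) _
        exact Set.mem_biUnion hF hzF
    exact absurd (measure_mono_null hsub hae) hpos.ne'
  have hvC := hWC (subset_convexHull ℝ _ hv)
  obtain ⟨F, hF, hvF⟩ := Set.mem_iUnion₂.1 hvC
  obtain ⟨t, ⟨ht0, ht1⟩, htv⟩ := hvF
  rw [zero_add] at htv
  have hv0 : v ≠ 0 := by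
    rintro rfl
    obtain ⟨w, hw, hw0⟩ : ∃ w ∈ N, w ≠ 0 := ⟨a, h.ha, h.ne_zero.1⟩
    have h1 := hn w hw hw0
    have h2 := hn (-w) (h.neg w hw) (neg_ne_zero.2 hw0)
    rw [inner_zero_right] at h1 h2
    rw [inner_neg_right] at h2
    linarith
  have hnv : 0 < ⟪n, v⟫ := inner_pos_of_top h.neg hv hv0 hn
  refine ⟨F, hF, ?_⟩
  by_contra hcon
  push Not at hcon
  have hlt : ∀ k, ⟪n, F k⟫ < ⟪n, v⟫ := fun k => hn (F k) (hT.mem F hF k) (hcon k)
  have hsum : ⟪n, v⟫ = ∑ k, t k * ⟪n, F k⟫ := by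
    conv_lhs => rw [htv]
    rw [inner_sum]
    exact Finset.sum_congr rfl fun k _ => real_inner_smul_right _ _ _
  have hle : ∑ k, t k * ⟪n, F k⟫ ≤ ∑ k, t k * ⟪n, v⟫ :=
    Finset.sum_le_sum fun k _ => mul_le_mul_of_nonneg_left (hlt k).le (ht0 k)
  obtain ⟨k, hk⟩ : ∃ k, t k ≠ 0 := by
    by_contra hc
    push Not at hc
    apply hv0
    rw [htv]
    exact Finset.sum_eq_zero fun k _ => by rw [hc k, zero_smul]
  have hlt' : ∑ k, t k * ⟪n, F k⟫ < ∑ k, t k * ⟪n, v⟫ :=
    Finset.sum_lt_sum (fun k _ => mul_le_mul_of_nonneg_left (hlt k).le (ht0 k))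
      ⟨k, Finset.mem_univ k, mul_lt_mul_of_pos_left (hlt k) (lt_of_le_of_ne (ht0 k) hk.symm)⟩
  rw [← Finset.sum_mul] at hlt'
  have h5 : (∑ k, t k) * ⟪n, v⟫ ≤ 1 * ⟪n, v⟫ := mul_le_mul_of_nonneg_right ht1 hnv.le
  linarith

end Pool.Agent.MPbd65ca
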