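import Pool.Agent.Lib.MP_bd65ca_an.Gen.Slab
import Pool.Agent.Lib.MP_bd65ca_an.Gen.TriVert

/-!
# TUR, module Freq: the frequencies are admissible
-/

open MeasureTheory Pointwise Set Filter Topology
open scoped RealInnerProductSpace

namespace Pool.Agent.MPbd65ca

variable {d : ℕ}

namespace FreqAux

/-- A ball around an interior point lies in all slabs which are wide enough. -/
theorem ball_slab {W : Set (E d)} {n : E d} {c : ℝ} (hn : n ≠ 0) (hc : ∀ y ∈ W, ⟪n, y⟫ ≤ c)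
    (hneg : ∀ y ∈ W, -y ∈ W) {p : E d} (hp : p ∈ interior W) :
    ∃ ρ μ₁ : ℝ, 0 < ρ ∧ 0 < μ₁ ∧ ∀ μ ≤ μ₁, Metric.closedBall p ρ ⊆ slab W n (c - μ) := by
  obtain ⟨ε, hε, hball⟩ := Metric.isOpen_iff.1 isOpen_interior p hp
  have hn0 : 0 < ‖n‖ := norm_pos_iff.2 hn
  have hW : ∀ y, dist y p < ε → y ∈ W := fun y hy => interior_subset (hball hy)
  refine ⟨ε / 3, ε / 3 * ‖n‖, by positivity, by positivity, ?_⟩
  intro μ hμ y hy
  rw [Metric.mem_closedBall] at hy
  have hv : ‖(ε / 3) • (‖n‖⁻¹ • n)‖ = ε / 3 := by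
    rw [norm_smul, norm_smul, norm_inv, norm_norm, inv_mul_cancel₀ hn0.ne', mul_one,
      Real.norm_of_nonneg (by positivity)]
  have hin : ⟪n, (ε / 3) • (‖n‖⁻¹ • n)⟫ = ε / 3 * ‖n‖ := by
    rw [real_inner_smul_right, real_inner_smul_right, real_inner_self_eq_norm_sq]
    field_simp
  have h1 : y + (ε / 3) • (‖n‖⁻¹ • n) ∈ W := by
    apply hW
    have : dist (y + (ε / 3) • (‖n‖⁻¹ • n)) p ≤ dist y p + ε / 3 := by
      rw [dist_eq_norm, dist_eq_norm]
      calc ‖y + (ε / 3) • (‖n‖⁻¹ • n) - p‖ = ‖(y - p) + (ε / 3) • (‖n‖⁻¹ • n)‖ := by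
            congr 1; abel
        _ ≤ _ := (norm_add_le _ _).trans (by rw [hv])
    linarith
  have h2 : y - (ε / 3) • (‖n‖⁻¹ • n) ∈ W := by
    apply hW
    have : dist (y - (ε / 3) • (‖n‖⁻¹ • n)) p ≤ dist y p + ε / 3 := by
      rw [dist_eq_norm, dist_eq_norm]
      calc ‖y - (ε / 3) • (‖n‖⁻¹ • n) - p‖ = ‖(y - p) - (ε / 3) • (‖n‖⁻¹ • n)‖ := by
            congr 1; abel
        _ ≤ _ := (norm_sub_le _ _).trans (by rw [hv])
    linarith
  refine ⟨hW y (by linarith), ?_⟩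
  have h3 := hc _ h1
  have h4 := hc _ (hneg _ h2)
  rw [inner_add_right, hin] at h3
  rw [inner_neg_right, inner_sub_right, hin] at h4
  rw [abs_le]
  constructor <;> linarith

/-- The same for finitely many points. -/
theorem balls_slab {W : Set (E d)} {n : E d} {c : ℝ} (hn : n ≠ 0) (hc : ∀ y ∈ W, ⟪n, y⟫ ≤ c)
    (hneg : ∀ y ∈ W, -y ∈ W) (P : Finset (E d)) (hP : ∀ p ∈ P, p ∈ interior W) :
    ∃ ρ μ₁ : ℝ, 0 < ρ ∧ 0 < μ₁ ∧ ∀ μ ≤ μ₁, ∀ p ∈ P,
      Metric.closedBall p ρ ⊆ slab W n (c - μ) := by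
  classical
  induction P using Finset.induction_on with
  | empty => exact ⟨1, 1, one_pos, one_pos, fun μ _ p hp => by simp at hp⟩
  | insert q P hq ih =>
    obtain ⟨ρ, μ₁, hρ, hμ₁, h⟩ := ih fun p hp => hP p (Finset.mem_insert_of_mem hp)
    obtain ⟨ρ', μ₁', hρ', hμ₁', h'⟩ := ball_slab hn hc hneg (hP q (Finset.mem_insert_self _ _))
    refine ⟨min ρ ρ', min μ₁ μ₁', lt_min hρ hρ', lt_min hμ₁ hμ₁', ?_⟩
    intro μ hμ p hp
    rcases Finset.mem_insert.1 hp with rfl | hp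
    · exact (Metric.closedBall_subset_closedBall (min_le_right _ _)).trans
        (h' μ (hμ.trans (min_le_right _ _)))
    · exact (Metric.closedBall_subset_closedBall (min_le_left _ _)).trans
        (h μ (hμ.trans (min_le_left _ _)) p hp)

/-- Doubling. -/
theorem ball_add {S : Set (E d)} {f : E d} {ρ : ℝ}
    (h : Metric.closedBall ((1 / 2 : ℝ) • f) ρ ⊆ S) : Metric.closedBall f (2 * ρ) ⊆ S + S := by
  intro z hz
  rw [Metric.mem_closedBall, dist_eq_norm] at hz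
  have hz2 : (1 / 2 : ℝ) • z ∈ S := by
    apply h
    rw [Metric.mem_closedBall, dist_eq_norm, ← smul_sub, norm_smul,
      Real.norm_of_nonneg (by norm_num)]
    linarith
  refine Set.mem_add.2 ⟨_, hz2, _, hz2, ?_⟩
  rw [← add_smul]
  norm_num

/-- A common margin for finitely many frequencies. -/
theorem margin {W : Set (E d)} {n : E d} {c : ℝ} (hn : n ≠ 0) (hc : ∀ y ∈ W, ⟪n, y⟫ ≤ c)
    (hneg : ∀ y ∈ W, -y ∈ W) (h0 : (0 : E d) ∈ interior W) (Φ : Finset (E d))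
    (hΦ : ∀ f ∈ Φ, f ≠ 0 ∧ (1 / 2 : ℝ) • f ∈ interior W) :
    ∃ ρ μ₁ : ℝ, 0 < ρ ∧ 0 < μ₁ ∧ ∀ μ ≤ μ₁,
      Metric.closedBall (0 : E d) (2 * ρ) ⊆ slab W n (c - μ) + slab W n (c - μ) ∧
      ∀ f ∈ Φ, Metric.closedBall f (2 * ρ) ⊆ slab W n (c - μ) + slab W n (c - μ) ∧
        2 * ρ < ‖f‖ := by
  classical
  obtain ⟨ρ, μ₁, hρ, hμ₁, h⟩ := balls_slab hn hc hneg
    (insert 0 (Φ.image fun f => (1 / 2 : ℝ) • f)) (by
      intro p hp
      rcases Finset.mem_insert.1 hp with rfl | hp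
      · exact h0
      · obtain ⟨f, hf, rfl⟩ := Finset.mem_image.1 hp
        exact (hΦ f hf).2)
  have hm : ∃ m : ℝ, 0 < m ∧ ∀ f ∈ Φ, m ≤ ‖f‖ := by
    clear h
    induction Φ using Finset.induction_on with
    | empty => exact ⟨1, one_pos, fun f hf => by simp at hf⟩
    | insert q P hq ih =>
      obtain ⟨m, hm, h⟩ := ih fun f hf => hΦ f (Finset.mem_insert_of_mem hf)
      refine ⟨min m ‖q‖, lt_min hm (norm_pos_iff.2 (hΦ q (Finset.mem_insert_self _ _)).1), ?_⟩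
      intro f hf
      rcases Finset.mem_insert.1 hf with rfl | hf
      · exact min_le_right _ _
      · exact (min_le_left _ _).trans (h f hf)
  obtain ⟨m, hm, hmΦ⟩ := hm
  refine ⟨min ρ (m / 3), μ₁, lt_min hρ (by positivity), hμ₁, fun μ hμ => ⟨?_, fun f hf => ⟨?_, ?_⟩⟩⟩
  · apply ball_add
    rw [smul_zero]
    exact (Metric.closedBall_subset_closedBall (min_le_left _ _)).trans
      (h μ hμ 0 (Finset.mem_insert_self _ _))
  · apply ball_add
    exact (Metric.closedBall_subset_closedBall (min_le_left _ _)).trans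
      (h μ hμ _ (Finset.mem_insert_of_mem (Finset.mem_image_of_mem _ hf)))
  · have h1 := hmΦ f hf
    have h2 : min ρ (m / 3) ≤ m / 3 := min_le_right _ _
    linarith

theorem zero_mem_int {N : Finset (E d)} {a κ : E d} {r : ℝ} (h : Fine N a κ r) :
    (0 : E d) ∈ interior (convexHull ℝ (N : Set (E d))) :=
  h.ball (Metric.mem_closedBall_self (by have := h.hr; positivity))

theorem half_mem {N : Finset (E d)} {a κ : E d} {r : ℝ} (h : Fine N a κ r) {z : E d}
    (hz : ‖z‖ < 2 * r) : (1 / 2 : ℝ) • z ∈ interior (convexHull ℝ (N : Set (E d))) := by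
  apply h.ball
  rw [mem_closedBall_zero_iff, norm_smul, Real.norm_of_nonneg (by norm_num)]
  have := norm_nonneg z
  linarith

theorem half_kappa {N : Finset (E d)} {a κ : E d} {r : ℝ} (h : Fine N a κ r) :
    (1 / 2 : ℝ) • κ ∈ interior (convexHull ℝ (N : Set (E d))) := by
  have hκ : κ ∈ convexHull ℝ (N : Set (E d)) := subset_convexHull ℝ _ h.hκ
  have := (convex_convexHull ℝ (N : Set (E d))).combo_interior_self_mem_interior
    (zero_mem_int h) hκ (a := 1 / 2) (b := 1 / 2) (by norm_num) (by norm_num) (by norm_num)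
  simpa using this

theorem fp_ok {N : Finset (E d)} {a κ : E d} {r : ℝ} (h : Fine N a κ r) {n : E d}
    (hn : ∀ v ∈ N, v ≠ a → ⟪n, v⟫ < ⟪n, a⟫) {w : E d} (hw : w ∈ N ∨ w = 0) (hwκ : w ≠ -κ) :
    fp a κ r w ≠ 0 ∧
      (1 / 2 : ℝ) • fp a κ r w ∈ interior (convexHull ℝ (N : Set (E d))) := by
  have hc : 0 < ⟪n, a⟫ := inner_pos_of_top h.neg h.ha h.ne_zero.1 hn
  have hκn : ⟪n, κ⟫ < ⟪n, a⟫ := hn κ h.hκ h.hκa
  have hwn : ⟪n, w⟫ ≤ ⟪n, a⟫ := by
    rcases hw with hw | rfl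
    · by_cases hwa : w = a
      · rw [hwa]
      · exact (hn w hw hwa).le
    · rw [inner_zero_right]; exact hc.le
  unfold fp
  split_ifs with hcase
  · refine ⟨?_, ?_⟩
    · intro h0
      have h1 : ⟪n, κ + w - (2 : ℝ) • a⟫ = 0 := by rw [h0, inner_zero_right]
      rw [inner_sub_right, inner_add_right, real_inner_smul_right] at h1
      linarith
    · apply half_mem h
      have : κ + w - (2 : ℝ) • a = (κ - a) + (w - a) := by rw [two_smul]; abel
      rw [this]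
      have h1 := norm_add_le (κ - a) (w - a)
      have h2 := h.near
      linarith
  · refine ⟨?_, ?_⟩
    · intro h0
      apply hwκ
      rw [add_comm] at h0
      exact eq_neg_of_add_eq_zero_left h0
    · rcases hw with hw | rfl
      · exact (h.far w hw).resolve_left hcase
      · rw [add_zero]; exact half_kappa h

theorem fm_eq (a κ : E d) (r : ℝ) (w : E d) : fm a κ r w = fp a κ r (-w) := by
  have h1 : ‖-w - a‖ = ‖w + a‖ := by rw [← norm_neg]; congr 1; abel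
  unfold fm fp
  rw [h1]
  simp only [sub_eq_add_neg]

theorem fm_ok {N : Finset (E d)} {a κ : E d} {r : ℝ} (h : Fine N a κ r) {n : E d}
    (hn : ∀ v ∈ N, v ≠ a → ⟪n, v⟫ < ⟪n, a⟫) {w : E d} (hw : w ∈ N ∨ w = 0) (hwκ : w ≠ κ) :
    fm a κ r w ≠ 0 ∧
      (1 / 2 : ℝ) • fm a κ r w ∈ interior (convexHull ℝ (N : Set (E d))) := by
  rw [fm_eq]
  apply fp_ok h hn
  · rcases hw with hw | rfl
    · exact Or.inl (h.neg w hw)
    · exact Or.inr neg_zero
  · exact fun hh => hwκ (neg_injective hh)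

/-- A small shift of a frequency. -/
theorem okf_shift {S : Set (E d)} {f g : E d} {ρ : ℝ}
    (h1 : Metric.closedBall f (2 * ρ) ⊆ S + S) (h2 : 2 * ρ < ‖f‖) (hf : dist g f ≤ ρ) :
    okf S ρ g := by
  refine ⟨?_, ?_⟩
  · refine (Metric.closedBall_subset_closedBall' ?_).trans h1
    linarith
  · have h3 : ‖f‖ - ‖g‖ ≤ ‖f - g‖ := norm_sub_norm_le f g
    rw [dist_comm, dist_eq_norm] at hf
    linarith

end FreqAux

open FreqAux in
theorem freqs {N : Finset (E d)} {a κ : E d} {r : ℝ} (h : Fine N a κ r) {n : E d}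
    (hn : ∀ v ∈ N, v ≠ a → ⟪n, v⟫ < ⟪n, a⟫) (G : Finset (E d)) :
    ∃ ρ μ₁ : ℝ, 0 < ρ ∧ 0 < μ₁ ∧ ∀ μ, 0 < μ → μ ≤ μ₁ →
      Metric.closedBall 0 ρ ⊆ slab (convexHull ℝ (N : Set (E d))) n (⟪n, a⟫ - μ) +
        slab (convexHull ℝ (N : Set (E d))) n (⟪n, a⟫ - μ) ∧
      (∀ w, w ∈ N ∨ w = 0 → w ≠ κ →
        okf (slab (convexHull ℝ (N : Set (E d))) n (⟪n, a⟫ - μ)) ρ (fm a κ r w)) ∧
      (∀ w, w ∈ N ∨ w = 0 → w ≠ -κ →
        okf (slab (convexHull ℝ (N : Set (E d))) n (⟪n, a⟫ - μ)) ρ (fp a κ r w)) ∧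
      ∀ g ∈ G,
        okf (slab (convexHull ℝ (N : Set (E d))) n (⟪n, a⟫ - μ)) ρ (κ - (a + μ • g)) ∧
        okf (slab (convexHull ℝ (N : Set (E d))) n (⟪n, a⟫ - μ)) ρ (κ + (a + μ • g)) := by
  classical
  have hc0 : 0 < ⟪n, a⟫ := inner_pos_of_top h.neg h.ha h.ne_zero.1 hn
  have hn0 : n ≠ 0 := by
    rintro rfl
    rw [inner_zero_left] at hc0
    exact lt_irrefl _ hc0
  have hc : ∀ y ∈ convexHull ℝ (N : Set (E d)), ⟪n, y⟫ ≤ ⟪n, a⟫ := fun y hy =>
    inner_le_of_mem_hull (fun v hv => by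
      by_cases hva : v = a
      · rw [hva]
      · exact (hn v hv hva).le) hy
  have hneg : ∀ y ∈ convexHull ℝ (N : Set (E d)), -y ∈ convexHull ℝ (N : Set (E d)) :=
    fun y hy => neg_mem_hull h.neg hy
  have hr := h.hr
  set S₁ : Finset (E d) := (insert 0 N).filter (fun w => w ≠ κ) with hS₁
  set S₂ : Finset (E d) := (insert 0 N).filter (fun w => w ≠ -κ) with hS₂
  obtain ⟨ρ, μ₁, hρ, hμ₁, hmain⟩ := margin hn0 hc hneg (zero_mem_int h)
    (S₁.image (fm a κ r) ∪ S₂.image (fp a κ r) ∪ {κ - a, κ + a}) (by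
      intro f hf
      rcases Finset.mem_union.1 hf with hf | hf
      · rcases Finset.mem_union.1 hf with hf | hf
        · obtain ⟨w, hw, rfl⟩ := Finset.mem_image.1 hf
          rw [hS₁, Finset.mem_filter, Finset.mem_insert] at hw
          exact fm_ok h hn hw.1.symm hw.2
        · obtain ⟨w, hw, rfl⟩ := Finset.mem_image.1 hf
          rw [hS₂, Finset.mem_filter, Finset.mem_insert] at hw
          exact fp_ok h hn hw.1.symm hw.2
      · rcases Finset.mem_insert.1 hf with rfl | hf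
        · exact ⟨sub_ne_zero.2 h.hκa, half_mem h (by have := h.near; linarith)⟩
        · rw [Finset.mem_singleton] at hf
          subst hf
          exact ⟨fun h0 => h.ne_zero.2.2 (eq_neg_of_add_eq_zero_left h0), h.mid⟩)
  have hsum : ∀ g ∈ G, ‖g‖ ≤ ∑ g ∈ G, ‖g‖ := fun g hg =>
    Finset.single_le_sum (f := fun g : E d => ‖g‖) (fun _ _ => norm_nonneg _) hg
  have hsum0 : 0 ≤ ∑ g ∈ G, ‖g‖ := Finset.sum_nonneg fun _ _ => norm_nonneg _
  refine ⟨ρ, min μ₁ (ρ / (1 + ∑ g ∈ G, ‖g‖)), hρ, lt_min hμ₁ (by positivity), ?_⟩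
  intro μ hμ0 hμ
  obtain ⟨hb, hf⟩ := hmain μ (hμ.trans (min_le_left _ _))
  have hsmall : ∀ g ∈ G, μ * ‖g‖ ≤ ρ := by
    intro g hg
    have h1 : μ ≤ ρ / (1 + ∑ g ∈ G, ‖g‖) := hμ.trans (min_le_right _ _)
    rw [le_div_iff₀ (by positivity)] at h1
    have h2 := hsum g hg
    have h3 : μ * ‖g‖ ≤ μ * (1 + ∑ g ∈ G, ‖g‖) := by
      apply mul_le_mul_of_nonneg_left _ hμ0.le
      linarith
    linarith
  refine ⟨(Metric.closedBall_subset_closedBall (by linarith)).trans hb, ?_, ?_, ?_⟩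
  · intro w hw hwκ
    obtain ⟨h1, h2⟩ := hf (fm a κ r w) (Finset.mem_union_left _ (Finset.mem_union_left _
      (Finset.mem_image_of_mem _ (by
        rw [hS₁, Finset.mem_filter, Finset.mem_insert]
        exact ⟨hw.symm, hwκ⟩))))
    exact okf_shift h1 h2 (by rw [dist_self]; exact hρ.le)
  · intro w hw hwκ
    obtain ⟨h1, h2⟩ := hf (fp a κ r w) (Finset.mem_union_left _ (Finset.mem_union_right _
      (Finset.mem_image_of_mem _ (by
        rw [hS₂, Finset.mem_filter, Finset.mem_insert]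
        exact ⟨hw.symm, hwκ⟩))))
    exact okf_shift h1 h2 (by rw [dist_self]; exact hρ.le)
  · intro g hg
    have hg1 := hsmall g hg
    constructor
    · obtain ⟨h1, h2⟩ := hf (κ - a) (Finset.mem_union_right _ (Finset.mem_insert_self _ _))
      refine okf_shift h1 h2 ?_
      have : κ - (a + μ • g) - (κ - a) = -(μ • g) := by abel
      rw [dist_eq_norm, this, norm_neg, norm_smul, Real.norm_of_nonneg hμ0.le]
      exact hg1
    · obtain ⟨h1, h2⟩ := hf (κ + a) (Finset.mem_union_right _ (Finset.mem_insert_of_mem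
        (Finset.mem_singleton_self _)))
      refine okf_shift h1 h2 ?_
      have : κ + (a + μ • g) - (κ + a) = μ • g := by abel
      rw [dist_eq_norm, this, norm_smul, Real.norm_of_nonneg hμ0.le]
      exact hg1

/-- All frequencies of the perturbation are admissible. -/
theorem fq_ok {N : Finset (E d)} {a κ : E d} {r : ℝ} (h : Fine N a κ r)
    {T : Finset (Fin d → E d)} (hT : Tri N T) {n : E d}
    (hn : ∀ v ∈ N, v ≠ a → ⟪n, v⟫ < ⟪n, a⟫) :
    ∃ ρ μ₁ : ℝ, 0 < ρ ∧ 0 < μ₁ ∧ ∀ μ, 0 < μ → μ ≤ μ₁ →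
      Metric.closedBall 0 ρ ⊆ slab (convexHull ℝ (N : Set (E d))) n (⟪n, a⟫ - μ) +
        slab (convexHull ℝ (N : Set (E d))) n (⟪n, a⟫ - μ) ∧
      ∀ i ∈ ixs T a, ∀ b, kp n a κ μ i b ≠ 0 →
        okf (slab (convexHull ℝ (N : Set (E d))) n (⟪n, a⟫ - μ)) ρ (fq n a κ r μ i b) := by
  classical
  obtain ⟨ρ, μ₁, hρ, hμ₁, hmain⟩ := freqs h hn
    ((Ta T a ×ˢ (Finset.univ : Finset (Fin d))).image (fun p => gv n a p.1 p.2))
  refine ⟨ρ, μ₁, hρ, hμ₁, ?_⟩
  intro μ hμ0 hμ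
  obtain ⟨h0, hm, hp, hg⟩ := hmain μ hμ0 hμ
  refine ⟨h0, ?_⟩
  have key : ∀ i, top i = false → (wv n a μ i ∈ N ∨ wv n a μ i = 0) → ∀ b,
      kp n a κ μ i b ≠ 0 →
      okf (slab (convexHull ℝ (N : Set (E d))) n (⟪n, a⟫ - μ)) ρ (fq n a κ r μ i b) := by
    intro i hi hw b hb
    cases b with
    | false =>
      have hne : wv n a μ i ≠ κ := by
        intro he
        apply hb
        simp only [kp]
        rw [if_pos ⟨hi, he⟩]
      simp only [fq]
      rw [if_neg (by rw [hi]; exact Bool.false_ne_true)]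
      exact hm _ hw hne
    | true =>
      have hne : wv n a μ i ≠ -κ := by
        intro he
        apply hb
        simp only [kp]
        rw [if_pos ⟨hi, he⟩]
      simp only [fq]
      rw [if_neg (by rw [hi]; exact Bool.false_ne_true)]
      exact hp _ hw hne
  intro i hi b hb
  rcases i with ⟨F, o⟩ | ⟨F, o⟩
  · have hF : F ∈ T := by
      have := (Finset.inl_mem_disjSum.1 hi)
      exact (Finset.mem_product.1 this).1
    apply key _ rfl _ b hb
    cases o with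
    | none => right; rfl
    | some k =>
      left
      change (0 : E d) + F k ∈ N
      rw [zero_add]
      exact hT.mem F hF k
  · have hF : F ∈ Ta T a := by
      have := (Finset.inr_mem_disjSum.1 hi)
      exact (Finset.mem_product.1 this).1
    cases o with
    | none =>
      apply key _ rfl _ b hb
      left
      exact h.ha
    | some k =>
      have hgk := hg (gv n a F k) (Finset.mem_image.2 ⟨(F, k),
        Finset.mem_product.2 ⟨hF, Finset.mem_univ _⟩, rfl⟩)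
      cases b with
      | false => exact hgk.1
      | true => exact hgk.2

end Pool.Agent.MPbd65ca
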