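import Pool.Agent.Lib.MP_bd65ca_an.Gen.TriVert
import Pool.Agent.Lib.MP_bd65ca_an.Gen.Avoid

/-!
# TUR, module GenN: a generic direction with the top vertex `a`
-/

open MeasureTheory Pointwise Set Filter Topology
open scoped RealInnerProductSpace

namespace Pool.Agent.MPbd65ca

variable {d : ℕ}

namespace GenNAux

theorem isOpen_expose (N : Finset (E d)) (κ : E d) :
    IsOpen {n : E d | ∀ v ∈ N, v ≠ κ → ⟪n, v⟫ < ⟪n, κ⟫} := by
  have h : {n : E d | ∀ v ∈ N, v ≠ κ → ⟪n, v⟫ < ⟪n, κ⟫} =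
      ⋂ v ∈ N, {n : E d | v ≠ κ → ⟪n, v⟫ < ⟪n, κ⟫} := by
    ext n
    simp
  rw [h]
  refine isOpen_biInter_finset fun v _ => ?_
  by_cases hv : v = κ
  · have : {n : E d | v ≠ κ → ⟪n, v⟫ < ⟪n, κ⟫} = Set.univ := by
      ext n
      simp [hv]
    rw [this]
    exact isOpen_univ
  · have : {n : E d | v ≠ κ → ⟪n, v⟫ < ⟪n, κ⟫} = {n : E d | ⟪n, v⟫ < ⟪n, κ⟫} := by
      ext n
      simp [hv]
    rw [this]
    exact isOpen_lt (by fun_prop) (by fun_prop)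

theorem term_pos {F : Fin d → E d} (hF : LinearIndependent ℝ F) {N : Finset (E d)} {n κ : E d}
    (hmem : ∀ k, F k ∈ N) (hn : ∀ v ∈ N, v ≠ κ → ⟪n, v⟫ < ⟪n, κ⟫) (hpos : 0 < ⟪n, κ⟫)
    {k : Fin d} (hk : F k = κ) : 0 < cf F n (some k) := by
  have hinj := hF.injective
  unfold cf
  refine mul_pos (vdet_pos hF) (inv_pos.mpr (mul_pos (by rw [hk]; exact hpos) ?_))
  refine Finset.prod_pos fun l hl => ?_
  have hlk : l ≠ k := (Finset.mem_erase.mp hl).1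
  have hne : F l ≠ κ := by
    rw [← hk]
    exact fun h => hlk (hinj h)
  have := hn (F l) (hmem l) hne
  rw [hk]
  linarith

theorem term_neg {F : Fin d → E d} (hF : LinearIndependent ℝ F) {N : Finset (E d)} {n κ : E d}
    (hneg : ∀ v ∈ N, -v ∈ N)
    (hmem : ∀ k, F k ∈ N) (hn : ∀ v ∈ N, v ≠ κ → ⟪n, v⟫ < ⟪n, κ⟫) (hpos : 0 < ⟪n, κ⟫)
    {k : Fin d} (hk : F k = -κ) : 0 < (-1 : ℝ) ^ d * cf F n (some k) := by
  have hinj := hF.injective
  unfold cf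
  have hprod : ∏ l ∈ Finset.univ.erase k, (⟪n, F k⟫ - ⟪n, F l⟫) =
      (-1 : ℝ) ^ (d - 1) * ∏ l ∈ Finset.univ.erase k, (⟪n, κ⟫ + ⟪n, F l⟫) := by
    have : ∀ l ∈ Finset.univ.erase k, (⟪n, F k⟫ - ⟪n, F l⟫ : ℝ) =
        (-1) * (⟪n, κ⟫ + ⟪n, F l⟫) := by
      intro l _
      rw [hk, inner_neg_right]
      ring
    rw [Finset.prod_congr rfl this, Finset.prod_mul_distrib, Finset.prod_const,
      Finset.card_erase_of_mem (Finset.mem_univ k), Finset.card_univ, Fintype.card_fin]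
  have hpp : 0 < ∏ l ∈ Finset.univ.erase k, (⟪n, κ⟫ + ⟪n, F l⟫) := by
    refine Finset.prod_pos fun l hl => ?_
    have hlk : l ≠ k := (Finset.mem_erase.mp hl).1
    have hne : -F l ≠ κ := by
      intro h
      apply hlk
      apply hinj
      rw [hk, ← h, neg_neg]
    have := hn (-F l) (hneg _ (hmem l)) hne
    rw [inner_neg_right] at this
    linarith
  have hd : 0 < d := lt_of_le_of_lt (Nat.zero_le _) k.2
  have hd1 : (-1 : ℝ) ^ d = (-1) ^ (d - 1) * (-1) := by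
    rw [← pow_succ, Nat.sub_add_cancel hd]
  have hsq : ((-1 : ℝ) ^ (d - 1)) * ((-1 : ℝ) ^ (d - 1)) = 1 := by
    rw [← mul_pow]
    norm_num
  have hne0 : ((-1 : ℝ) ^ (d - 1)) ≠ 0 := pow_ne_zero _ (by norm_num)
  have : (-1 : ℝ) ^ d * (vdet F * (⟪n, F k⟫ * ∏ l ∈ Finset.univ.erase k,
      (⟪n, F k⟫ - ⟪n, F l⟫))⁻¹) =
      vdet F * (⟪n, κ⟫ * ∏ l ∈ Finset.univ.erase k, (⟪n, κ⟫ + ⟪n, F l⟫))⁻¹ := by
    rw [hprod, hk, inner_neg_right, hd1]
    rw [show -⟪n, κ⟫ * ((-1 : ℝ) ^ (d - 1) *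
      ∏ l ∈ Finset.univ.erase k, (⟪n, κ⟫ + ⟪n, F l⟫)) = ((-1 : ℝ) ^ (d - 1) * (-1)) *
      (⟪n, κ⟫ * ∏ l ∈ Finset.univ.erase k, (⟪n, κ⟫ + ⟪n, F l⟫)) by ring]
    rw [mul_inv ((-1 : ℝ) ^ (d - 1) * (-1))]
    have h1 : ((-1 : ℝ) ^ (d - 1) * (-1)) * ((-1 : ℝ) ^ (d - 1) * (-1))⁻¹ = 1 :=
      mul_inv_cancel₀ (mul_ne_zero hne0 (by norm_num))
    linear_combination (vdet F *
      (⟪n, κ⟫ * ∏ l ∈ Finset.univ.erase k, (⟪n, κ⟫ + ⟪n, F l⟫))⁻¹) * h1
  rw [this]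
  exact mul_pos (vdet_pos hF) (inv_pos.mpr (mul_pos hpos hpp))

end GenNAux

open GenNAux

theorem bet_pos {N : Finset (E d)} {a κ : E d} {r : ℝ} (h : Fine N a κ r)
    {T : Finset (Fin d → E d)} (hT : Tri N T) {n : E d}
    (hn : ∀ v ∈ N, v ≠ κ → ⟪n, v⟫ < ⟪n, κ⟫) : 0 < bet T κ n := by
  classical
  have hκ0 : κ ≠ 0 := h.ne_zero.2.1
  have hpos : 0 < ⟪n, κ⟫ := inner_pos_of_top h.neg h.hκ hκ0 hn
  obtain ⟨F₀, hF₀, k₀, hk₀⟩ := tri_mem h hT h.hκ hn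
  have hnn : ∀ F ∈ T, ∀ k, 0 ≤ ((if F k = κ then cf F n (some k) else 0) +
      (-1 : ℝ) ^ d * (if F k = -κ then cf F n (some k) else 0)) := by
    intro F hF k
    refine add_nonneg ?_ ?_
    · split_ifs with hk
      · exact (term_pos (hT.li F hF) (hT.mem F hF) hn hpos hk).le
      · exact le_refl _
    · split_ifs with hk
      · exact (term_neg (hT.li F hF) h.neg (hT.mem F hF) hn hpos hk).le
      · simp
  unfold bet
  refine lt_of_lt_of_le ?_ (Finset.single_le_sum (f := fun F => ∑ k,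
    ((if F k = κ then cf F n (some k) else 0) +
      (-1 : ℝ) ^ d * (if F k = -κ then cf F n (some k) else 0)))
    (fun F hF => Finset.sum_nonneg fun k _ => hnn F hF k) hF₀)
  refine lt_of_lt_of_le ?_ (Finset.single_le_sum (f := fun k =>
    ((if F₀ k = κ then cf F₀ n (some k) else 0) +
      (-1 : ℝ) ^ d * (if F₀ k = -κ then cf F₀ n (some k) else 0)))
    (fun k _ => hnn F₀ hF₀ k) (Finset.mem_univ k₀))
  have h1 : F₀ k₀ ≠ -κ := by
    rw [hk₀]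
    intro h2
    apply hκ0
    have h3 : (2 : ℝ) • κ = 0 := by
      rw [two_smul]
      nth_rewrite 2 [h2]
      simp
    simpa using h3
  simp only [hk₀, if_true]
  rw [hk₀] at h1
  rw [if_neg h1]
  have := term_pos (hT.li F₀ hF₀) (hT.mem F₀ hF₀) hn hpos hk₀
  linarith

/-- A rational function which does not vanish at `1` does not vanish at some small `t`. -/
theorem exists_small {ι : Type*} (s : Finset ι) (c : ι → ℝ) (P : ι → Polynomial ℝ)
    (h1 : ∀ i ∈ s, (P i).eval 1 ≠ 0) (h2 : ∑ i ∈ s, c i * ((P i).eval 1)⁻¹ ≠ 0) {ε : ℝ}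
    (hε : 0 < ε) : ∃ t : ℝ, 0 < t ∧ t < ε ∧ (∀ i ∈ s, (P i).eval t ≠ 0) ∧
      ∑ i ∈ s, c i * ((P i).eval t)⁻¹ ≠ 0 := by
  classical
  have key : ∀ t : ℝ, (∀ i ∈ s, (P i).eval t ≠ 0) →
      (∑ i ∈ s, Polynomial.C (c i) * ∏ j ∈ s.erase i, P j).eval t =
        (∑ i ∈ s, c i * ((P i).eval t)⁻¹) * (∏ j ∈ s, P j).eval t := by
    intro t ht
    rw [Polynomial.eval_finsetSum, Finset.sum_mul]
    refine Finset.sum_congr rfl fun i hi => ?_
    rw [Polynomial.eval_mul, Polynomial.eval_C, ← Finset.mul_prod_erase s P hi,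
      Polynomial.eval_mul]
    have := ht i hi
    field_simp
  set Q := ∑ i ∈ s, Polynomial.C (c i) * ∏ j ∈ s.erase i, P j with hQdef
  have hP1 : (∏ j ∈ s, P j).eval 1 ≠ 0 := by
    rw [Polynomial.eval_prod]
    exact Finset.prod_ne_zero_iff.mpr h1
  have hQ1 : (Q * ∏ j ∈ s, P j).eval 1 ≠ 0 := by
    rw [Polynomial.eval_mul, key 1 h1]
    exact mul_ne_zero (mul_ne_zero h2 hP1) hP1
  have hne : Q * ∏ j ∈ s, P j ≠ 0 := by
    intro h0
    rw [h0] at hQ1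
    simp at hQ1
  have hfin : {t | Polynomial.IsRoot (Q * ∏ j ∈ s, P j) t}.Finite :=
    Polynomial.finite_setOfPred_isRoot hne
  obtain ⟨t, ht, htn⟩ := (Set.Ioo_infinite hε).exists_notMem_finite hfin
  have hev : (Q * ∏ j ∈ s, P j).eval t ≠ 0 := htn
  rw [Polynomial.eval_mul] at hev
  have hPt : (∏ j ∈ s, P j).eval t ≠ 0 := right_ne_zero_of_mul hev
  have hQt : Q.eval t ≠ 0 := left_ne_zero_of_mul hev
  have hall : ∀ i ∈ s, (P i).eval t ≠ 0 := by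
    rw [Polynomial.eval_prod] at hPt
    exact Finset.prod_ne_zero_iff.mp hPt
  refine ⟨t, ht.1, ht.2, hall, ?_⟩
  rw [key t hall] at hQt
  exact left_ne_zero_of_mul hQt

theorem exists_n {N : Finset (E d)} {a κ : E d} {r : ℝ} (h : Fine N a κ r)
    {T : Finset (Fin d → E d)} (hT : Tri N T) : ∃ n : E d,
      (∀ v ∈ N, v ≠ a → ⟪n, v⟫ < ⟪n, a⟫) ∧ (∀ F ∈ T, good F n) ∧ bet T κ n ≠ 0 := by
  classical
  obtain ⟨na, hna⟩ := h.expa
  obtain ⟨nκ, hnκ⟩ := h.expκ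
  -- a good direction exposing `κ`
  obtain ⟨ε, hε, hball⟩ := Metric.isOpen_iff.mp (isOpen_expose N κ) nκ hnκ
  have hw : ∀ i ∈ T ×ˢ (Finset.univ : Finset (Fin d × Fin d)),
      (if i.2.1 = i.2.2 then i.1 i.2.1 else i.1 i.2.1 - i.1 i.2.2) ≠ 0 := by
    intro i hi
    have hF := (Finset.mem_product.mp hi).1
    have hli := hT.li _ hF
    split_ifs with hkl
    · exact hli.ne_zero _
    · exact sub_ne_zero.mpr fun h => hkl (hli.injective h)
  obtain ⟨m, hm, hmw⟩ := exists_avoid (T ×ˢ (Finset.univ : Finset (Fin d × Fin d)))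
    (fun i => if i.2.1 = i.2.2 then i.1 i.2.1 else i.1 i.2.1 - i.1 i.2.2) hw nκ hε
  have hmκ : ∀ v ∈ N, v ≠ κ → ⟪m, v⟫ < ⟪m, κ⟫ := by
    apply hball
    rw [Metric.mem_ball, dist_eq_norm]
    exact hm
  have hbet := bet_pos h hT hmκ
  -- the polynomials
  let L : E d → Polynomial ℝ := fun w =>
    Polynomial.C ⟪na, w⟫ + Polynomial.X * Polynomial.C ⟪m - na, w⟫
  let nt : ℝ → E d := fun t => na + t • (m - na)
  have hL : ∀ w t, (L w).eval t = ⟪nt t, w⟫ := by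
    intro w t
    simp only [L, nt, Polynomial.eval_add, Polynomial.eval_mul, Polynomial.eval_C,
      Polynomial.eval_X, inner_add_left, real_inner_smul_left]
  let P : (Fin d → E d) × Fin d → Polynomial ℝ := fun i =>
    L (i.1 i.2) * ∏ l ∈ Finset.univ.erase i.2, (L (i.1 i.2) - L (i.1 l))
  have hP : ∀ i t, (P i).eval t = ⟪nt t, i.1 i.2⟫ *
      ∏ l ∈ Finset.univ.erase i.2, (⟪nt t, i.1 i.2⟫ - ⟪nt t, i.1 l⟫) := by
    intro i t
    simp only [P, Polynomial.eval_mul, Polynomial.eval_prod, Polynomial.eval_sub, hL]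
  let c : (Fin d → E d) × Fin d → ℝ := fun i =>
    vdet i.1 * ((if i.1 i.2 = κ then 1 else 0) + (-1) ^ d * (if i.1 i.2 = -κ then 1 else 0))
  have hb : ∀ t, bet T κ (nt t) =
      ∑ i ∈ T ×ˢ (Finset.univ : Finset (Fin d)), c i * ((P i).eval t)⁻¹ := by
    intro t
    rw [Finset.sum_product]
    unfold bet
    refine Finset.sum_congr rfl fun F _ => Finset.sum_congr rfl fun k _ => ?_
    rw [hP]
    simp only [c, cf]
    split_ifs <;> ring
  have hnt1 : nt 1 = m := by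
    simp [nt]
  have hgm : ∀ i ∈ T ×ˢ (Finset.univ : Finset (Fin d)), (P i).eval 1 ≠ 0 := by
    intro i hi
    have hF := (Finset.mem_product.mp hi).1
    rw [hP, hnt1]
    refine mul_ne_zero ?_ (Finset.prod_ne_zero_iff.mpr fun l hl => ?_)
    · have := hmw (i.1, i.2, i.2) (Finset.mem_product.mpr ⟨hF, Finset.mem_univ _⟩)
      simpa using this
    · have hlk : i.2 ≠ l := ((Finset.mem_erase.mp hl).1).symm
      have := hmw (i.1, i.2, l) (Finset.mem_product.mpr ⟨hF, Finset.mem_univ _⟩)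
      simp only [if_neg hlk, inner_sub_right] at this
      exact this
  have hsum1 : ∑ i ∈ T ×ˢ (Finset.univ : Finset (Fin d)), c i * ((P i).eval 1)⁻¹ ≠ 0 := by
    rw [← hb 1, hnt1]
    exact hbet.ne'
  -- small `t`
  have hcont : Continuous nt := by
    simp only [nt]
    fun_prop
  have hopen : IsOpen (nt ⁻¹' {n : E d | ∀ v ∈ N, v ≠ a → ⟪n, v⟫ < ⟪n, a⟫}) :=
    (isOpen_expose N a).preimage hcont
  have h0mem : (0 : ℝ) ∈ nt ⁻¹' {n : E d | ∀ v ∈ N, v ≠ a → ⟪n, v⟫ < ⟪n, a⟫} := by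
    have : nt 0 = na := by simp [nt]
    rw [Set.mem_preimage, this]
    exact hna
  obtain ⟨δ, hδ, hδb⟩ := Metric.isOpen_iff.mp hopen 0 h0mem
  obtain ⟨t, ht0, htδ, htP, hts⟩ := exists_small _ c P hgm hsum1 hδ
  refine ⟨nt t, ?_, ?_, ?_⟩
  · have : t ∈ Metric.ball (0 : ℝ) δ := by
      rw [Metric.mem_ball, dist_zero_right, Real.norm_eq_abs, abs_of_pos ht0]
      exact htδ
    exact hδb this
  · intro F hF
    have hne : ∀ k, ⟪nt t, F k⟫ *
        ∏ l ∈ Finset.univ.erase k, (⟪nt t, F k⟫ - ⟪nt t, F l⟫) ≠ 0 := by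
      intro k
      have := htP (F, k) (Finset.mem_product.mpr ⟨hF, Finset.mem_univ _⟩)
      rw [hP] at this
      exact this
    refine ⟨fun k => left_ne_zero_of_mul (hne k), fun k l hkl heq => ?_⟩
    have h3 := Finset.prod_ne_zero_iff.mp (right_ne_zero_of_mul (hne k)) l
      (Finset.mem_erase.mpr ⟨hkl.symm, Finset.mem_univ _⟩)
    exact h3 (sub_eq_zero.mpr heq)
  · rw [hb t]
    exact hts

end Pool.Agent.MPbd65ca
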