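import Pool.Agent.Lib.MP_bd65ca_an.Gen.Basic

/-!
# TUR, module Limit1: the choice of the direction `n + τ n'`
-/

open MeasureTheory Pointwise Set Filter Topology
open scoped RealInnerProductSpace

namespace Pool.Agent.MPbd65ca

variable {d : ℕ}

namespace Limit1Aux

theorem inner_path (n n' g : E d) (τ : ℝ) : ⟪n + τ • n', g⟫ = ⟪n, g⟫ + τ * ⟪n', g⟫ := by
  rw [inner_add_left, real_inner_smul_left]

theorem tendsto_path (n n' : E d) : Tendsto (fun τ : ℝ => n + τ • n') (𝓝[>] 0) (𝓝 n) := by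
  have h1 : Continuous (fun τ : ℝ => n + τ • n') := by fun_prop
  have h2 := h1.tendsto 0
  rw [zero_smul, add_zero] at h2
  exact h2.mono_left nhdsWithin_le_nhds

/-- the coefficient of a new vertex -/
theorem cf_some {n n' : E d} {u : Fin d → E d} (hg : ∀ k, ⟪n, u k⟫ = -1) (τ : ℝ) (k : Fin d) :
    cf u (n + τ • n') (some k) = (τ ^ (d - 1))⁻¹ *
      (vdet u * (∏ l ∈ Finset.univ.erase k, (⟪n', u k⟫ - ⟪n', u l⟫))⁻¹ *
        (-1 + τ * ⟪n', u k⟫)⁻¹) := by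
  have h1 : ∀ l, ⟪n + τ • n', u l⟫ = -1 + τ * ⟪n', u l⟫ := fun l => by
    rw [inner_path, hg]
  have h2 : ∏ l ∈ Finset.univ.erase k, (⟪n + τ • n', u k⟫ - ⟪n + τ • n', u l⟫) =
      τ ^ (d - 1) * ∏ l ∈ Finset.univ.erase k, (⟪n', u k⟫ - ⟪n', u l⟫) := by
    have h3 : ∀ l ∈ Finset.univ.erase k, (⟪n + τ • n', u k⟫ - ⟪n + τ • n', u l⟫) =
        τ * (⟪n', u k⟫ - ⟪n', u l⟫) := fun l _ => by
      rw [h1, h1]
      ring
    rw [Finset.prod_congr rfl h3, Finset.prod_mul_distrib, Finset.prod_const,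
      Finset.card_erase_of_mem (Finset.mem_univ k), Finset.card_univ, Fintype.card_fin]
  unfold cf
  simp only
  rw [h2, h1 k, mul_inv, mul_inv]
  ring

/-- the remaining sum -/
noncomputable def S (T : Finset (Fin d → E d)) (n a n' : E d) (c τ : ℝ) : ℂ :=
  ∑ F ∈ Ta T a, ∑ k, ((vdet (gv n a F) * (∏ l ∈ Finset.univ.erase k,
        (⟪n', gv n a F k⟫ - ⟪n', gv n a F l⟫))⁻¹ * (-1 + τ * ⟪n', gv n a F k⟫)⁻¹ : ℝ) : ℂ) *
          Complex.exp ((2 * Real.pi * (c * ⟪n', gv n a F k⟫) : ℝ) * Complex.I)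

theorem topZ_eq {T : Finset (Fin d → E d)} {n a n' : E d} {c τ : ℝ} (hτ : τ ≠ 0)
    (hg : ∀ F ∈ Ta T a, ∀ k, ⟪n, gv n a F k⟫ = -1) :
    topZ T n a (n + τ • n') (c / τ) =
      (((τ ^ (d - 1))⁻¹ : ℝ) : ℂ) * Complex.exp ((2 * Real.pi * (-(c / τ)) : ℝ) * Complex.I) *
        S T n a n' c τ := by
  unfold topZ S
  rw [Finset.mul_sum]
  refine Finset.sum_congr rfl fun F hF => ?_
  rw [Finset.mul_sum]
  refine Finset.sum_congr rfl fun k _ => ?_
  rw [cf_some (hg F hF) τ k, inner_path, hg F hF k]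
  have h1 : (2 * Real.pi * (c / τ * (-1 + τ * ⟪n', gv n a F k⟫)) : ℝ) =
      2 * Real.pi * (-(c / τ)) + 2 * Real.pi * (c * ⟪n', gv n a F k⟫) := by
    field_simp
  rw [h1, Complex.ofReal_add, add_mul, Complex.exp_add, Complex.ofReal_mul]
  ring

theorem norm_topZ {T : Finset (Fin d → E d)} {n a n' : E d} {c τ : ℝ} (hτ : 0 < τ)
    (hg : ∀ F ∈ Ta T a, ∀ k, ⟪n, gv n a F k⟫ = -1) :
    ‖topZ T n a (n + τ • n') (c / τ)‖ = (τ⁻¹) ^ (d - 1) * ‖S T n a n' c τ‖ := by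
  rw [topZ_eq hτ.ne' hg, norm_mul, norm_mul, Complex.norm_exp_ofReal_mul_I, mul_one,
    Complex.norm_real, Real.norm_eq_abs, abs_of_pos (inv_pos.2 (pow_pos hτ _)), inv_pow]

theorem tendsto_S (T : Finset (Fin d → E d)) (n a n' : E d) (c : ℝ) :
    Tendsto (fun τ : ℝ => S T n a n' c τ) (𝓝[>] 0) (𝓝 (-∑ F ∈ Ta T a, ∑ k,
      ((vdet (gv n a F) * (∏ l ∈ Finset.univ.erase k,
        (⟪n', gv n a F k⟫ - ⟪n', gv n a F l⟫))⁻¹ : ℝ) : ℂ) *
          Complex.exp ((2 * Real.pi * (c * ⟪n', gv n a F k⟫) : ℝ) * Complex.I))) := by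
  unfold S
  rw [← Finset.sum_neg_distrib]
  refine tendsto_finsetSum _ fun F _ => ?_
  rw [← Finset.sum_neg_distrib]
  refine tendsto_finsetSum _ fun k _ => ?_
  rw [← neg_mul]
  refine Tendsto.mul ?_ tendsto_const_nhds
  rw [← Complex.ofReal_neg]
  refine (Complex.continuous_ofReal.tendsto _).comp ?_
  have h1 : Tendsto (fun τ : ℝ => (-1 + τ * ⟪n', gv n a F k⟫)⁻¹) (𝓝[>] 0) (𝓝 (-1)) := by
    have h2 : Continuous (fun τ : ℝ => -1 + τ * ⟪n', gv n a F k⟫) := by fun_prop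
    have h3 := h2.tendsto 0
    rw [zero_mul, add_zero] at h3
    have h4 := (h3.inv₀ (by norm_num : (-1 : ℝ) ≠ 0)).mono_left
      (nhdsWithin_le_nhds (s := Ioi (0 : ℝ)))
    have h5 : ((-1 : ℝ))⁻¹ = -1 := by norm_num
    rw [h5] at h4
    exact h4
  have h6 := Tendsto.mul (tendsto_const_nhds (x := vdet (gv n a F) *
    (∏ l ∈ Finset.univ.erase k, (⟪n', gv n a F k⟫ - ⟪n', gv n a F l⟫))⁻¹)
    (f := 𝓝[>] (0 : ℝ))) h1
  rw [mul_neg_one] at h6
  exact h6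

theorem tendsto_bet {T : Finset (Fin d → E d)} {n κ : E d} (hgood : ∀ F ∈ T, good F n) :
    ContinuousAt (fun x => bet T κ x) n := by
  classical
  unfold bet
  refine tendsto_finsetSum _ fun F hF => ?_
  refine tendsto_finsetSum _ fun k _ => ?_
  have h1 : ∀ v : E d, Tendsto (fun x => if F k = v then cf F x (some k) else 0) (𝓝 n)
      (𝓝 (if F k = v then cf F n (some k) else 0)) := by
    intro v
    by_cases hv : F k = v
    · simp only [hv, if_true]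
      exact continuousAt_cf (hgood F hF) (some k)
    · simp only [hv, if_false]
      exact tendsto_const_nhds
  exact (h1 κ).add ((h1 (-κ)).const_mul _)

theorem tendsto_low {T : Finset (Fin d → E d)} {n a : E d}
    (hg : ∀ F ∈ Ta T a, ∀ k, ⟪n, gv n a F k⟫ = -1) (hgood : ∀ F ∈ T, good F n) :
    ContinuousAt (fun x => ∑ i ∈ ixs T a with top i = false, |cc n a x i|) n := by
  classical
  refine tendsto_finsetSum _ fun i hi => ?_
  rw [Finset.mem_filter] at hi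
  obtain ⟨hi1, hi2⟩ := hi
  refine Tendsto.abs ?_
  unfold ixs at hi1
  rcases i with p | p
  · rw [Finset.inl_mem_disjSum, Finset.mem_product] at hi1
    exact continuousAt_cf (hgood p.1 hi1.1) p.2
  · rw [Finset.inr_mem_disjSum, Finset.mem_product] at hi1
    obtain ⟨F, o⟩ := p
    cases o with
    | none =>
      refine Tendsto.const_mul _ ?_
      exact continuousAt_cf_none (fun k => by rw [hg F hi1.1 k]; norm_num)
    | some k => simp [top] at hi2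

end Limit1Aux

open Limit1Aux

/-- The coefficients of the new vertices are large for small `τ`. -/
theorem topZ_tendsto (hd : 2 ≤ d) {T : Finset (Fin d → E d)} {n a n' : E d} {c : ℝ}
    (hg : ∀ F ∈ Ta T a, ∀ k, ⟪n, gv n a F k⟫ = -1)
    (hne : ∑ F ∈ Ta T a, ∑ k, ((vdet (gv n a F) * (∏ l ∈ Finset.univ.erase k,
        (⟪n', gv n a F k⟫ - ⟪n', gv n a F l⟫))⁻¹ : ℝ) : ℂ) *
          Complex.exp ((2 * Real.pi * (c * ⟪n', gv n a F k⟫) : ℝ) * Complex.I) ≠ 0) :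
    Tendsto (fun τ : ℝ => ‖topZ T n a (n + τ • n') (c / τ)‖) (𝓝[>] 0) atTop := by
  have h1 : Tendsto (fun τ : ℝ => (τ⁻¹) ^ (d - 1) * ‖S T n a n' c τ‖) (𝓝[>] 0) atTop := by
    have h2 := (tendsto_S T n a n' c).norm
    refine Tendsto.atTop_mul_pos ?_ ?_ h2
    · rw [norm_neg]
      exact norm_pos_iff.2 hne
    · exact (tendsto_pow_atTop (by omega)).comp tendsto_inv_nhdsGT_zero
  refine h1.congr' ?_
  filter_upwards [self_mem_nhdsWithin] with τ hτ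
  exact (norm_topZ hτ hg).symm

theorem limit1 (hd : 2 ≤ d) {T : Finset (Fin d → E d)} {n a κ n' : E d} {c : ℝ}
    (hg : ∀ F ∈ Ta T a, ∀ k, ⟪n, gv n a F k⟫ = -1) (hgood : ∀ F ∈ T, good F n)
    (hbet : bet T κ n ≠ 0)
    (hsep : ∀ F ∈ Ta T a, ∀ k l, k ≠ l → ⟪n', gv n a F k⟫ ≠ ⟪n', gv n a F l⟫)
    (hne : ∑ F ∈ Ta T a, ∑ k, ((vdet (gv n a F) * (∏ l ∈ Finset.univ.erase k,
        (⟪n', gv n a F k⟫ - ⟪n', gv n a F l⟫))⁻¹ : ℝ) : ℂ) *
          Complex.exp ((2 * Real.pi * (c * ⟪n', gv n a F k⟫) : ℝ) * Complex.I) ≠ 0) :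
    ∃ B Y sg : ℝ, 0 < B ∧ 0 ≤ Y ∧ (sg = 1 ∨ sg = -1) ∧ ∀ z₀ : ℝ, ∃ τ : ℝ, 0 < τ ∧
      (∀ F ∈ T, good F (n + τ • n')) ∧ (∀ F ∈ Ta T a, good (gv n a F) (n + τ • n')) ∧
      B ≤ sg * bet T κ (n + τ • n') ∧
      ∑ i ∈ ixs T a with top i = false, |cc n a (n + τ • n') i| ≤ Y ∧
      z₀ ≤ ‖topZ T n a (n + τ • n') (c / τ)‖ := by
  classical
  have hpath := tendsto_path n n'
  obtain ⟨sg, hsg, hsgb⟩ : ∃ sg : ℝ, (sg = 1 ∨ sg = -1) ∧ sg * bet T κ n = |bet T κ n| := by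
    rcases lt_or_gt_of_ne hbet with h | h
    · exact ⟨-1, Or.inr rfl, by rw [abs_of_neg h]; ring⟩
    · exact ⟨1, Or.inl rfl, by rw [abs_of_pos h]; ring⟩
  have hpos : 0 < |bet T κ n| := abs_pos.2 hbet
  refine ⟨|bet T κ n| / 2, ∑ i ∈ ixs T a with top i = false, |cc n a n i| + 1, sg, by positivity,
    ?_, hsg, ?_⟩
  · have : 0 ≤ ∑ i ∈ ixs T a with top i = false, |cc n a n i| :=
      Finset.sum_nonneg fun _ _ => abs_nonneg _
    linarith
  intro z₀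
  have e1 : ∀ᶠ τ in 𝓝[>] (0 : ℝ), ∀ F ∈ T, good F (n + τ • n') := by
    rw [Filter.eventually_all_finset]
    intro F hF
    exact hpath ((isOpen_good F).mem_nhds (hgood F hF))
  have e2 : ∀ᶠ τ in 𝓝[>] (0 : ℝ), ∀ F ∈ Ta T a, good (gv n a F) (n + τ • n') := by
    rw [Filter.eventually_all_finset]
    intro F hF
    have h1 : ∀ᶠ τ in 𝓝[>] (0 : ℝ), ∀ k, ⟪n + τ • n', gv n a F k⟫ ≠ 0 := by
      rw [Filter.eventually_all]
      intro k
      have h2 : Tendsto (fun τ : ℝ => ⟪n + τ • n', gv n a F k⟫) (𝓝[>] 0)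
          (𝓝 ⟪n, gv n a F k⟫) := hpath.inner tendsto_const_nhds
      refine h2.eventually_ne ?_
      rw [hg F hF k]
      norm_num
    filter_upwards [h1, self_mem_nhdsWithin] with τ h2 hτ
    refine ⟨h2, fun k l hkl heq => hsep F hF k l hkl ?_⟩
    rw [inner_path, inner_path, hg F hF k, hg F hF l] at heq
    have h3 : τ * ⟪n', gv n a F k⟫ = τ * ⟪n', gv n a F l⟫ := by linarith
    exact mul_left_cancel₀ (ne_of_gt hτ) h3
  have e3 : ∀ᶠ τ in 𝓝[>] (0 : ℝ), |bet T κ n| / 2 < sg * bet T κ (n + τ • n') := by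
    have h1 : Tendsto (fun τ : ℝ => sg * bet T κ (n + τ • n')) (𝓝[>] 0)
        (𝓝 (sg * bet T κ n)) := ((tendsto_bet (κ := κ) hgood).tendsto.comp hpath).const_mul sg
    rw [hsgb] at h1
    exact h1.eventually_const_lt (by linarith)
  have e4 : ∀ᶠ τ in 𝓝[>] (0 : ℝ), ∑ i ∈ ixs T a with top i = false,
      |cc n a (n + τ • n') i| < ∑ i ∈ ixs T a with top i = false, |cc n a n i| + 1 := by
    have h1 := (tendsto_low hg hgood).tendsto.comp hpath
    exact h1.eventually_lt_const (lt_add_one _)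
  have e5 := (topZ_tendsto hd hg hne).eventually_ge_atTop z₀
  obtain ⟨τ, h1, h2, h3, h4, h5, h6⟩ :=
    (e1.and (e2.and (e3.and (e4.and (e5.and self_mem_nhdsWithin))))).exists
  exact ⟨τ, h6, h1, h2, h3.le, h4.le, h5⟩

end Pool.Agent.MPbd65ca
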