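import Pool.Agent.Lib.MP_bd65ca_an.Gen.Basic

/-!
# TUR, module Limit2: the behaviour near a far point `D x₁`
-/

open MeasureTheory Pointwise Set Filter Topology
open scoped RealInnerProductSpace

namespace Pool.Agent.MPbd65ca

variable {d : ℕ}

namespace Limit2Aux

theorem cc_smul (n a : E d) {D : ℝ} (hD : D ≠ 0) (y : E d) (i : Ix d) :
    D ^ d * cc n a (D • y) i = cc n a y i := by
  have hDd : D ^ d ≠ 0 := pow_ne_zero _ hD
  rcases i with ⟨F, o⟩ | ⟨F, o⟩
  · show D ^ d * cf F (D • y) o = cf F y o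
    rw [cf_smul_right F hD y o, ← mul_assoc, mul_inv_cancel₀ hDd, one_mul]
  · show D ^ d * (-2 * cf (gv n a F) (D • y) o) = -2 * cf (gv n a F) y o
    rw [cf_smul_right _ hD y o]
    field_simp

theorem continuousAt_cc {T : Finset (Fin d → E d)} {n a x₁ : E d} (h1 : ∀ F ∈ T, good F x₁)
    (h2 : ∀ F ∈ Ta T a, good (gv n a F) x₁) {i : Ix d} (hi : i ∈ ixs T a) :
    ContinuousAt (fun y => cc n a y i) x₁ := by
  unfold ixs at hi
  rcases i with ⟨F, o⟩ | ⟨F, o⟩
  · have hF : F ∈ T := by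
      have := Finset.inl_mem_disjSum.1 hi
      exact (Finset.mem_product.1 this).1
    exact continuousAt_cf (h1 F hF) o
  · have hF : F ∈ Ta T a := by
      have := Finset.inr_mem_disjSum.1 hi
      exact (Finset.mem_product.1 this).1
    exact (continuousAt_cf (h2 F hF) o).const_mul (-2)

/-- The angles of the new vertices. -/
theorem ph_top (n a x : E d) (μ : ℝ) (F : Fin d → E d) (k : Fin d) :
    ph x (wv n a μ (.inr (F, some k))) = ph x a + 2 * Real.pi * (μ * ⟪x, gv n a F k⟫) := by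
  show ph x (a + μ • gv n a F k) = _
  unfold ph
  rw [inner_add_right, inner_smul_right]
  ring

/-- The sum of the terms of the new vertices. -/
theorem sum_top (T : Finset (Fin d → E d)) (a : E d) (f : Ix d → ℝ) :
    ∑ i ∈ ixs T a with top i = true, f i =
      ∑ F ∈ Ta T a, ∑ k, f (.inr (F, some k)) := by
  rw [Finset.sum_filter]
  unfold ixs
  rw [Finset.sum_disjSum, Finset.sum_product, Finset.sum_product]
  have hz : ∑ F ∈ T, ∑ o : Option (Fin d),
      (if top (Sum.inl (F, o) : Ix d) = true then f (Sum.inl (F, o)) else 0) = 0 := by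
    refine Finset.sum_eq_zero fun F _ => Finset.sum_eq_zero fun o _ => ?_
    simp [top]
  rw [hz, zero_add]
  refine Finset.sum_congr rfl fun F _ => ?_
  rw [Fintype.sum_option]
  simp [top]

/-- The sum `Z` with the angles at `x`. -/
noncomputable def zx (T : Finset (Fin d → E d)) (n a x₁ x : E d) (μ : ℝ) : ℂ :=
  ∑ F ∈ Ta T a, ∑ k, (cf (gv n a F) x₁ (some k) : ℂ) *
    Complex.exp ((2 * Real.pi * (μ * ⟪x, gv n a F k⟫) : ℝ) * Complex.I)

theorem re_mul_exp (α θ c : ℝ) :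
    (Complex.exp ((α : ℂ) * Complex.I) * ((c : ℂ) * Complex.exp ((θ : ℂ) * Complex.I))).re =
      c * Real.cos (α + θ) := by
  have h : Complex.exp ((α : ℂ) * Complex.I) * ((c : ℂ) * Complex.exp ((θ : ℂ) * Complex.I)) =
      (c : ℂ) * Complex.exp (((α + θ : ℝ) : ℂ) * Complex.I) := by
    rw [mul_left_comm, ← Complex.exp_add]
    congr 2
    push_cast
    ring
  rw [h, Complex.re_ofReal_mul, Complex.exp_ofReal_mul_I_re]

theorem top_eq (T : Finset (Fin d → E d)) (n a x₁ x : E d) (μ : ℝ) :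
    ∑ i ∈ ixs T a with top i = true, cc n a x₁ i * Real.cos (ph x (wv n a μ i)) =
      -2 * (Complex.exp ((ph x a : ℝ) * Complex.I) * zx T n a x₁ x μ).re := by
  rw [sum_top T a (fun i => cc n a x₁ i * Real.cos (ph x (wv n a μ i)))]
  unfold zx
  rw [Finset.mul_sum, Complex.re_sum, Finset.mul_sum]
  refine Finset.sum_congr rfl fun F _ => ?_
  rw [Finset.mul_sum, Complex.re_sum, Finset.mul_sum]
  refine Finset.sum_congr rfl fun k _ => ?_
  rw [re_mul_exp, ph_top]
  show -2 * cf (gv n a F) x₁ (some k) * _ = _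
  ring

theorem norm_exp_sub (s t : ℝ) :
    ‖Complex.exp ((s : ℂ) * Complex.I) - Complex.exp ((t : ℂ) * Complex.I)‖ ≤ |s - t| := by
  have h : Complex.exp ((s : ℂ) * Complex.I) - Complex.exp ((t : ℂ) * Complex.I) =
      Complex.exp ((t : ℂ) * Complex.I) *
        (Complex.exp (Complex.I * ((s - t : ℝ) : ℂ)) - 1) := by
    rw [mul_sub, mul_one, ← Complex.exp_add]
    congr 2
    push_cast
    ring
  rw [h, norm_mul, Complex.norm_exp_ofReal_mul_I, one_mul]
  have := Real.norm_exp_I_mul_ofReal_sub_one_le (x := s - t)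
  simpa [Real.norm_eq_abs] using this

/-- The bound of the coefficients. -/
noncomputable def bnd (T : Finset (Fin d → E d)) (n a x₁ : E d) : ℝ :=
  ∑ F ∈ Ta T a, ∑ k, |cf (gv n a F) x₁ (some k)| * ‖gv n a F k‖

theorem bnd_nonneg (T : Finset (Fin d → E d)) (n a x₁ : E d) : 0 ≤ bnd T n a x₁ :=
  Finset.sum_nonneg fun _ _ => Finset.sum_nonneg fun _ _ =>
    mul_nonneg (abs_nonneg _) (norm_nonneg _)

theorem zx_sub (T : Finset (Fin d → E d)) (n a x₁ x : E d) (m : ℝ) {R D : ℝ} (hD : 0 < D)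
    (hx : ‖x - D • x₁‖ ≤ R) :
    ‖topZ T n a x₁ m - zx T n a x₁ x (m / D)‖ ≤ 2 * Real.pi * |m| * R * bnd T n a x₁ / D := by
  have hR : 0 ≤ R := (norm_nonneg _).trans hx
  unfold topZ zx bnd
  rw [← Finset.sum_sub_distrib, Finset.mul_sum, Finset.sum_div]
  refine (norm_sum_le _ _).trans (Finset.sum_le_sum fun F _ => ?_)
  rw [← Finset.sum_sub_distrib, Finset.mul_sum, Finset.sum_div]
  refine (norm_sum_le _ _).trans (Finset.sum_le_sum fun k _ => ?_)
  rw [← mul_sub, norm_mul, Complex.norm_real, Real.norm_eq_abs]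
  have h1 := norm_exp_sub (2 * Real.pi * (m * ⟪x₁, gv n a F k⟫))
    (2 * Real.pi * (m / D * ⟪x, gv n a F k⟫))
  have h2 : 2 * Real.pi * (m * ⟪x₁, gv n a F k⟫) - 2 * Real.pi * (m / D * ⟪x, gv n a F k⟫) =
      -(2 * Real.pi * m / D * ⟪x - D • x₁, gv n a F k⟫) := by
    rw [inner_sub_left, real_inner_smul_left]
    field_simp
    ring
  have h3 : |⟪x - D • x₁, gv n a F k⟫| ≤ R * ‖gv n a F k‖ :=
    (abs_real_inner_le_norm _ _).trans (mul_le_mul_of_nonneg_right hx (norm_nonneg _))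
  have h4 : |2 * Real.pi * (m * ⟪x₁, gv n a F k⟫) - 2 * Real.pi * (m / D * ⟪x, gv n a F k⟫)| ≤
      2 * Real.pi * |m| / D * (R * ‖gv n a F k‖) := by
    rw [h2, abs_neg, abs_mul, abs_div, abs_mul, abs_mul, abs_of_pos hD,
      abs_of_pos Real.pi_pos, abs_of_pos (by norm_num : (0 : ℝ) < 2)]
    exact mul_le_mul_of_nonneg_left h3 (by positivity)
  calc |cf (gv n a F) x₁ (some k)| * _ ≤
      |cf (gv n a F) x₁ (some k)| * (2 * Real.pi * |m| / D * (R * ‖gv n a F k‖)) :=
        mul_le_mul_of_nonneg_left (h1.trans h4) (abs_nonneg _)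
    _ = _ := by ring

/-- The main term. -/
theorem abs_sin_eq (Z : ℂ) (α : ℝ) :
    ‖Z‖ * |Real.sin (α + Z.arg - Real.pi / 2)| =
      |(Complex.exp ((α : ℝ) * Complex.I) * Z).re| := by
  have h1 : Real.sin (α + Z.arg - Real.pi / 2) = -Real.cos (α + Z.arg) := by
    rw [Real.sin_sub_pi_div_two]
  have h2 : (Complex.exp ((α : ℝ) * Complex.I) * Z).re = ‖Z‖ * Real.cos (α + Z.arg) := by
    conv_lhs => rw [← Complex.norm_mul_exp_arg_mul_I Z]
    exact re_mul_exp α Z.arg ‖Z‖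
  rw [h1, h2, abs_neg, abs_mul, abs_of_nonneg (norm_nonneg Z)]

end Limit2Aux

open Limit2Aux

theorem limit2 {T : Finset (Fin d → E d)} {n a x₁ : E d} (h1 : ∀ F ∈ T, good F x₁)
    (h2 : ∀ F ∈ Ta T a, good (gv n a F) x₁) (R : ℝ) {ε : ℝ} (hε : 0 < ε) :
    ∀ᶠ D : ℝ in atTop, ∀ x : E d, ‖x - D • x₁‖ ≤ R →
      (∀ F ∈ T, good F x) ∧ (∀ F ∈ Ta T a, good (gv n a F) x) ∧
      ∑ i ∈ ixs T a, |cc n a x₁ i - D ^ d * cc n a x i| ≤ ε := by
  have e1 : ∀ᶠ y in 𝓝 x₁, ∀ F ∈ T, good F y :=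
    (Finset.eventually_all T).2 fun F hF => (isOpen_good F).mem_nhds (h1 F hF)
  have e2 : ∀ᶠ y in 𝓝 x₁, ∀ F ∈ Ta T a, good (gv n a F) y :=
    (Finset.eventually_all (Ta T a)).2 fun F hF => (isOpen_good (gv n a F)).mem_nhds (h2 F hF)
  have e3 : ∀ᶠ y in 𝓝 x₁, ∑ i ∈ ixs T a, |cc n a x₁ i - cc n a y i| < ε := by
    have hc : Tendsto (fun y => ∑ i ∈ ixs T a, |cc n a x₁ i - cc n a y i|) (𝓝 x₁)
        (𝓝 (∑ i ∈ ixs T a, |cc n a x₁ i - cc n a x₁ i|)) :=
      tendsto_finsetSum _ fun i hi =>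
        (tendsto_const_nhds.sub (continuousAt_cc h1 h2 hi)).abs
    have h0 : ∑ i ∈ ixs T a, |cc n a x₁ i - cc n a x₁ i| = 0 :=
      Finset.sum_eq_zero fun i _ => by simp
    rw [h0] at hc
    exact hc.eventually (gt_mem_nhds hε)
  obtain ⟨δ, hδ, hball⟩ := Metric.eventually_nhds_iff.1 (e1.and (e2.and e3))
  filter_upwards [eventually_gt_atTop (max 0 (R / δ))] with D hD x hx
  have hD0 : 0 < D := (le_max_left _ _).trans_lt hD
  have hDR : R / δ < D := (le_max_right _ _).trans_lt hD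
  have hy : x = D • (D⁻¹ • x) := by rw [smul_smul, mul_inv_cancel₀ hD0.ne', one_smul]
  have hdist : dist (D⁻¹ • x) x₁ < δ := by
    rw [dist_eq_norm]
    have : D⁻¹ • x - x₁ = D⁻¹ • (x - D • x₁) := by
      rw [smul_sub, smul_smul, inv_mul_cancel₀ hD0.ne', one_smul]
    rw [this, norm_smul, Real.norm_eq_abs, abs_of_pos (inv_pos.2 hD0)]
    have h3 : R < δ * D := by
      rw [div_lt_iff₀ hδ] at hDR
      linarith
    calc D⁻¹ * ‖x - D • x₁‖ ≤ D⁻¹ * R :=
        mul_le_mul_of_nonneg_left hx (inv_pos.2 hD0).le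
      _ < D⁻¹ * (δ * D) := mul_lt_mul_of_pos_left h3 (inv_pos.2 hD0)
      _ = δ := by field_simp
  obtain ⟨g1, g2, g3⟩ := hball hdist
  refine ⟨fun F hF => ?_, fun F hF => ?_, ?_⟩
  · rw [hy]
    exact good_smul_right hD0.ne' (g1 F hF)
  · rw [hy]
    exact good_smul_right hD0.ne' (g2 F hF)
  · have : ∀ i ∈ ixs T a, |cc n a x₁ i - D ^ d * cc n a x i| =
        |cc n a x₁ i - cc n a (D⁻¹ • x) i| := by
      intro i _
      have := cc_smul n a hD0.ne' (D⁻¹ • x) i
      rw [← hy] at this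
      rw [this]
    rw [Finset.sum_congr rfl this]
    exact g3.le

theorem limit3 (T : Finset (Fin d → E d)) (n a x₁ : E d) (m R : ℝ) :
    ∀ᶠ D : ℝ in atTop, ∀ x : E d, ‖x - D • x₁‖ ≤ R →
      ‖topZ T n a x₁ m‖ *
        |Real.sin (ph x a + (topZ T n a x₁ m).arg - Real.pi / 2)| ≤
      |∑ i ∈ ixs T a, cc n a x₁ i * Real.cos (ph x (wv n a (m / D) i))| +
        ∑ i ∈ ixs T a with top i = false, |cc n a x₁ i| + 1 := by
  filter_upwards [eventually_gt_atTop 0,
    eventually_ge_atTop (2 * (2 * Real.pi * |m| * R * bnd T n a x₁))] with D hD hD2 x hx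
  set Z := topZ T n a x₁ m with hZ
  set S := ∑ i ∈ ixs T a, cc n a x₁ i * Real.cos (ph x (wv n a (m / D) i)) with hS
  set Y := ∑ i ∈ ixs T a with top i = false, |cc n a x₁ i| with hY
  rw [abs_sin_eq]
  -- the difference of the sums
  have h1 : ‖Z - zx T n a x₁ x (m / D)‖ ≤ 1 / 2 := by
    refine (zx_sub T n a x₁ x m hD hx).trans ?_
    rw [div_le_iff₀ hD]
    linarith
  have h2 : |(Complex.exp ((ph x a : ℝ) * Complex.I) * Z).re| ≤
      |(Complex.exp ((ph x a : ℝ) * Complex.I) * zx T n a x₁ x (m / D)).re| + 1 / 2 := by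
    have h3 : Complex.exp ((ph x a : ℝ) * Complex.I) * Z =
        Complex.exp ((ph x a : ℝ) * Complex.I) * zx T n a x₁ x (m / D) +
          Complex.exp ((ph x a : ℝ) * Complex.I) * (Z - zx T n a x₁ x (m / D)) := by ring
    rw [h3, Complex.add_re]
    refine (abs_add_le _ _).trans (add_le_add_right ?_ _)
    refine (Complex.abs_re_le_norm _).trans ?_
    rw [norm_mul, Complex.norm_exp_ofReal_mul_I, one_mul]
    exact h1
  -- the top sum
  have h4 := top_eq T n a x₁ x (m / D)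
  have h5 : ∑ i ∈ ixs T a with top i = true, cc n a x₁ i * Real.cos (ph x (wv n a (m / D) i)) +
      ∑ i ∈ ixs T a with top i = false, cc n a x₁ i * Real.cos (ph x (wv n a (m / D) i)) = S := by
    have := Finset.sum_filter_add_sum_filter_not (ixs T a) (fun i => top i = true)
      (fun i => cc n a x₁ i * Real.cos (ph x (wv n a (m / D) i)))
    simpa only [Bool.not_eq_true] using this
  have h6 : |∑ i ∈ ixs T a with top i = false,
      cc n a x₁ i * Real.cos (ph x (wv n a (m / D) i))| ≤ Y := by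
    refine (Finset.abs_sum_le_sum_abs _ _).trans (Finset.sum_le_sum fun i _ => ?_)
    rw [abs_mul]
    exact mul_le_of_le_one_right (abs_nonneg _) (Real.abs_cos_le_one _)
  have h7 : |-2 * (Complex.exp ((ph x a : ℝ) * Complex.I) * zx T n a x₁ x (m / D)).re| ≤
      |S| + Y := by
    rw [← h4]
    have : ∑ i ∈ ixs T a with top i = true,
        cc n a x₁ i * Real.cos (ph x (wv n a (m / D) i)) = S -
        ∑ i ∈ ixs T a with top i = false,
          cc n a x₁ i * Real.cos (ph x (wv n a (m / D) i)) := by linarith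
    rw [this]
    exact (abs_sub _ _).trans (add_le_add_right h6 _)
  rw [abs_mul, abs_neg, abs_of_pos (by norm_num : (0 : ℝ) < 2)] at h7
  have h8 := abs_nonneg (Complex.exp ((ph x a : ℝ) * Complex.I) * Z).re
  have h9 : 0 ≤ |S| := abs_nonneg S
  have h10 : 0 ≤ Y := Finset.sum_nonneg fun _ _ => abs_nonneg _
  linarith

end Pool.Agent.MPbd65ca
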