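import Pool.Agent.Lib.MP_bd65ca_an.Gen.TriVert

/-!
# TUR, module Osc: the oscillating terms and the constant terms
-/

open MeasureTheory Pointwise Set Filter Topology
open scoped RealInnerProductSpace

namespace Pool.Agent.MPbd65ca

variable {d : ℕ}

namespace OscAux

theorem ph_sub (x κ w : E d) : ph x κ - ph x w = 2 * Real.pi * ⟪x, κ - w⟫ := by
  rw [inner_sub_right]
  unfold ph
  ring

theorem ph_add (x κ w : E d) : ph x κ + ph x w = 2 * Real.pi * ⟪x, κ + w⟫ - Real.pi * d := by
  rw [inner_add_right]
  unfold ph
  ring

theorem cos_shift (A σ : ℝ) : |Real.cos (A - 2 * σ) - Real.cos A| ≤ 2 * |Real.sin σ| := by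
  rw [Real.cos_sub_cos]
  have h1 : (A - 2 * σ - A) / 2 = -σ := by ring
  rw [h1, Real.sin_neg]
  have h2 : -2 * Real.sin ((A - 2 * σ + A) / 2) * -Real.sin σ =
      2 * (Real.sin ((A - 2 * σ + A) / 2) * Real.sin σ) := by ring
  rw [h2, abs_mul, abs_mul, abs_of_pos (by norm_num : (0 : ℝ) < 2)]
  have h3 := Real.abs_sin_le_one ((A - 2 * σ + A) / 2)
  have h4 := abs_nonneg (Real.sin σ)
  nlinarith

end OscAux

open OscAux

theorem osc_false (n a κ : E d) (r μ ζ : ℝ) (x : E d) (i : Ix d) :
    |kp n a κ μ i false * Real.cos (2 * Real.pi * ⟪x, fq n a κ r μ i false⟫ +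
        fs n a r μ ζ i false) + rm n a κ μ i false -
      Real.cos (ph x κ - ph x (wv n a μ i))| ≤
    if top i = true then 0 else 2 * |Real.sin (ph x a + ζ - Real.pi / 2)| := by
  have hnn : 0 ≤ 2 * |Real.sin (ph x a + ζ - Real.pi / 2)| := by positivity
  by_cases ht : top i = true
  · have ht' : ¬ top i = false := by rw [ht]; decide
    have e1 : kp n a κ μ i false = 1 := by
      simp only [kp]
      exact if_neg fun h => ht' h.1
    have e2 : rm n a κ μ i false = 0 := by
      simp only [rm]
      exact if_neg fun h => ht' h.1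
    have e3 : fq n a κ r μ i false = κ - wv n a μ i := by
      simp only [fq]
      rw [if_pos ht]
    have e4 : fs n a r μ ζ i false = 0 := by
      simp only [fs]
      exact if_neg fun h => ht' h.1
    rw [e1, e2, e3, e4, ph_sub, one_mul, add_zero, add_zero, sub_self, abs_zero, if_pos ht]
  · have ht' : top i = false := by simpa using ht
    by_cases hw : wv n a μ i = κ
    · have e1 : kp n a κ μ i false = 0 := by
        simp only [kp]
        exact if_pos ⟨ht', hw⟩
      have e2 : rm n a κ μ i false = 1 := by
        simp only [rm]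
        exact if_pos ⟨ht', hw⟩
      rw [e1, e2, hw, sub_self, Real.cos_zero, if_neg ht, zero_mul, zero_add, sub_self, abs_zero]
      exact hnn
    · have e1 : kp n a κ μ i false = 1 := by
        simp only [kp]
        exact if_neg fun h => hw h.2
      have e2 : rm n a κ μ i false = 0 := by
        simp only [rm]
        exact if_neg fun h => hw h.2
      rw [e1, e2, one_mul, add_zero, if_neg ht]
      by_cases hr : ‖wv n a μ i + a‖ < r
      · have e3 : fq n a κ r μ i false = κ - wv n a μ i - (2 : ℝ) • a := by
          simp only [fq, fm]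
          rw [if_neg ht, if_pos hr]
        have e4 : fs n a r μ ζ i false = Real.pi * d - 2 * ζ + Real.pi := by
          simp only [fs]
          exact if_pos ⟨ht', hr⟩
        rw [e3, e4, ph_sub]
        have e5 : 2 * Real.pi * ⟪x, κ - wv n a μ i - (2 : ℝ) • a⟫ +
            (Real.pi * d - 2 * ζ + Real.pi) = 2 * Real.pi * ⟪x, κ - wv n a μ i⟫ -
            2 * (ph x a + ζ - Real.pi / 2) := by
          rw [inner_sub_right x (κ - wv n a μ i), inner_smul_right]
          unfold ph
          ring
        rw [e5]
        exact cos_shift _ _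
      · have e3 : fq n a κ r μ i false = κ - wv n a μ i := by
          simp only [fq, fm]
          rw [if_neg ht, if_neg hr]
        have e4 : fs n a r μ ζ i false = 0 := by
          simp only [fs]
          exact if_neg fun h => hr h.2
        rw [e3, e4, ph_sub, add_zero, sub_self, abs_zero]
        exact hnn

theorem osc_true (n a κ : E d) (r μ ζ : ℝ) (x : E d) (i : Ix d) :
    |kp n a κ μ i true * Real.cos (2 * Real.pi * ⟪x, fq n a κ r μ i true⟫ +
        fs n a r μ ζ i true) + rm n a κ μ i true -
      Real.cos (ph x κ + ph x (wv n a μ i))| ≤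
    if top i = true then 0 else 2 * |Real.sin (ph x a + ζ - Real.pi / 2)| := by
  have hnn : 0 ≤ 2 * |Real.sin (ph x a + ζ - Real.pi / 2)| := by positivity
  by_cases ht : top i = true
  · have ht' : ¬ top i = false := by rw [ht]; decide
    have e1 : kp n a κ μ i true = 1 := by
      simp only [kp]
      exact if_neg fun h => ht' h.1
    have e2 : rm n a κ μ i true = 0 := by
      simp only [rm]
      exact if_neg fun h => ht' h.1
    have e3 : fq n a κ r μ i true = κ + wv n a μ i := by
      simp only [fq]
      rw [if_pos ht]
    have e4 : fs n a r μ ζ i true = -(Real.pi * d) := by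
      simp only [fs]
      exact if_neg fun h => ht' h.1
    rw [e1, e2, e3, e4, ph_add, one_mul, add_zero, ← sub_eq_add_neg, sub_self, abs_zero,
      if_pos ht]
  · have ht' : top i = false := by simpa using ht
    by_cases hw : wv n a μ i = -κ
    · have e1 : kp n a κ μ i true = 0 := by
        simp only [kp]
        exact if_pos ⟨ht', hw⟩
      have e2 : rm n a κ μ i true = (-1) ^ d := by
        simp only [rm]
        exact if_pos ⟨ht', hw⟩
      have e3 : Real.cos (ph x κ + ph x (-κ)) = (-1) ^ d := by
        rw [ph_add, add_neg_cancel, inner_zero_right, mul_zero, zero_sub, Real.cos_neg,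
          mul_comm, Real.cos_nat_mul_pi]
      rw [e1, e2, hw, e3, if_neg ht, zero_mul, zero_add, sub_self, abs_zero]
      exact hnn
    · have e1 : kp n a κ μ i true = 1 := by
        simp only [kp]
        exact if_neg fun h => hw h.2
      have e2 : rm n a κ μ i true = 0 := by
        simp only [rm]
        exact if_neg fun h => hw h.2
      rw [e1, e2, one_mul, add_zero, if_neg ht]
      by_cases hr : ‖wv n a μ i - a‖ < r
      · have e3 : fq n a κ r μ i true = κ + wv n a μ i - (2 : ℝ) • a := by
          simp only [fq, fp]
          rw [if_neg ht, if_pos hr]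
        have e4 : fs n a r μ ζ i true = Real.pi - 2 * ζ := by
          simp only [fs]
          exact if_pos ⟨ht', hr⟩
        rw [e3, e4, ph_add]
        have e5 : 2 * Real.pi * ⟪x, κ + wv n a μ i - (2 : ℝ) • a⟫ +
            (Real.pi - 2 * ζ) = 2 * Real.pi * ⟪x, κ + wv n a μ i⟫ - Real.pi * d -
            2 * (ph x a + ζ - Real.pi / 2) := by
          rw [inner_sub_right x (κ + wv n a μ i), inner_smul_right]
          unfold ph
          ring
        rw [e5]
        exact cos_shift _ _
      · have e3 : fq n a κ r μ i true = κ + wv n a μ i := by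
          simp only [fq, fp]
          rw [if_neg ht, if_neg hr]
        have e4 : fs n a r μ ζ i true = -(Real.pi * d) := by
          simp only [fs]
          exact if_neg fun h => hr h.2
        rw [e3, e4, ph_add, ← sub_eq_add_neg, sub_self, abs_zero]
        exact hnn

theorem sum_rm {N : Finset (E d)} {a κ : E d} {r : ℝ} (h : Fine N a κ r)
    (T : Finset (Fin d → E d)) (n x : E d) (μ : ℝ) :
    ∑ i ∈ ixs T a, cc n a x i * (rm n a κ μ i false + rm n a κ μ i true) = bet T κ x := by
  classical
  obtain ⟨_, hκ0, hκn⟩ := h.ne_zero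
  have hr : ∀ p : (Fin d → E d) × Option (Fin d),
      rm n a κ μ (.inr p) false + rm n a κ μ (.inr p) true = 0 := by
    rintro ⟨F, o⟩
    cases o with
    | none =>
      have e1 : rm n a κ μ (.inr (F, none)) false = 0 := by
        simp only [rm]
        exact if_neg fun h' => h.hκa h'.2.symm
      have e2 : rm n a κ μ (.inr (F, none)) true = 0 := by
        simp only [rm]
        refine if_neg fun h' => hκn ?_
        have h3 : a = -κ := h'.2
        rw [h3, neg_neg]
      rw [e1, e2, add_zero]
    | some k =>
      have e1 : rm n a κ μ (.inr (F, some k)) false = 0 := by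
        simp only [rm]
        exact if_neg fun h' => by simpa [top] using h'.1
      have e2 : rm n a κ μ (.inr (F, some k)) true = 0 := by
        simp only [rm]
        exact if_neg fun h' => by simpa [top] using h'.1
      rw [e1, e2, add_zero]
  have h0 : ∀ F : Fin d → E d,
      rm n a κ μ (.inl (F, none)) false + rm n a κ μ (.inl (F, none)) true = 0 := by
    intro F
    have e1 : rm n a κ μ (.inl (F, none)) false = 0 := by
      simp only [rm]
      exact if_neg fun h' => hκ0 h'.2.symm
    have e2 : rm n a κ μ (.inl (F, none)) true = 0 := by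
      simp only [rm]
      refine if_neg fun h' => hκ0 ?_
      have h3 : (0 : E d) = -κ := h'.2
      rw [← neg_eq_zero, ← h3]
    rw [e1, e2, add_zero]
  have h1 : ∀ (F : Fin d → E d) (k : Fin d),
      rm n a κ μ (.inl (F, some k)) false + rm n a κ μ (.inl (F, some k)) true =
        (if F k = κ then 1 else 0) + (-1) ^ d * (if F k = -κ then 1 else 0) := by
    intro F k
    have e0 : wv n a μ (.inl (F, some k)) = F k := zero_add _
    have e1 : rm n a κ μ (.inl (F, some k)) false = if F k = κ then 1 else 0 := by
      simp only [rm, e0]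
      by_cases hk : F k = κ
      · rw [if_pos hk, if_pos ⟨rfl, hk⟩]
      · rw [if_neg hk, if_neg fun h' => hk h'.2]
    have e2 : rm n a κ μ (.inl (F, some k)) true = (-1) ^ d * if F k = -κ then 1 else 0 := by
      simp only [rm, e0]
      by_cases hk : F k = -κ
      · rw [if_pos hk, if_pos ⟨rfl, hk⟩, mul_one]
      · rw [if_neg hk, if_neg fun h' => hk h'.2, mul_zero]
    rw [e1, e2]
  unfold ixs bet
  rw [Finset.sum_disjSum, Finset.sum_product]
  have h2 : ∑ p ∈ Ta T a ×ˢ (Finset.univ : Finset (Option (Fin d))), cc n a x (.inr p) *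
      (rm n a κ μ (.inr p) false + rm n a κ μ (.inr p) true) = 0 :=
    Finset.sum_eq_zero fun p _ => by rw [hr p, mul_zero]
  rw [h2, add_zero]
  refine Finset.sum_congr rfl fun F _ => ?_
  rw [Fintype.sum_option, h0, mul_zero, zero_add]
  refine Finset.sum_congr rfl fun k _ => ?_
  rw [h1]
  have e3 : cc n a x (.inl (F, some k)) = cf F x (some k) := rfl
  rw [e3]
  split_ifs <;> ring

end Pool.Agent.MPbd65ca
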