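import Pool.Agent.Lib.MP_bd65ca_an.Gen.Defs

/-!
# TUR, module PerturbPhase: the perturbation lemma with phases
-/

open MeasureTheory FourierTransform Pointwise Filter Topology Real
open scoped RealInnerProductSpace

namespace Pool.Agent.MPbd65ca

variable {d : ℕ}

theorem PerturbPhaseAux.cos_mul_phase {ρ : ℝ} {f : E d → ℂ} (hf : Vanish (Metric.closedBall 0 ρ) f) (v x₀ : E d)
    (φ : ℝ) :
    Vanish (Metric.closedBall v ρ ∪ Metric.closedBall (-v) ρ)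
      (fun x => ((Real.cos (2 * π * ⟪x, v⟫ + φ) : ℝ) : ℂ) * f (x - x₀)) := by
  have h1 := (hf.modulate v).translate x₀
  have h2 := (hf.modulate (-v)).translate x₀
  have h3 := (h1.const_mul ((1 / 2 : ℂ) * Complex.exp ((φ : ℂ) * Complex.I) *
    (𝐞 ⟪x₀, v⟫ : ℂ))).mono
    (K' := Metric.closedBall v ρ ∪ Metric.closedBall (-v) ρ) Set.subset_union_left
  have h4 := (h2.const_mul ((1 / 2 : ℂ) * Complex.exp (-(φ : ℂ) * Complex.I) *
    (𝐞 ⟪x₀, -v⟫ : ℂ))).mono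
    (K' := Metric.closedBall v ρ ∪ Metric.closedBall (-v) ρ) Set.subset_union_right
  refine (h3.add h4).congr fun x => ?_
  have e1 : (𝐞 ⟪x₀, v⟫ : ℂ) * (𝐞 ⟪x - x₀, v⟫ : ℂ) = 𝐞 ⟪x, v⟫ := by
    rw [← Circle.coe_mul, ← AddChar.map_add_eq_mul, inner_sub_left]
    congr 2
    ring
  have e2 : (𝐞 ⟪x₀, -v⟫ : ℂ) * (𝐞 ⟪x - x₀, -v⟫ : ℂ) = 𝐞 ⟪x, -v⟫ := by
    rw [← Circle.coe_mul, ← AddChar.map_add_eq_mul, inner_sub_left]
    congr 2
    ring
  rw [Circle.smul_def, Circle.smul_def, smul_eq_mul, smul_eq_mul]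
  have e3 : ((Real.cos (2 * π * ⟪x, v⟫ + φ) : ℝ) : ℂ) =
      (1 / 2 : ℂ) * Complex.exp ((φ : ℂ) * Complex.I) * (𝐞 ⟪x, v⟫ : ℂ)
      + (1 / 2 : ℂ) * Complex.exp (-(φ : ℂ) * Complex.I) * (𝐞 ⟪x, -v⟫ : ℂ) := by
    have e4 : Complex.exp ((φ : ℂ) * Complex.I) *
        Complex.exp (((2 * π * ⟪x, v⟫ : ℝ) : ℂ) * Complex.I) =
        Complex.exp (((2 * π * ⟪x, v⟫ + φ : ℝ) : ℂ) * Complex.I) := by
      rw [← Complex.exp_add]
      congr 1
      push_cast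
      ring
    have e5 : Complex.exp (-(φ : ℂ) * Complex.I) *
        Complex.exp (((2 * π * -⟪x, v⟫ : ℝ) : ℂ) * Complex.I) =
        Complex.exp (-((2 * π * ⟪x, v⟫ + φ : ℝ) : ℂ) * Complex.I) := by
      rw [← Complex.exp_add]
      congr 1
      push_cast
      ring
    rw [Real.fourierChar_apply, Real.fourierChar_apply, inner_neg_right, mul_assoc (1 / 2 : ℂ),
      mul_assoc (1 / 2 : ℂ), e4, e5, Complex.ofReal_cos, Complex.cos]
    ring
  rw [e3, ← e1, ← e2]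
  ring

theorem PerturbPhaseAux.main {W : Set (E d)} (hW : IsCompact W) (hs : ∀ x ∈ W, -x ∈ W)
    (hpos : 0 < volume.real W)
    (hcos : Continuous (cosT W) ∧ cosT W 0 = volume.real W ∧
      Integrable (fun x => cosT W x ^ 2) ∧ ∫ x, cosT W x ^ 2 ≤ volume.real W ∧
      Vanish (W + W) (fun x => ((cosT W x ^ 2 : ℝ) : ℂ)))
    {ρ : ℝ} {Ψ : E d → ℝ} (hΨc : Continuous Ψ)
    (hΨ1 : Vanish (Metric.closedBall 0 ρ) (fun x => (Ψ x : ℂ)))
    (hΨ2 : Vanish (Metric.closedBall 0 ρ) (fun x => ((Ψ x ^ 2 : ℝ) : ℂ)))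
    {ι : Type*} (s : Finset ι) (f : ι → E d) (a φ : ι → ℝ) {β M t : ℝ} (ht : 0 < t)
    (hf : ∀ i ∈ s, Metric.closedBall (f i) ρ ⊆ W + W) (hf0 : ∀ i ∈ s, ρ < ‖f i‖)
    (h0 : Metric.closedBall 0 ρ ⊆ W + W) (x₀ : E d)
    (hnn : ∀ x, 0 ≤ cosT W x ^ 2 + t * (Ψ (x - x₀) ^ 2 *
      (∑ i ∈ s, a i * Real.cos (2 * π * ⟪x, f i⟫ + φ i) - β) + M * Ψ (x - x₀)))
    (hzero : 0 ≤ Ψ (-x₀) ^ 2 * (∑ i ∈ s, a i * Real.cos (φ i) - β) + M * Ψ (-x₀))
    (hint : M * ∫ x, Ψ x < β * ∫ x, Ψ x ^ 2) :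
    ∃ F ∈ cls (W + W), ∫ x, F x < 1 / volume.real W := by
  obtain ⟨hgc, hg0, hgi, hgint, hgv⟩ := hcos
  have hKc : IsClosed (W + W) := (hW.add hW).isClosed
  -- integrability of the lumps
  have hΨi : Integrable Ψ := by
    have := hΨ1.1.re
    simpa using this
  have hΨ2i : Integrable (fun x => Ψ x ^ 2) := by
    have := hΨ2.1.re
    refine this.congr (Eventually.of_forall fun x => ?_)
    simp only [RCLike.re_to_complex, Complex.ofReal_re]
  have hterm : ∀ i ∈ s, Vanish (Metric.closedBall (f i) ρ ∪ Metric.closedBall (-f i) ρ)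
      (fun x => ((Real.cos (2 * π * ⟪x, f i⟫ + φ i) : ℝ) : ℂ) * (((Ψ (x - x₀)) ^ 2 : ℝ) : ℂ)) :=
    fun i _ => PerturbPhaseAux.cos_mul_phase hΨ2 (f i) x₀ (φ i)
  have hneg : ∀ i ∈ s, Metric.closedBall (-f i) ρ ⊆ W + W := by
    intro i hi x hx
    have h1 : -x ∈ Metric.closedBall (f i) ρ := by
      rw [mem_closedBall_iff_norm] at hx ⊢
      have h2 : -x - f i = -(x - -f i) := by abel
      rw [h2, norm_neg]
      exact hx
    obtain ⟨u, hu, v, hv, huv⟩ := hf i hi h1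
    refine ⟨-u, hs u hu, -v, hs v hv, ?_⟩
    simp only at huv ⊢
    rw [← neg_add, huv, neg_neg]
  have hsub : ∀ i ∈ s, Metric.closedBall (f i) ρ ∪ Metric.closedBall (-f i) ρ ⊆ W + W :=
    fun i hi => Set.union_subset (hf i hi) (hneg i hi)
  have hz : ∀ i ∈ s, (0 : E d) ∉ Metric.closedBall (f i) ρ ∪ Metric.closedBall (-f i) ρ := by
    intro i hi h
    have := hf0 i hi
    rcases h with h | h
    · rw [mem_closedBall_iff_norm] at h
      simp at h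
      linarith
    · rw [mem_closedBall_iff_norm] at h
      simp at h
      linarith
  -- the function
  set c : ℝ := (volume.real W ^ 2)⁻¹ with hc
  have hcpos : 0 < c := by positivity
  let G : E d → ℝ := fun x => cosT W x ^ 2 + t * (Ψ (x - x₀) ^ 2 *
      (∑ i ∈ s, a i * Real.cos (2 * π * ⟪x, f i⟫ + φ i) - β) + M * Ψ (x - x₀))
  have hGc : Continuous G := by
    have h1 : Continuous fun x => Ψ (x - x₀) := hΨc.comp (continuous_id.sub continuous_const)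
    have h2 : Continuous fun x : E d => ∑ i ∈ s, a i * Real.cos (2 * π * ⟪x, f i⟫ + φ i) := by
      refine continuous_finsetSum _ fun i _ => ?_
      fun_prop
    exact (hgc.pow 2).add (continuous_const.mul (((h1.pow 2).mul (h2.sub continuous_const)).add
      (continuous_const.mul h1)))
  -- complex form
  have hGeq : ∀ x, (G x : ℂ) = ((cosT W x ^ 2 : ℝ) : ℂ) + ((t : ℂ) * (∑ i ∈ s, (a i : ℂ) *
      (((Real.cos (2 * π * ⟪x, f i⟫ + φ i) : ℝ) : ℂ) * (((Ψ (x - x₀)) ^ 2 : ℝ) : ℂ))) +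
      ((-(t * β) : ℂ) * (((Ψ (x - x₀)) ^ 2 : ℝ) : ℂ) + (t * M : ℂ) * ((Ψ (x - x₀) : ℝ) : ℂ))) := by
    intro x
    have h1 : (∑ i ∈ s, (a i : ℂ) *
      (((Real.cos (2 * π * ⟪x, f i⟫ + φ i) : ℝ) : ℂ) * (((Ψ (x - x₀)) ^ 2 : ℝ) : ℂ)))
      = ((∑ i ∈ s, a i * Real.cos (2 * π * ⟪x, f i⟫ + φ i) : ℝ) : ℂ) *
        (((Ψ (x - x₀)) ^ 2 : ℝ) : ℂ) := by
      push_cast
      rw [Finset.sum_mul]
      refine Finset.sum_congr rfl fun i _ => ?_
      ring
    rw [h1]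
    simp only [G]
    push_cast
    ring
  have hS : Vanish (W + W) (fun x => ∑ i ∈ s, (a i : ℂ) *
      (((Real.cos (2 * π * ⟪x, f i⟫ + φ i) : ℝ) : ℂ) * (((Ψ (x - x₀)) ^ 2 : ℝ) : ℂ))) :=
    Vanish.sum s _ fun i hi => ((hterm i hi).mono (hsub i hi)).const_mul _
  have hP2 := (hΨ2.translate x₀)
  have hP1 := (hΨ1.translate x₀)
  have hGv : Vanish (W + W) (fun x => (G x : ℂ)) := by
    refine Vanish.congr ?_ fun x => (hGeq x).symm
    exact hgv.add ((hS.const_mul _).add (((hP2.mono h0).const_mul _).add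
      ((hP1.mono h0).const_mul _)))
  -- the integral
  have hSint : ∫ x, (∑ i ∈ s, (a i : ℂ) *
      (((Real.cos (2 * π * ⟪x, f i⟫ + φ i) : ℝ) : ℂ) * (((Ψ (x - x₀)) ^ 2 : ℝ) : ℂ))) = 0 := by
    rw [integral_finsetSum]
    · refine Finset.sum_eq_zero fun i hi => ?_
      rw [integral_const_mul, (hterm i hi).integral_eq_zero (hz i hi), mul_zero]
    · intro i hi
      exact ((hterm i hi).const_mul _).1
  have hGi : ((∫ x, G x : ℝ) : ℂ) = ((∫ x, cosT W x ^ 2 : ℝ) : ℂ) +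
      ((-(t * β) : ℂ) * ((∫ x, (Ψ x) ^ 2 : ℝ) : ℂ) + (t * M : ℂ) * ((∫ x, Ψ x : ℝ) : ℂ)) := by
    rw [← integral_complex_ofReal, ← integral_complex_ofReal, ← integral_complex_ofReal,
      ← integral_complex_ofReal]
    simp_rw [hGeq]
    rw [integral_add hgv.1 ((hS.const_mul _).add ((hP2.mono h0).const_mul _ |>.add
      ((hP1.mono h0).const_mul _))).1]
    rw [integral_add (hS.const_mul _).1 ((hP2.mono h0).const_mul _ |>.add
      ((hP1.mono h0).const_mul _)).1]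
    rw [integral_const_mul, hSint, mul_zero, zero_add]
    rw [integral_add ((hP2.mono h0).const_mul _).1 ((hP1.mono h0).const_mul _).1]
    rw [integral_const_mul, integral_const_mul]
    rw [integral_sub_right_eq_self (fun x => ((Ψ x ^ 2 : ℝ) : ℂ)) x₀,
      integral_sub_right_eq_self (fun x => ((Ψ x : ℝ) : ℂ)) x₀]
  have hGr : ∫ x, G x = (∫ x, cosT W x ^ 2) + (-(t * β) * (∫ x, (Ψ x) ^ 2) +
      (t * M) * ∫ x, Ψ x) := by
    exact_mod_cast hGi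
  refine ⟨fun x => c * G x, ⟨continuous_const.mul hGc, ?_, ?_, ?_, ?_⟩, ?_⟩
  · have h1 := hGv.1.re
    refine (Integrable.const_mul ?_ c)
    refine h1.congr (Eventually.of_forall fun x => ?_)
    simp only [RCLike.re_to_complex, Complex.ofReal_re]
  · intro x
    exact mul_nonneg hcpos.le (hnn x)
  · have h1 : G 0 = volume.real W ^ 2 + t * (Ψ (-x₀) ^ 2 * (∑ i ∈ s, a i * Real.cos (φ i) - β) + M * Ψ (-x₀)) := by
      simp only [G, hg0, zero_sub, inner_zero_left, mul_zero, zero_add]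
    simp only
    rw [h1, hc, mul_add, inv_mul_cancel₀ (by positivity)]
    have := mul_nonneg hcpos.le (mul_nonneg ht.le hzero)
    linarith
  · have h1 : Vanish (W + W) (fun x => ((c * G x : ℝ) : ℂ)) := by
      refine (hGv.const_mul (c : ℂ)).congr fun x => ?_
      push_cast
      ring
    exact h1.tsupport_subset hKc
  · rw [integral_const_mul, hGr, hc, one_div]
    have h2 : (∫ x, cosT W x ^ 2) + (-(t * β) * (∫ x, (Ψ x) ^ 2) + (t * M) * ∫ x, Ψ x) <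
        volume.real W := by
      have := mul_lt_mul_of_pos_left hint ht
      nlinarith
    calc _ < (volume.real W ^ 2)⁻¹ * volume.real W := by
          exact mul_lt_mul_of_pos_left h2 (by positivity)
      _ = (volume.real W)⁻¹ := by
          field_simp

theorem perturb_phase {W : Set (E d)} (hW : IsCompact W) (hs : ∀ x ∈ W, -x ∈ W)
    (hpos : 0 < volume.real W)
    {ρ : ℝ} {Ψ : E d → ℝ} (hΨc : Continuous Ψ)
    (hΨ1 : Vanish (Metric.closedBall 0 ρ) (fun x => (Ψ x : ℂ)))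
    (hΨ2 : Vanish (Metric.closedBall 0 ρ) (fun x => ((Ψ x ^ 2 : ℝ) : ℂ)))
    {ι : Type*} (s : Finset ι) (f : ι → E d) (a φ : ι → ℝ) {β M t : ℝ} (ht : 0 < t)
    (hf : ∀ i ∈ s, a i ≠ 0 → okf W ρ (f i))
    (h0 : Metric.closedBall 0 ρ ⊆ W + W) (x₀ : E d)
    (hnn : ∀ x, 0 ≤ cosT W x ^ 2 + t * (Ψ (x - x₀) ^ 2 *
      (∑ i ∈ s, a i * Real.cos (2 * π * ⟪x, f i⟫ + φ i) - β) + M * Ψ (x - x₀)))
    (hzero : 0 ≤ Ψ (-x₀) ^ 2 * (∑ i ∈ s, a i * Real.cos (φ i) - β) + M * Ψ (-x₀))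
    (hint : M * ∫ x, Ψ x < β * ∫ x, Ψ x ^ 2) :
    ∃ F ∈ cls (W + W), ∫ x, F x < 1 / volume.real W := by
  classical
  have hsum : ∀ g : ι → ℝ, ∑ i ∈ s.filter (fun i => a i ≠ 0), a i * g i = ∑ i ∈ s, a i * g i := by
    intro g
    refine Finset.sum_filter_of_ne fun i _ h h0 => h ?_
    rw [h0, zero_mul]
  refine PerturbPhaseAux.main hW hs hpos (cosT_props hW hs) hΨc hΨ1 hΨ2
    (s.filter (fun i => a i ≠ 0)) f a φ (β := β) (M := M) ht ?_ ?_ h0 x₀ ?_ ?_ hint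
  · intro i hi
    have h := Finset.mem_filter.mp hi
    exact (hf i h.1 h.2).1
  · intro i hi
    have h := Finset.mem_filter.mp hi
    exact (hf i h.1 h.2).2
  · intro x
    rw [hsum]
    exact hnn x
  · rw [hsum]
    exact hzero

end Pool.Agent.MPbd65ca
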