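import Pool.Agent.Lib.MP_bd65ca_an.Gen.Triang
import Pool.Agent.Lib.MP_bd65ca_an.Gen.GenN
import Pool.Agent.Lib.MP_bd65ca_an.Gen.Dir
import Pool.Agent.Lib.MP_bd65ca_an.Gen.Limit1
import Pool.Agent.Lib.MP_bd65ca_an.Gen.Limit2
import Pool.Agent.Lib.MP_bd65ca_an.Gen.Freq
import Pool.Agent.Lib.MP_bd65ca_an.Gen.Osc
import Pool.Agent.Lib.MP_bd65ca_an.Gen.Core
import Pool.Agent.Lib.MP_bd65ca_an.Gen.PerturbPhase

/-!
# TUR, module GenMain: near a fine polytope there is a body with a smaller value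
-/

open MeasureTheory Pointwise Set Filter Topology
open scoped RealInnerProductSpace

namespace Pool.Agent.MPbd65ca

open ScaleAux

variable {d : ℕ}

/-- A bound and a radius for the bump. -/
theorem bump_bounds {Ψ : E d → ℝ} (hΨc : Continuous Ψ) (hΨ0 : ∀ x, 0 ≤ Ψ x)
    (hΨt : Tendsto Ψ (cocompact (E d)) (𝓝 0)) {H M : ℝ} (hH : 0 < H) (hM : 0 < M) :
    (∃ C : ℝ, 0 < C ∧ ∀ x, Ψ x ≤ C) ∧ ∃ R : ℝ, 0 < R ∧ ∀ x : E d, R < ‖x‖ → Ψ x * H ≤ M := by
  constructor
  · have h1 : ∀ᶠ x in cocompact (E d), Ψ x < 1 := hΨt.eventually_lt_const one_pos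
    obtain ⟨K, hK, hKs⟩ := mem_cocompact.1 h1
    obtain ⟨C, hC⟩ := hK.exists_bound_of_continuousOn hΨc.continuousOn
    refine ⟨|C| + 1, by positivity, fun x => ?_⟩
    by_cases hx : x ∈ K
    · have := hC x hx
      rw [Real.norm_eq_abs, abs_of_nonneg (hΨ0 x)] at this
      linarith [le_abs_self C]
    · have : Ψ x < 1 := hKs hx
      linarith [abs_nonneg C]
  · have h1 : ∀ᶠ x in cocompact (E d), Ψ x < M / H := hΨt.eventually_lt_const (by positivity)
    obtain ⟨K, hK, hKs⟩ := mem_cocompact.1 h1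
    obtain ⟨R, hR⟩ := hK.isBounded.exists_norm_le
    refine ⟨|R| + 1, by positivity, fun x hx => ?_⟩
    have h2 : x ∉ K := fun hxK => by
      have := hR x hxK
      linarith [le_abs_self R]
    have : Ψ x < M / H := hKs h2
    rw [lt_div_iff₀ hH] at this
    exact this.le

theorem fine_main (hd : 2 ≤ d) {N : Finset (E d)} {a κ : E d} {r : ℝ} (h : Fine N a κ r)
    {ε' : ℝ} (hε : 0 < ε') (hε1 : ε' < 1) : ∃ W : Set (E d), IsBody W ∧
      (1 - ε') • convexHull ℝ (N : Set (E d)) ⊆ W ∧ W ⊆ convexHull ℝ (N : Set (E d)) ∧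
      ∃ F ∈ cls (W + W), ∫ x, F x < 1 / volume.real W := by
  classical
  obtain ⟨ha0, hκ0, hκa⟩ := h.ne_zero
  obtain ⟨T, hT⟩ := exists_tri hd h
  obtain ⟨n, hn, hgood, hbet⟩ := exists_n h hT
  have hna : 0 < ⟪n, a⟫ := inner_pos_of_top h.neg h.ha ha0 hn
  have hTa : ∀ F ∈ Ta T a, F ∈ T ∧ ∃ k, F k = a := fun F hF => mem_Ta.1 hF
  have hne' : ∀ F ∈ T, ∀ k, F k ≠ a → ⟪n, F k⟫ ≠ ⟪n, a⟫ :=
    fun F hF k hk => (hn _ (hT.mem F hF k) hk).ne
  have hgi : ∀ F ∈ Ta T a, ∀ k, ⟪n, gv n a F k⟫ = -1 :=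
    fun F hF k => gv_inner hna.ne' (hne' F (hTa F hF).1) k
  have hgl : ∀ F ∈ Ta T a, LinearIndependent ℝ (gv n a F) :=
    fun F hF => gv_li (hT.li F (hTa F hF).1) (hTa F hF).2 hna.ne' (hne' F (hTa F hF).1)
  have hTane : (Ta T a).Nonempty := by
    obtain ⟨F, hF, k, hk⟩ := tri_mem h hT h.ha hn
    exact ⟨F, mem_Ta.2 ⟨hF, k, hk⟩⟩
  obtain ⟨n', c, hc, hsep, hfc⟩ :=
    exists_dir (Ta T a) hTane (by omega) (fun F => gv n a F) hgl
  obtain ⟨ρ, μ₁, hρ, hμ₁, hfreq⟩ := fq_ok h hT hn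
  obtain ⟨B, Y, sg, hB, hY, hsg, hlim⟩ := limit1 hd hgi hgood hbet hsep hfc
  obtain ⟨τ, hτ, hg1, hg2, hBb, hYs, hZ⟩ := hlim (max (8 * Y) (32 * Y * (Y + 1) / B))
  set x₁ := n + τ • n' with hx₁
  set m := c / τ with hm
  have hm0 : 0 < m := by positivity
  set Z := topZ T n a x₁ m with hZd
  set ζ := Z.arg with hζ
  have hz1 : 8 * Y ≤ ‖Z‖ := (le_max_left _ _).trans hZ
  have hz2 : 32 * Y * (Y + 1) ≤ ‖Z‖ * B := by
    have := (le_max_right _ _).trans hZ
    rwa [div_le_iff₀ hB] at this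
  -- the bump
  obtain ⟨Ψ, hΨc, hΨ0, hΨi, hΨ2, hΨt, hΨv1, hΨv2⟩ := exists_bump d hρ
  set I1 : ℝ := ∫ x, Ψ x with hI1
  set I2 : ℝ := ∫ x, Ψ x ^ 2 with hI2
  have hI10 : 0 ≤ I1 := integral_nonneg hΨ0
  set M : ℝ := B / 4 * I2 / (2 * (I1 + 1)) with hM
  have hM0 : 0 < M := by positivity
  have hMint : M * I1 < B / 4 * I2 := by
    rw [hM, div_mul_eq_mul_div, div_lt_iff₀ (by positivity)]
    have : 0 < B / 4 * I2 := by positivity
    exact mul_lt_mul_of_pos_left (by linarith) this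
  -- the coefficients
  set b : Ix d → ℝ := cc n a x₁ with hb
  set H : ℝ := 2 * ∑ i ∈ ixs T a, |b i| + B / 4 with hH
  have hS0 : 0 ≤ ∑ i ∈ ixs T a, |b i| := Finset.sum_nonneg fun _ _ => abs_nonneg _
  have hH0 : 0 < H := by positivity
  obtain ⟨⟨C, hC0, hC⟩, R, hR0, hR⟩ := bump_bounds hΨc hΨ0 hΨt hH0 hM0
  -- the gap of the functional
  obtain ⟨gap, hgap0, hgap⟩ : ∃ gap > 0, ∀ v ∈ N, v ≠ a → ⟪n, v⟫ < ⟪n, a⟫ - gap := by
    have h1 : ∀ᶠ g : ℝ in 𝓝[>] 0, ∀ v ∈ N, v ≠ a → ⟪n, v⟫ < ⟪n, a⟫ - g := by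
      rw [Filter.eventually_all_finset]
      intro v hv
      by_cases hva : v = a
      · exact Eventually.of_forall fun g h => absurd hva h
      · have h2 := hn v hv hva
        filter_upwards [Ioo_mem_nhdsGT (sub_pos.2 h2)] with g hg _
        linarith [hg.2]
    obtain ⟨g, hg1, hg2⟩ := (h1.and self_mem_nhdsWithin).exists
    exact ⟨g, hg2, hg1⟩
  have hx₁0 : x₁ ≠ 0 := by
    obtain ⟨F, hF⟩ := hTane
    have := (hg1 F (hTa F hF).1).1 (⟨0, by omega⟩ : Fin d)
    intro h0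
    rw [h0, inner_zero_left] at this
    exact this rfl
  -- the distance
  have hlim2 := limit2 hg1 hg2 R (ε := B / 12) (by positivity)
  have hlim3 := limit3 T n a x₁ m R
  have hev : ∀ᶠ D : ℝ in atTop, 0 < D ∧ m / D ≤ μ₁ ∧ m / D ≤ gap ∧ m / D < ⟪n, a⟫ ∧
      m / D ≤ ε' * ⟪n, a⟫ ∧ R < D * ‖x₁‖ := by
    have t1 : Tendsto (fun D : ℝ => m / D) atTop (𝓝 0) := tendsto_const_nhds.div_atTop tendsto_id
    have t2 : Tendsto (fun D : ℝ => D * ‖x₁‖) atTop atTop :=
      tendsto_id.atTop_mul_const (norm_pos_iff.2 hx₁0)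
    filter_upwards [eventually_gt_atTop 0, t1.eventually_le_const hμ₁,
      t1.eventually_le_const hgap0, t1.eventually_lt_const hna,
      t1.eventually_le_const (by positivity : 0 < ε' * ⟪n, a⟫), t2.eventually_gt_atTop R]
      with D h1 h2 h3 h4 h5 h6
    exact ⟨h1, h2, h3, h4, h5, h6⟩
  obtain ⟨D, ⟨hl2, hl3⟩, hD0, hDμ, hDgap, hDa, hDε, hDR⟩ := ((hlim2.and hlim3).and hev).exists
  set μ := m / D with hμ
  have hμ0 : 0 < μ := by positivity
  set W₀ : Set (E d) := convexHull ℝ (N : Set (E d)) with hW₀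
  set W : Set (E d) := slab W₀ n (⟪n, a⟫ - μ) with hW
  have hr0 := h.hr
  have h0int : (0 : E d) ∈ interior W₀ := h.ball (Metric.mem_closedBall_self (by positivity))
  have hWb : IsBody W := slab_isBody h.neg h0int n (by linarith)
  have hWpos : 0 < volume.real W := vol_pos hWb
  have hle : ∀ y ∈ W₀, ⟪n, y⟫ ≤ ⟪n, a⟫ := fun y hy => inner_le_of_mem_hull (fun v hv => by
    by_cases hva : v = a
    · rw [hva]
    · exact (hn v hv hva).le) hy
  have hsub : (1 - ε') • W₀ ⊆ W := by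
    have h1 : (1 - μ / ⟪n, a⟫) • W₀ ⊆ W := smul_subset_slab (convex_convexHull ℝ _)
      (fun y hy => neg_mem_hull h.neg hy) ⟨0, interior_subset h0int⟩ hle hna hμ0.le hDa.le
    refine Subset.trans ?_ h1
    rintro _ ⟨y, hy, rfl⟩
    have hq : μ / ⟪n, a⟫ ≤ ε' := by rw [div_le_iff₀ hna]; exact hDε
    have hq1 : 0 < 1 - μ / ⟪n, a⟫ := by linarith
    refine ⟨((1 - ε') / (1 - μ / ⟪n, a⟫)) • y, ?_, ?_⟩
    · have := (convex_convexHull ℝ (N : Set (E d))) hy (interior_subset h0int)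
        (a := (1 - ε') / (1 - μ / ⟪n, a⟫)) (b := 1 - (1 - ε') / (1 - μ / ⟪n, a⟫))
        (div_nonneg (by linarith) hq1.le) (by rw [sub_nonneg, div_le_one hq1]; linarith) (by ring)
      simpa using this
    · simp only
      rw [smul_smul, mul_div_cancel₀ _ hq1.ne']
  refine ⟨W, hWb, hsub, fun y hy => hy.1, ?_⟩
  obtain ⟨hball, hok⟩ := hfreq μ hμ0 hDμ
  -- the perturbation
  set x₀ : E d := D • x₁ with hx₀
  set t : ℝ := B / (9 * C ^ 2 * (D ^ d * (2 * Real.pi) ^ d) ^ 2) with ht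
  have hpi := Real.pi_pos
  have ht0 : 0 < t := by positivity
  set co : Ix d × Bool → ℝ := fun p => -sg * b p.1 * kp n a κ μ p.1 p.2 with hco
  set S : Finset (Ix d × Bool) := ixs T a ×ˢ Finset.univ with hS
  set hf : E d → ℝ := fun x => ∑ p ∈ S, co p *
    Real.cos (2 * Real.pi * ⟪x, fq n a κ r μ p.1 p.2⟫ + fs n a r μ ζ p.1 p.2) with hhf
  have hsgabs : |sg| = 1 := by rcases hsg with h | h <;> rw [h] <;> simp
  have hkp : ∀ i b', |kp n a κ μ i b'| ≤ 1 := by
    intro i b'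
    cases b' <;> unfold kp <;> split_ifs <;> simp
  have hfbound : ∀ x, |hf x| ≤ 2 * ∑ i ∈ ixs T a, |b i| := by
    intro x
    rw [hhf]
    refine (Finset.abs_sum_le_sum_abs _ _).trans ?_
    rw [hS, Finset.sum_product, Finset.mul_sum]
    refine Finset.sum_le_sum fun i _ => ?_
    have h1 : ∀ b' : Bool, |co (i, b') *
      Real.cos (2 * Real.pi * ⟪x, fq n a κ r μ i b'⟫ + fs n a r μ ζ i b')| ≤ |b i| := by
      intro b'
      rw [abs_mul, hco]
      simp only
      rw [abs_mul, abs_mul, abs_neg, hsgabs, one_mul]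
      have i1 := hkp i b'
      have i2 := Real.abs_cos_le_one
        (2 * Real.pi * ⟪x, fq n a κ r μ i b'⟫ + fs n a r μ ζ i b')
      have i3 := abs_nonneg (b i)
      calc |b i| * |kp n a κ μ i b'| * _ ≤ |b i| * 1 * 1 := by
            refine mul_le_mul (mul_le_mul_of_nonneg_left i1 i3) i2 (abs_nonneg _) (by positivity)
        _ = |b i| := by ring
    rw [Fintype.sum_bool]
    linarith [h1 true, h1 false]
  have hfar : ∀ x : E d, R < ‖x - x₀‖ →
      0 ≤ Ψ (x - x₀) ^ 2 * (hf x - B / 4) + M * Ψ (x - x₀) := by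
    intro x hx
    have h1 := hR _ hx
    have h2 := (abs_le.1 (hfbound x)).1
    have h3 := hΨ0 (x - x₀)
    have h5 : -H ≤ hf x - B / 4 := by rw [hH]; linarith
    have h4 : -M ≤ Ψ (x - x₀) * (hf x - B / 4) := by
      have := mul_le_mul_of_nonneg_left h5 h3
      linarith
    have h5 := mul_le_mul_of_nonneg_left h4 h3
    rw [sq, mul_assoc]
    linarith
  refine perturb_phase hWb.isCompact hWb.neg_mem hWpos hΨc hΨv1 hΨv2 S
    (fun p => fq n a κ r μ p.1 p.2) co (fun p => fs n a r μ ζ p.1 p.2) (β := B / 4) (M := M)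
    (t := t) ht0 ?_ hball x₀ ?_ ?_ hMint
  · -- frequencies
    intro p hp hcp
    refine hok p.1 (Finset.mem_product.1 hp).1 p.2 fun h0 => hcp ?_
    simp only [hco]
    rw [h0, mul_zero]
  · intro x
    change 0 ≤ cosT W x ^ 2 + t * (Ψ (x - x₀) ^ 2 * (hf x - B / 4) + M * Ψ (x - x₀))
    rcases lt_or_ge R ‖x - x₀‖ with hx | hx
    · have := mul_nonneg ht0.le (hfar x hx)
      have h2 := sq_nonneg (cosT W x)
      linarith
    · obtain ⟨g1, g2, g3⟩ := hl2 x hx
      have g4 := hl3 x hx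
      have hcos := cosT_slab hT h.neg h.ha hμ0 hDa (fun v hv hva => by
        have := hgap v hv hva; linarith) x g1 g2
      set P' : ℝ := D ^ d * ((2 * Real.pi) ^ d * cosT W x) with hP'
      set θ : Ix d → ℝ := fun i => ph x (wv n a μ i) with hθ
      set σ : ℝ := |Real.sin (ph x a + ζ - Real.pi / 2)| with hσ
      have hcore := core (ixs T a) b θ
        (fun i => kp n a κ μ i false * Real.cos (2 * Real.pi * ⟪x, fq n a κ r μ i false⟫ +
          fs n a r μ ζ i false))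
        (fun i => kp n a κ μ i true * Real.cos (2 * Real.pi * ⟪x, fq n a κ r μ i true⟫ +
          fs n a r μ ζ i true))
        (fun i => rm n a κ μ i false) (fun i => rm n a κ μ i true)
        (fun i => if top i = true then 0 else 2 * σ) (α := ph x κ) (S := σ) (B := B) (Y := Y)
        (z := ‖Z‖) (P' := P') (sg := sg) hB hY (abs_nonneg _) hsg
        (fun i _ => osc_false n a κ r μ ζ x i) (fun i _ => osc_true n a κ r μ ζ x i)
        (by
          have e1 : ∀ i ∈ ixs T a, |b i| * (if top i = true then 0 else 2 * σ) =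
              2 * σ * (if top i = false then |b i| else 0) := by
            intro i _
            cases top i <;> simp [mul_comm]
          rw [Finset.sum_congr rfl e1, ← Finset.mul_sum, ← Finset.sum_filter]
          exact mul_le_mul_of_nonneg_left hYs (by positivity))
        (by rw [sum_rm h T n x₁ μ]; exact hBb)
        (by
          refine g4.trans ?_
          have : ∑ i ∈ ixs T a with top i = false, |cc n a x₁ i| ≤ Y := hYs
          linarith)
        hz1 hz2
        (by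
          have e1 : P' = ∑ i ∈ ixs T a, D ^ d * cc n a x i * Real.cos (θ i) := by
            rw [hP', hcos, Finset.mul_sum]
            refine Finset.sum_congr rfl fun i _ => ?_
            rw [mul_assoc]
          rw [e1, ← Finset.sum_sub_distrib]
          refine (Finset.abs_sum_le_sum_abs _ _).trans (le_trans ?_ g3)
          refine Finset.sum_le_sum fun i _ => ?_
          rw [← sub_mul, abs_mul]
          exact mul_le_of_le_one_right (abs_nonneg _) (Real.abs_cos_le_one _))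
      have e2 : -sg * ∑ i ∈ ixs T a, b i *
          (kp n a κ μ i false * Real.cos (2 * Real.pi * ⟪x, fq n a κ r μ i false⟫ +
          fs n a r μ ζ i false) + kp n a κ μ i true * Real.cos (2 * Real.pi *
          ⟪x, fq n a κ r μ i true⟫ + fs n a r μ ζ i true)) = hf x := by
        simp only [hhf, hS, hco]
        rw [Finset.sum_product, Finset.mul_sum]
        refine Finset.sum_congr rfl fun i _ => ?_
        rw [Fintype.sum_bool]
        ring
      rw [e2] at hcore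
      have hψ := hΨ0 (x - x₀)
      have hψ2 : Ψ (x - x₀) ^ 2 ≤ C ^ 2 := pow_le_pow_left₀ hψ (hC _) 2
      have hlow : t * C ^ 2 * (9 / B * P' ^ 2) = cosT W x ^ 2 := by
        rw [ht, hP']
        field_simp
      have h9 : 0 ≤ 9 / B * P' ^ 2 := by positivity
      have h10 : -(9 / B * P' ^ 2) ≤ hf x - B / 4 := by linarith
      have h11 : -(C ^ 2 * (9 / B * P' ^ 2)) ≤ Ψ (x - x₀) ^ 2 * (hf x - B / 4) := by
        have i1 := mul_le_mul_of_nonneg_left h10 (sq_nonneg (Ψ (x - x₀)))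
        have i2 := mul_le_mul_of_nonneg_right hψ2 h9
        linarith
      have h12 : 0 ≤ M * Ψ (x - x₀) := mul_nonneg hM0.le hψ
      have h13 := mul_le_mul_of_nonneg_left h11 ht0.le
      have h14 := mul_nonneg ht0.le h12
      linarith
  · have h1 := hfar 0 (by
      rw [zero_sub, norm_neg, hx₀, norm_smul, Real.norm_eq_abs, abs_of_pos hD0]
      exact hDR)
    simp only [hhf, inner_zero_left, mul_zero, zero_add, zero_sub] at h1
    exact h1

end Pool.Agent.MPbd65ca
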