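import Pool.Agent.Lib.MP_bd65ca_an.Gen.Defs

/-!
# TUR, module NormFacts: facts about strictly convex norms
-/

open MeasureTheory Pointwise Set Filter Topology
open scoped RealInnerProductSpace

namespace Pool.Agent.MPbd65ca

variable {d : ℕ} {ν : E d → ℝ}

namespace SNorm

theorem map_zero (h : SNorm ν) : ν 0 = 0 := by
  have := h.smul 0 0
  simpa using this

theorem map_neg (h : SNorm ν) (x : E d) : ν (-x) = ν x := by
  have := h.smul (-1) x
  simpa using this

theorem nonneg (h : SNorm ν) (x : E d) : 0 ≤ ν x := by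
  obtain ⟨m, hm, hm'⟩ := h.lo
  exact le_trans (by positivity) (hm' x)

theorem sub_le (h : SNorm ν) (x y : E d) : ν x ≤ ν y + ν (x - y) := by
  have := h.add y (x - y)
  simpa using this

theorem continuous (h : SNorm ν) : Continuous ν := by
  obtain ⟨M, hM, hM'⟩ := h.hi
  have hL : LipschitzWith ⟨M, hM.le⟩ ν := by
    refine LipschitzWith.of_dist_le_mul fun x y => ?_
    change |ν x - ν y| ≤ M * dist x y
    rw [dist_eq_norm, abs_le]
    have h1 := h.sub_le x y
    have h2 := h.sub_le y x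
    have h3 := hM' (x - y)
    have h4 := hM' (y - x)
    rw [norm_sub_rev] at h4
    constructor <;> linarith
  exact hL.continuous

theorem exists_unit (h : SNorm ν) {x : E d} (hx : x ≠ 0) :
    0 < ν x ∧ ν ((ν x)⁻¹ • x) = 1 := by
  obtain ⟨m, hm, hm'⟩ := h.lo
  have h0 : 0 < ν x := lt_of_lt_of_le (mul_pos hm (norm_pos_iff.2 hx)) (hm' x)
  refine ⟨h0, ?_⟩
  rw [h.smul, abs_of_pos (inv_pos.2 h0), inv_mul_cancel₀ h0.ne']

/-- Midpoints with far points lie uniformly inside. -/
theorem margin (h : SNorm ν) {κ : E d} (hκ : ν κ = 1) {r₀ : ℝ} (hr : 0 < r₀) :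
    ∃ m > 0, ∀ y, ν y ≤ 1 → r₀ ≤ ‖y - κ‖ → ν ((1 / 2 : ℝ) • (κ + y)) ≤ 1 - m := by
  have hS : IsCompact {y : E d | ν y ≤ 1 ∧ r₀ ≤ ‖y - κ‖} := by
    refine Metric.isCompact_of_isClosed_isBounded ?_ ?_
    · exact (isClosed_le h.continuous continuous_const).inter
        (isClosed_le continuous_const (continuous_id.sub continuous_const).norm)
    · obtain ⟨m, hm, hm'⟩ := h.lo
      rw [isBounded_iff_forall_norm_le]
      refine ⟨m⁻¹, fun y hy => ?_⟩
      have h1 := (hm' y).trans hy.1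
      rw [← one_div, le_div_iff₀ hm]
      linarith
  rcases Set.eq_empty_or_nonempty {y : E d | ν y ≤ 1 ∧ r₀ ≤ ‖y - κ‖} with he | hne
  · refine ⟨1, one_pos, fun y hy1 hy2 => ?_⟩
    have : y ∈ {y : E d | ν y ≤ 1 ∧ r₀ ≤ ‖y - κ‖} := ⟨hy1, hy2⟩
    rw [he] at this
    exact absurd this (Set.notMem_empty y)
  · have hc0 : Continuous fun y : E d => (1 / 2 : ℝ) • (κ + y) := by fun_prop
    have hc : Continuous fun y : E d => ν ((1 / 2 : ℝ) • (κ + y)) := h.continuous.comp hc0
    obtain ⟨y0, hy0, hmax⟩ := hS.exists_isMaxOn hne hc.continuousOn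
    have hne0 : κ ≠ y0 := by
      rintro rfl
      have := hy0.2
      rw [sub_self, norm_zero] at this
      linarith
    have hlt := h.strict κ y0 hκ.le hy0.1 hne0
    refine ⟨1 - ν ((1 / 2 : ℝ) • (κ + y0)), by linarith, fun y hy1 hy2 => ?_⟩
    have h5 : ν ((1 / 2 : ℝ) • (κ + y)) ≤ ν ((1 / 2 : ℝ) • (κ + y0)) :=
      hmax (show y ∈ {y : E d | ν y ≤ 1 ∧ r₀ ≤ ‖y - κ‖} from ⟨hy1, hy2⟩)
    linarith

/-- Every point of the sphere is exposed. -/
theorem expose (h : SNorm ν) {v : E d} (hv : ν v = 1) :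
    ∃ n : E d, ⟪n, v⟫ = 1 ∧ ∀ y, ν y ≤ 1 → y ≠ v → ⟪n, y⟫ < 1 := by
  have hconv : Convex ℝ {y : E d | ν y < 1} := by
    intro x hx y hy a b ha hb hab
    have hx' : ν x < 1 := hx
    have hy' : ν y < 1 := hy
    change ν (a • x + b • y) < 1
    have h1 := h.add (a • x) (b • y)
    rw [h.smul, h.smul, abs_of_nonneg ha, abs_of_nonneg hb] at h1
    have h2 : ν x ≤ max (ν x) (ν y) := le_max_left _ _
    have h3 : ν y ≤ max (ν x) (ν y) := le_max_right _ _
    have h4 : max (ν x) (ν y) < 1 := max_lt hx' hy'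
    have h5 := mul_le_mul_of_nonneg_left h2 ha
    have h6 := mul_le_mul_of_nonneg_left h3 hb
    have h7 : a * max (ν x) (ν y) + b * max (ν x) (ν y) = max (ν x) (ν y) := by
      rw [← add_mul, hab, one_mul]
    linarith
  have hopen : IsOpen {y : E d | ν y < 1} := isOpen_lt h.continuous continuous_const
  have hvC : v ∉ {y : E d | ν y < 1} := fun hlt => absurd (show ν v < 1 from hlt) (by
    rw [hv]
    exact lt_irrefl 1)
  obtain ⟨f, hf⟩ := geometric_hahn_banach_open_point hconv hopen hvC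
  have h0 : (0 : E d) ∈ {y : E d | ν y < 1} := by
    change ν 0 < 1
    rw [h.map_zero]
    exact one_pos
  have hfv : 0 < f v := by
    have := hf 0 h0
    rwa [_root_.map_zero] at this
  have hin : ∀ y, ⟪(f v)⁻¹ • (InnerProductSpace.toDual ℝ (E d)).symm f, y⟫ = (f v)⁻¹ * f y := by
    intro y
    rw [real_inner_smul_left, InnerProductSpace.toDual_symm_apply]
  refine ⟨(f v)⁻¹ • (InnerProductSpace.toDual ℝ (E d)).symm f, ?_, ?_⟩
  · rw [hin, inv_mul_cancel₀ hfv.ne']
  · intro y hy hyv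
    by_contra hcon
    have hcon' : 1 ≤ (f v)⁻¹ * f y := by
      rw [← hin]
      exact not_lt.1 hcon
    have hz := h.strict v y hv.le hy (Ne.symm hyv)
    have h8 := hf _ hz
    rw [map_smul, map_add, smul_eq_mul] at h8
    have h9 : f v ≤ f y := by
      have := mul_le_mul_of_nonneg_left hcon' hfv.le
      rwa [mul_one, mul_inv_cancel_left₀ hfv.ne'] at this
    linarith

end SNorm

end Pool.Agent.MPbd65ca
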