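import Pool.Agent.Lib.MP_bd65ca_an.Gen.SpxCos
import Pool.Agent.Lib.MP_bd65ca_an.Gen.Cap

/-!
# TUR, module Slab: the slabs of the convex hull and their cosine transforms
-/

open MeasureTheory Pointwise Set Filter Topology
open scoped RealInnerProductSpace

namespace Pool.Agent.MPbd65ca

variable {d : ℕ}

theorem inner_le_of_mem_hull {N : Finset (E d)} {n : E d} {c : ℝ} (h : ∀ v ∈ N, ⟪n, v⟫ ≤ c)
    {y : E d} (hy : y ∈ convexHull ℝ (N : Set (E d))) : ⟪n, y⟫ ≤ c := by
  have h1 : Convex ℝ {z : E d | ⟪n, z⟫ ≤ c} :=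
    convex_halfSpace_le (innerSL ℝ n).isBoundedLinearMap.toIsLinearMap c
  have h2 : (N : Set (E d)) ⊆ {z : E d | ⟪n, z⟫ ≤ c} := fun v hv => h v (Finset.mem_coe.mp hv)
  exact convexHull_min h2 h1 hy

theorem neg_mem_hull {N : Finset (E d)} (hneg : ∀ v ∈ N, -v ∈ N) {y : E d}
    (hy : y ∈ convexHull ℝ (N : Set (E d))) : -y ∈ convexHull ℝ (N : Set (E d)) := by
  have h1 : Convex ℝ (-(convexHull ℝ (N : Set (E d)))) := (convex_convexHull ℝ _).neg
  have h2 : (N : Set (E d)) ⊆ -(convexHull ℝ (N : Set (E d))) := by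
    intro v hv
    rw [Set.mem_neg]
    exact subset_convexHull ℝ _ (Finset.mem_coe.mpr (hneg v (Finset.mem_coe.mp hv)))
  exact Set.mem_neg.mp (convexHull_min h2 h1 hy)

namespace SlabAux

theorem isCompact_hull (N : Finset (E d)) : IsCompact (convexHull ℝ (N : Set (E d))) :=
  (Finset.finite_toSet N).isCompact_convexHull ℝ

theorem isClosed_slab' (n : E d) (s : ℝ) : IsClosed {y : E d | |⟪n, y⟫| ≤ s} :=
  isClosed_le (by fun_prop) continuous_const

theorem slab_eq (W : Set (E d)) (n : E d) (s : ℝ) :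
    slab W n s = W ∩ {y : E d | |⟪n, y⟫| ≤ s} := rfl

end SlabAux

open SlabAux in
theorem slab_isBody {N : Finset (E d)} (hneg : ∀ v ∈ N, -v ∈ N)
    (hint : (0 : E d) ∈ interior (convexHull ℝ (N : Set (E d)))) (n : E d) {s : ℝ} (hs : 0 < s) :
    IsBody (slab (convexHull ℝ (N : Set (E d))) n s) := by
  refine ⟨?_, ?_, ?_, ?_⟩
  · rw [slab_eq]
    exact (isCompact_hull N).inter_right (isClosed_slab' n s)
  · rw [slab_eq]
    refine (convex_convexHull ℝ _).inter ?_
    have h1 : {y : E d | |⟪n, y⟫| ≤ s} = {y : E d | ⟪n, y⟫ ≤ s} ∩ {y : E d | -s ≤ ⟪n, y⟫} := by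
      ext y
      simp only [mem_ofPred_eq, mem_inter_iff, abs_le]
      exact and_comm
    rw [h1]
    exact (convex_halfSpace_le (innerSL ℝ n).isBoundedLinearMap.toIsLinearMap s).inter
      (convex_halfSpace_ge (innerSL ℝ n).isBoundedLinearMap.toIsLinearMap (-s))
  · refine ⟨0, ?_⟩
    rw [slab_eq, interior_inter]
    refine ⟨hint, ?_⟩
    rw [mem_interior]
    refine ⟨{y : E d | |⟪n, y⟫| < s}, fun y hy => ?_, ?_, ?_⟩
    · exact le_of_lt (show |⟪n, y⟫| < s from hy)
    · exact isOpen_lt (by fun_prop) continuous_const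
    · simp only [mem_ofPred_eq, inner_zero_right, abs_zero]
      exact hs
  · rintro y ⟨hy, hy'⟩
    refine ⟨neg_mem_hull hneg hy, ?_⟩
    simp only [inner_neg_right, abs_neg]
    exact hy'

theorem smul_subset_slab {W : Set (E d)} (hW : Convex ℝ W) (hneg : ∀ y ∈ W, -y ∈ W)
    (hne : W.Nonempty) {n : E d} {c μ : ℝ} (hc : ∀ y ∈ W, ⟪n, y⟫ ≤ c) (hc0 : 0 < c)
    (hμ : 0 ≤ μ) (hμc : μ ≤ c) : (1 - μ / c) • W ⊆ slab W n (c - μ) := by
  have ht1 : 1 - μ / c ≤ 1 := by
    have : 0 ≤ μ / c := div_nonneg hμ hc0.le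
    linarith
  have ht0 : 0 ≤ 1 - μ / c := by
    have : μ / c ≤ 1 := (div_le_one hc0).mpr hμc
    linarith
  have h0 : (0 : E d) ∈ W := by
    obtain ⟨y, hy⟩ := hne
    have := hW hy (hneg y hy) (by norm_num : (0 : ℝ) ≤ 1 / 2) (by norm_num : (0 : ℝ) ≤ 1 / 2)
      (by norm_num)
    rwa [smul_neg, add_neg_cancel] at this
  rintro z ⟨y, hy, rfl⟩
  refine ⟨hW.smul_mem_of_zero_mem h0 hy ⟨ht0, ht1⟩, ?_⟩
  have h1 : |⟪n, y⟫| ≤ c := by
    rw [abs_le]
    have h2 := hc _ (hneg y hy)
    rw [inner_neg_right] at h2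
    exact ⟨by linarith, hc y hy⟩
  simp only [real_inner_smul_right]
  rw [abs_mul, abs_of_nonneg ht0]
  calc (1 - μ / c) * |⟪n, y⟫| ≤ (1 - μ / c) * c := mul_le_mul_of_nonneg_left h1 ht0
    _ = c - μ := by field_simp

namespace SlabAux

/-- the integral over the hull is the sum of the integrals over the simplices -/
theorem integral_hull {N : Finset (E d)} {T : Finset (Fin d → E d)} (hT : Tri N T)
    {S : Set (E d)} (hS : MeasurableSet S) {g : E d → ℝ} (hg : Continuous g) :
    ∫ y in convexHull ℝ (N : Set (E d)) ∩ S, g y = ∑ F ∈ T, ∫ y in spx 0 F ∩ S, g y := by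
  classical
  have hWm : MeasurableSet (convexHull ℝ (N : Set (E d))) := (isCompact_hull N).measurableSet
  have hFm : ∀ F : Fin d → E d, MeasurableSet (spx 0 F) := fun F =>
    (isCompact_spx 0 F).measurableSet
  rw [← integral_indicator (hWm.inter hS)]
  have h1 : ∀ F : Fin d → E d, ∫ y in spx 0 F ∩ S, g y = ∫ y, (spx 0 F ∩ S).indicator g y :=
    fun F => (integral_indicator ((hFm F).inter hS)).symm
  rw [Finset.sum_congr rfl fun F _ => h1 F]
  rw [← integral_finsetSum]
  · refine integral_congr_ae ?_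
    filter_upwards [hT.ind] with y hy
    have e : ∀ A : Set (E d), (A ∩ S).indicator g y
        = A.indicator (fun _ => (1 : ℝ)) y * S.indicator g y := by
      intro A
      by_cases hA : y ∈ A <;> by_cases hS' : y ∈ S <;> simp [hA, hS']
    rw [e, hy, Finset.sum_mul]
    exact Finset.sum_congr rfl fun F _ => (e _).symm
  · intro F _
    rw [integrable_indicator_iff ((hFm F).inter hS)]
    exact (hg.continuousOn.integrableOn_compact (isCompact_spx 0 F)).mono_set inter_subset_left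

/-- hyperplanes are null sets -/
theorem volume_level {n : E d} (hn : n ≠ 0) (c : ℝ) : volume {y : E d | ⟪n, y⟫ = c} = 0 := by
  set K : Submodule ℝ (E d) := LinearMap.ker (innerSL ℝ n : E d →ₗ[ℝ] ℝ) with hK
  have hKt : K ≠ ⊤ := by
    intro h
    have h1 : n ∈ K := by
      rw [h]
      exact Submodule.mem_top
    rw [hK, LinearMap.mem_ker] at h1
    have h2 : ⟪n, n⟫ = 0 := h1
    exact hn (inner_self_eq_zero.mp h2)
  have h0 : volume (K : Set (E d)) = 0 := Measure.addHaar_submodule volume K hKt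
  set y0 : E d := (c / ⟪n, n⟫) • n with hy0
  have hnn : ⟪n, n⟫ ≠ 0 := fun h => hn (inner_self_eq_zero.mp h)
  have h1 : {y : E d | ⟪n, y⟫ = c} = (fun y => y + -y0) ⁻¹' (K : Set (E d)) := by
    ext y
    simp only [mem_ofPred_eq, mem_preimage, SetLike.mem_coe, hK, LinearMap.mem_ker]
    have h2 : (innerSL ℝ n : E d →ₗ[ℝ] ℝ) (y + -y0) = ⟪n, y⟫ - c := by
      change ⟪n, y + -y0⟫ = _
      rw [inner_add_right, inner_neg_right, hy0, real_inner_smul_right, div_mul_cancel₀ _ hnn]
      ring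
    rw [h2, sub_eq_zero]
  rw [h1, measure_preimage_add_right, h0]

end SlabAux

open SlabAux in
theorem cosT_slab {N : Finset (E d)} {T : Finset (Fin d → E d)} (hT : Tri N T)
    (hneg : ∀ v ∈ N, -v ∈ N) {n a : E d} (ha : a ∈ N) {μ : ℝ} (hμ : 0 < μ) (hμa : μ < ⟪n, a⟫)
    (hμ' : ∀ v ∈ N, v ≠ a → ⟪n, v⟫ < ⟪n, a⟫ - μ) (x : E d) (hg : ∀ F ∈ T, good F x)
    (hg' : ∀ F ∈ Ta T a, good (gv n a F) x) :
    (2 * Real.pi) ^ d * cosT (slab (convexHull ℝ (N : Set (E d))) n (⟪n, a⟫ - μ)) x =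
      ∑ i ∈ ixs T a, cc n a x i * Real.cos (ph x (wv n a μ i)) := by
  classical
  set W : Set (E d) := convexHull ℝ (N : Set (E d)) with hW
  set c : ℝ := ⟪n, a⟫ - μ with hc
  have hc0 : 0 < c := by rw [hc]; linarith
  have hn : n ≠ 0 := by
    rintro rfl
    rw [inner_zero_left] at hμa
    linarith
  set g : E d → ℝ := fun y => Real.cos (2 * Real.pi * ⟪x, y⟫) with hgdef
  have hgc : Continuous g := by
    rw [hgdef]
    fun_prop
  have hWc : IsCompact W := isCompact_hull N
  have hWm : MeasurableSet W := hWc.measurableSet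
  have hgW : IntegrableOn g W := hgc.continuousOn.integrableOn_compact hWc
  have hWneg : ∀ y ∈ W, -y ∈ W := fun y hy => neg_mem_hull hneg hy
  -- the two caps
  set P : Set (E d) := W ∩ {y : E d | c < ⟪n, y⟫} with hP
  set M : Set (E d) := W ∩ {y : E d | ⟪n, y⟫ < -c} with hM
  have hPm : MeasurableSet P := hWm.inter (isOpen_lt continuous_const (by fun_prop)).measurableSet
  have hMm : MeasurableSet M := hWm.inter (isOpen_lt (by fun_prop) continuous_const).measurableSet
  have hSm : MeasurableSet (slab W n c) := by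
    rw [slab_eq]
    exact hWm.inter (isClosed_slab' n c).measurableSet
  have hdec : W = slab W n c ∪ (P ∪ M) := by
    ext y
    constructor
    · intro hy
      by_cases h1 : |⟪n, y⟫| ≤ c
      · exact Or.inl ⟨hy, h1⟩
      · right
        rw [not_le, lt_abs] at h1
        rcases h1 with h1 | h1
        · exact Or.inl ⟨hy, h1⟩
        · refine Or.inr ⟨hy, ?_⟩
          have : ⟪n, y⟫ < -c := by linarith
          exact this
    · rintro (h | h | h)
      · exact h.1
      · exact h.1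
      · exact h.1
  have hd1 : Disjoint (slab W n c) (P ∪ M) := by
    rw [Set.disjoint_left]
    rintro y ⟨_, h1⟩ (⟨_, h2⟩ | ⟨_, h2⟩)
    · have h3 : c < ⟪n, y⟫ := h2
      have := (abs_le.mp h1).2
      linarith
    · have h3 : ⟪n, y⟫ < -c := h2
      have := (abs_le.mp h1).1
      linarith
  have hd2 : Disjoint P M := by
    rw [Set.disjoint_left]
    rintro y ⟨_, h2⟩ ⟨_, h3⟩
    have h2' : c < ⟪n, y⟫ := h2
    have h3' : ⟪n, y⟫ < -c := h3
    linarith
  have hsub1 : slab W n c ⊆ W := fun y hy => hy.1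
  have hsub2 : P ⊆ W := fun y hy => hy.1
  have hsub3 : M ⊆ W := fun y hy => hy.1
  have hI : ∫ y in W, g y = (∫ y in slab W n c, g y) + ((∫ y in P, g y) + ∫ y in M, g y) := by
    conv_lhs => rw [hdec]
    rw [setIntegral_union hd1 (hPm.union hMm) (hgW.mono_set hsub1)
      (hgW.mono_set (union_subset hsub2 hsub3)),
      setIntegral_union hd2 hMm (hgW.mono_set hsub2) (hgW.mono_set hsub3)]
  -- the caps are exchanged by the reflection
  have hPM : ∫ y in M, g y = ∫ y in P, g y := by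
    have h := (Measure.measurePreserving_neg (volume : Measure (E d))).setIntegral_preimage_emb
      (MeasurableEquiv.neg (E d)).measurableEmbedding g P
    have h2 : (Neg.neg : E d → E d) ⁻¹' P = M := by
      ext y
      constructor
      · rintro ⟨h3, h4⟩
        have h5 := hWneg _ h3
        rw [neg_neg] at h5
        refine ⟨h5, ?_⟩
        have h6 : c < ⟪n, -y⟫ := h4
        rw [inner_neg_right] at h6
        have : ⟪n, y⟫ < -c := by linarith
        exact this
      · rintro ⟨h3, h4⟩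
        refine ⟨hWneg _ h3, ?_⟩
        have h6 : ⟪n, y⟫ < -c := h4
        have : c < ⟪n, -y⟫ := by
          rw [inner_neg_right]
          linarith
        exact this
    rw [h2] at h
    rw [← h]
    refine setIntegral_congr_fun hMm fun y _ => ?_
    rw [hgdef]
    simp only [inner_neg_right, mul_neg, Real.cos_neg]
  -- the open cap and the closed cap
  have hPP : ∫ y in P, g y = ∫ y in W ∩ {y : E d | c ≤ ⟪n, y⟫}, g y := by
    refine setIntegral_congr_set ?_
    have h0 := volume_level hn c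
    have h1 : ∀ᵐ y : E d, ⟪n, y⟫ ≠ c := by
      rw [ae_iff]
      simpa using h0
    filter_upwards [h1] with y hy
    apply propext
    constructor
    · rintro ⟨h3, h4⟩
      exact ⟨h3, le_of_lt (show c < ⟪n, y⟫ from h4)⟩
    · rintro ⟨h3, h4⟩
      exact ⟨h3, lt_of_le_of_ne (show c ≤ ⟪n, y⟫ from h4) (Ne.symm hy)⟩
  have hle : MeasurableSet {y : E d | c ≤ ⟪n, y⟫} :=
    (isClosed_le continuous_const (by fun_prop)).measurableSet
  -- the sums over the simplices
  have hWsum : ∫ y in W, g y = ∑ F ∈ T, ∫ y in spx 0 F, g y := by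
    have := integral_hull hT MeasurableSet.univ hgc
    simpa only [inter_univ] using this
  have hPsum : ∫ y in W ∩ {y : E d | c ≤ ⟪n, y⟫}, g y
      = ∑ F ∈ Ta T a, ∫ y in spx a (fun k => μ • gv n a F k), g y := by
    rw [integral_hull hT hle hgc]
    have hTa : Ta T a ⊆ T := fun F hF => (mem_Ta.mp hF).1
    rw [← Finset.sum_subset hTa]
    · refine Finset.sum_congr rfl fun F hF => ?_
      have hF' := mem_Ta.mp hF
      have e := cap_eq (n := n) (hT.li F hF'.1) hF'.2 hμ hμa.le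
        (fun k hk => (hμ' _ (hT.mem F hF'.1 k) hk).le)
      have e' : spx 0 F ∩ {y : E d | c ≤ ⟪n, y⟫} = {y ∈ spx 0 F | ⟪n, a⟫ - μ ≤ ⟪n, y⟫} := rfl
      rw [e', e]
    · intro F hF hFa
      have h1 : ∀ k, F k ≠ a := fun k hk => hFa (mem_Ta.mpr ⟨hF, k, hk⟩)
      have e := cap_empty (n := n) (F := F) hμa (fun k => hμ' _ (hT.mem F hF k) (h1 k))
      have e' : spx 0 F ∩ {y : E d | c ≤ ⟪n, y⟫} = {y ∈ spx 0 F | ⟪n, a⟫ - μ ≤ ⟪n, y⟫} := rfl
      rw [e', e, setIntegral_empty]
  -- conclusion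
  have hmain : cosT (slab W n c) x = (∑ F ∈ T, ∫ y in spx 0 F, g y)
      - 2 * ∑ F ∈ Ta T a, ∫ y in spx a (fun k => μ • gv n a F k), g y := by
    have h1 : cosT (slab W n c) x = ∫ y in slab W n c, g y := rfl
    rw [h1, ← hWsum, ← hPsum, ← hPP, hI, hPM]
    ring
  have hpi : (2 * Real.pi) ^ d ≠ 0 := pow_ne_zero _ (by positivity)
  have hA : ∀ F ∈ T, ∫ y in spx 0 F, g y
      = ((2 * Real.pi) ^ d)⁻¹ * ∑ o, cf F x o * Real.cos (ph x (vt 0 F o)) := fun F hF =>
    spx_cos 0 F (hT.li F hF) x (hg F hF)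
  have hB : ∀ F ∈ Ta T a, ∫ y in spx a (fun k => μ • gv n a F k), g y
      = ((2 * Real.pi) ^ d)⁻¹ *
        ∑ o, cf (gv n a F) x o * Real.cos (ph x (vt a (fun k => μ • gv n a F k) o)) := by
    intro F hF
    have hF' := mem_Ta.mp hF
    have hli : LinearIndependent ℝ (gv n a F) := by
      refine gv_li (hT.li F hF'.1) hF'.2 (by linarith) fun k hk => ?_
      have := hμ' _ (hT.mem F hF'.1 k) hk
      linarith
    have hli' : LinearIndependent ℝ (fun k => μ • gv n a F k) := by
      have := hli.units_smul (fun _ => Units.mk0 μ hμ.ne')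
      exact this
    rw [spx_cos a _ hli' x (good_smul_left hμ.ne' (hg' F hF))]
    congr 1
    refine Finset.sum_congr rfl fun o _ => ?_
    rw [cf_smul_left (gv n a F) hμ x o]
  rw [hmain, Finset.sum_congr rfl hA, Finset.sum_congr rfl hB, ← Finset.mul_sum, ← Finset.mul_sum]
  rw [mul_sub, ← mul_assoc, mul_inv_cancel₀ hpi, one_mul]
  have e2 : (2 * Real.pi) ^ d * (2 * (((2 * Real.pi) ^ d)⁻¹ *
      ∑ F ∈ Ta T a, ∑ o, cf (gv n a F) x o *
        Real.cos (ph x (vt a (fun k => μ • gv n a F k) o))))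
      = 2 * ∑ F ∈ Ta T a, ∑ o, cf (gv n a F) x o *
        Real.cos (ph x (vt a (fun k => μ • gv n a F k) o)) := by
    field_simp
  rw [e2, ixs, Finset.sum_disjSum, Finset.sum_product, Finset.sum_product, sub_eq_add_neg]
  congr 1
  rw [Finset.mul_sum, ← Finset.sum_neg_distrib]
  refine Finset.sum_congr rfl fun F _ => ?_
  rw [Finset.mul_sum, ← Finset.sum_neg_distrib]
  refine Finset.sum_congr rfl fun o _ => ?_
  change _ = -2 * cf (gv n a F) x o * Real.cos (ph x (vt a (fun k => μ • gv n a F k) o))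
  ring

end Pool.Agent.MPbd65ca
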