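import Pool.Agent.Lib.MP_bd65ca_an.Gen.Basic

/-!
# TUR, module Spx: integration over a simplex by the affine parametrization
-/

open MeasureTheory Pointwise Set Filter Topology
open scoped RealInnerProductSpace

namespace Pool.Agent.MPbd65ca

variable {d : ℕ}

namespace SpxAux

/-- The linear map `e ↦ ∑ k, e k • u k`. -/
noncomputable def lin (u : Fin d → E d) : E d →L[ℝ] E d :=
  LinearMap.toContinuousLinearMap
    { toFun := fun e => ∑ k, e k • u k
      map_add' := by
        intro x y
        simp only [PiLp.add_apply, add_smul, Finset.sum_add_distrib]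
      map_smul' := by
        intro c x
        simp only [PiLp.smul_apply, smul_eq_mul, mul_smul, Finset.smul_sum, RingHom.id_apply] }

theorem lin_apply (u : Fin d → E d) (e : E d) : lin u e = ∑ k, e k • u k := rfl

theorem det_lin (u : Fin d → E d) : |(lin u).det| = vdet u := by
  have h1 : (lin u).det = LinearMap.det (lin u : E d →ₗ[ℝ] E d) := rfl
  rw [h1, ← LinearMap.det_toMatrix (EuclideanSpace.basisFun (Fin d) ℝ).toBasis]
  unfold vdet
  rw [← Matrix.det_transpose]
  congr 2
  ext i j
  rw [Matrix.transpose_apply, LinearMap.toMatrix_apply]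
  simp only [OrthonormalBasis.coe_toBasis, Matrix.of_apply]
  rw [OrthonormalBasis.coe_toBasis_repr_apply]
  simp [lin_apply]

theorem lin_inj {u : Fin d → E d} (hu : LinearIndependent ℝ u) : Function.Injective (lin u) := by
  intro x y h
  rw [lin_apply, lin_apply] at h
  have h2 : ∑ k, (x k - y k) • u k = 0 := by
    simp only [sub_smul, Finset.sum_sub_distrib, h, sub_self]
  have h3 := Fintype.linearIndependent_iff.1 hu _ h2
  ext k
  exact sub_eq_zero.1 (h3 k)

end SpxAux

theorem integral_spx (p : E d) (u : Fin d → E d) (hu : LinearIndependent ℝ u) (f : E d → ℂ) :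
    ∫ y in spx p u, f y = vdet u * ∫ t in stdS d 1, f (p + ∑ k, t k • u k) := by
  have hS : MeasurableSet (stdS d 1) := (isCompact_stdS d 1).isClosed.measurableSet
  have hmp := PiLp.volume_preserving_ofLp (Fin d)
  set S : Set (E d) := (fun e : E d => (fun k => e k : Fin d → ℝ)) ⁻¹' stdS d 1 with hSdef
  have hSm : MeasurableSet S := hmp.measurable hS
  have himg : spx p u = (fun e => p + SpxAux.lin u e) '' S := by
    ext y
    constructor
    · rintro ⟨t, ht, rfl⟩
      exact ⟨WithLp.toLp 2 t, ht, rfl⟩
    · rintro ⟨e, he, rfl⟩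
      exact ⟨fun k => e k, he, rfl⟩
  have hinj : InjOn (fun e => p + SpxAux.lin u e) S := by
    intro x _ y _ h
    exact SpxAux.lin_inj hu (add_left_cancel h)
  have hder : ∀ x ∈ S, HasFDerivWithinAt (fun e => p + SpxAux.lin u e) (SpxAux.lin u) S x := by
    intro x _
    exact ((SpxAux.lin u).hasFDerivAt.const_add p).hasFDerivWithinAt
  rw [himg, integral_image_eq_integral_abs_det_fderiv_smul volume hSm hder hinj f]
  rw [SpxAux.det_lin, integral_smul]
  have h2 : ∫ x in S, f (p + SpxAux.lin u x) =
      ∫ t in stdS d 1, f (p + ∑ k, t k • u k) := by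
    have he : MeasurableEmbedding (@WithLp.ofLp 2 (Fin d → ℝ)) :=
      (MeasurableEquiv.toLp 2 (Fin d → ℝ)).symm.measurableEmbedding
    exact hmp.setIntegral_preimage_emb he (fun t => f (p + ∑ k, t k • u k)) (stdS d 1)
  rw [h2]
  rfl

end Pool.Agent.MPbd65ca
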