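import Pool.Agent.Lib.MP_bd65ca_an.Gen.Defs

/-!
# TUR, module StdInt: the exponential integral over the standard simplex
-/

open MeasureTheory Pointwise Set Filter Topology
open scoped RealInnerProductSpace

namespace Pool.Agent.MPbd65ca

variable {d : ℕ}

namespace StdIntAux

theorem prod_erase_ite {ι : Type} [Fintype ι] [DecidableEq ι] (i : ι) (g : ι → ℂ) :
    ∏ j ∈ Finset.univ.erase i, g j = ∏ j, if j = i then 1 else g j := by
  rw [← Finset.prod_erase (a := i) Finset.univ (f := fun j => if j = i then 1 else g j) (by simp)]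
  refine Finset.prod_congr rfl fun j hj => ?_
  rw [if_neg (Finset.ne_of_mem_erase hj)]

/-- partial fractions -/
theorem pf_gen {ι : Type} [Fintype ι] [DecidableEq ι] [Nonempty ι] (v : ι → ℂ)
    (hv : Function.Injective v) (x : ℂ) (hx : ∀ i, x ≠ v i) :
    (∏ i, (x - v i))⁻¹ = ∑ i, ((x - v i) * ∏ j ∈ Finset.univ.erase i, (v i - v j))⁻¹ := by
  have h1 := Lagrange.sum_basis (s := Finset.univ) (v := v) hv.injOn Finset.univ_nonempty
  have h2 := congrArg (Polynomial.eval x) h1
  rw [Polynomial.eval_finsetSum, Polynomial.eval_one] at h2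
  have h3 : ∀ i, Polynomial.eval x (Lagrange.basis Finset.univ v i) =
      (∏ j, (x - v j)) * ((x - v i) * ∏ j ∈ Finset.univ.erase i, (v i - v j))⁻¹ := by
    intro i
    rw [Lagrange.basis, Polynomial.eval_prod, ← Finset.mul_prod_erase Finset.univ (fun j => x - v j)
      (Finset.mem_univ i), mul_inv]
    have h4 : ∏ j ∈ Finset.univ.erase i, Polynomial.eval x (Lagrange.basisDivisor (v i) (v j)) =
        (∏ j ∈ Finset.univ.erase i, (x - v j)) * (∏ j ∈ Finset.univ.erase i, (v i - v j))⁻¹ := by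
      rw [← Finset.prod_inv_distrib, ← Finset.prod_mul_distrib]
      refine Finset.prod_congr rfl fun j _ => ?_
      simp [Lagrange.basisDivisor, mul_comm]
    rw [h4]
    have h5 : x - v i ≠ 0 := sub_ne_zero.mpr (hx i)
    field_simp
  rw [Finset.sum_congr rfl fun i _ => h3 i, ← Finset.mul_sum] at h2
  exact (eq_inv_of_mul_eq_one_right h2).symm

/-- the partial fraction identity with the node `0` -/
theorem pf (z : Fin d → ℂ) (hz : ∀ k, z k ≠ 0) (hz' : Function.Injective z) (x : ℂ) (hx : x ≠ 0)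
    (hxz : ∀ k, x ≠ z k) :
    (x * ∏ l, (x - z l))⁻¹ = (x * ∏ l, -z l)⁻¹ +
      ∑ k, ((x - z k) * (z k * ∏ l ∈ Finset.univ.erase k, (z k - z l)))⁻¹ := by
  classical
  have h := pf_gen (ι := Option (Fin d)) (fun o => o.elim 0 z) ?_ x ?_
  · rw [Fintype.prod_option, Fintype.sum_option] at h
    simp only [Option.elim_none, Option.elim_some, sub_zero] at h
    rw [h]
    congr 1
    · rw [prod_erase_ite, Fintype.prod_option]
      simp
    · refine Finset.sum_congr rfl fun k _ => ?_
      rw [prod_erase_ite, Fintype.prod_option, prod_erase_ite]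
      simp
  · intro a b hab
    rcases a with _ | a <;> rcases b with _ | b
    · rfl
    · exact absurd hab.symm (hz b)
    · exact absurd hab (hz a)
    · exact congrArg some (hz' hab)
  · intro o
    rcases o with _ | k
    · exact hx
    · exact hxz k

theorem isClosed_stdS (d : ℕ) (s : ℝ) : IsClosed (stdS d s) := by
  have h : stdS d s = (⋂ k, {t : Fin d → ℝ | 0 ≤ t k}) ∩ {t | ∑ k, t k ≤ s} := by
    ext t
    simp [stdS]
  rw [h]
  refine IsClosed.inter (isClosed_iInter fun k => ?_) ?_
  · exact isClosed_le continuous_const (continuous_apply k)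
  · exact isClosed_le (continuous_finsetSum _ fun k _ => continuous_apply k) continuous_const

theorem isCompact_stdS (d : ℕ) (s : ℝ) : IsCompact (stdS d s) := by
  refine (isCompact_univ_pi (s := fun _ : Fin d => Set.Icc (0 : ℝ) s)
    (fun _ => isCompact_Icc)).of_isClosed_subset (isClosed_stdS d s) ?_
  intro t ht k _
  refine ⟨ht.1 k, le_trans ?_ ht.2⟩
  exact Finset.single_le_sum (fun i _ => ht.1 i) (Finset.mem_univ k)

theorem mem_stdS_succ (s t : ℝ) (t' : Fin d → ℝ) :
    (Fin.cons t t' : Fin (d + 1) → ℝ) ∈ stdS (d + 1) s ↔ 0 ≤ t ∧ t' ∈ stdS d (s - t) := by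
  simp only [stdS, Set.mem_ofPred_eq, Fin.forall_fin_succ, Fin.cons_zero, Fin.cons_succ,
    Fin.sum_univ_succ]
  constructor
  · rintro ⟨⟨h1, h2⟩, h3⟩
    exact ⟨h1, h2, by linarith⟩
  · rintro ⟨h1, h2, h3⟩
    exact ⟨⟨h1, h2⟩, by linarith⟩

theorem cont_exp (z : Fin d → ℂ) :
    Continuous (fun t : Fin d → ℝ => Complex.exp (∑ k, (t k : ℂ) * z k)) := by
  fun_prop

/-- Fubini -/
theorem fubini (z : Fin (d + 1) → ℂ) {s : ℝ} (hs : 0 ≤ s) :
    ∫ t in stdS (d + 1) s, Complex.exp (∑ k, (t k : ℂ) * z k) =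
      ∫ t in (0 : ℝ)..s, Complex.exp (z 0 * t) *
        ∫ t' in stdS d (s - t), Complex.exp (∑ k, (t' k : ℂ) * z k.succ) := by
  obtain ⟨f, hf⟩ : ∃ f : (Fin (d + 1) → ℝ) → ℂ, f = (stdS (d + 1) s).indicator
      (fun t => Complex.exp (∑ k, (t k : ℂ) * z k)) := ⟨_, rfl⟩
  have hint : Integrable f volume := by
    rw [hf, integrable_indicator_iff (isClosed_stdS (d + 1) s).measurableSet]
    exact (cont_exp z).continuousOn.integrableOn_compact (isCompact_stdS (d + 1) s)
  have hmp := (volume_preserving_piFinSuccAbove (fun _ : Fin (d + 1) => ℝ) 0).symm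
  have h1 : ∫ t in stdS (d + 1) s, Complex.exp (∑ k, (t k : ℂ) * z k) =
      ∫ p : ℝ × (Fin d → ℝ), f ((MeasurableEquiv.piFinSuccAbove (fun _ : Fin (d + 1) => ℝ) 0).symm p)
      := by
    rw [MeasurePreserving.integral_comp' hmp f, hf,
      integral_indicator (isClosed_stdS (d + 1) s).measurableSet]
  have hcons : ∀ p : ℝ × (Fin d → ℝ),
      (MeasurableEquiv.piFinSuccAbove (fun _ : Fin (d + 1) => ℝ) 0).symm p =
        (Fin.cons p.1 p.2 : Fin (d + 1) → ℝ) := by
    intro p
    funext k
    refine Fin.cases ?_ (fun k => ?_) k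
    · rfl
    · rfl
  have hint2 : Integrable (fun p : ℝ × (Fin d → ℝ) =>
      f ((MeasurableEquiv.piFinSuccAbove (fun _ : Fin (d + 1) => ℝ) 0).symm p)) volume :=
    (hmp.integrable_comp_emb (MeasurableEquiv.measurableEmbedding _)).mpr hint
  rw [h1]
  change ∫ p : ℝ × (Fin d → ℝ), f ((MeasurableEquiv.piFinSuccAbove (fun _ : Fin (d + 1) => ℝ)
    0).symm p) ∂(volume.prod volume) = _
  rw [integral_prod _ hint2, intervalIntegral.integral_of_le hs, ← integral_Icc_eq_integral_Ioc,
    ← integral_indicator measurableSet_Icc]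
  refine integral_congr_ae (Filter.Eventually.of_forall fun t => ?_)
  simp only
  by_cases ht : t ∈ Set.Icc (0 : ℝ) s
  · rw [Set.indicator_of_mem ht, ← integral_const_mul,
      ← integral_indicator (isClosed_stdS d (s - t)).measurableSet]
    refine integral_congr_ae (Filter.Eventually.of_forall fun t' => ?_)
    simp only
    rw [hcons, hf]
    by_cases ht' : t' ∈ stdS d (s - t)
    · rw [Set.indicator_of_mem ht', Set.indicator_of_mem ((mem_stdS_succ s t t').mpr ⟨ht.1, ht'⟩),
        ← Complex.exp_add, Fin.sum_univ_succ]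
      simp only [Fin.cons_zero, Fin.cons_succ]
      rw [mul_comm (t : ℂ)]
    · rw [Set.indicator_of_notMem ht', Set.indicator_of_notMem]
      intro hc
      exact ht' ((mem_stdS_succ s t t').mp hc).2
  · rw [Set.indicator_of_notMem ht]
    have h0 : ∀ t' : Fin d → ℝ,
        f ((MeasurableEquiv.piFinSuccAbove (fun _ : Fin (d + 1) => ℝ) 0).symm (t, t')) = 0 := by
      intro t'
      rw [hcons, hf, Set.indicator_of_notMem]
      intro hc
      have h2 := (mem_stdS_succ s t t').mp hc
      apply ht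
      refine ⟨h2.1, ?_⟩
      have h3 : 0 ≤ ∑ k, t' k := Finset.sum_nonneg fun k _ => h2.2.1 k
      have h4 := h2.2.2
      linarith
    simp only [h0, integral_zero]

/-- the one-dimensional integral -/
theorem one_dim (z : Fin d → ℂ) (x : ℂ) (hx : x ≠ 0) (hxz : ∀ k, x ≠ z k) (s : ℝ) (A : ℂ)
    (C : Fin d → ℂ) :
    ∫ t in (0 : ℝ)..s, Complex.exp (x * t) * (A + ∑ k, Complex.exp (((s - t : ℝ) : ℂ) * z k) * C k) =
      A * ((Complex.exp (x * s) - 1) / x) +
        ∑ k, C k * ((Complex.exp (x * s) - Complex.exp (s * z k)) / (x - z k)) := by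
  have h1 : ∀ t : ℝ, Complex.exp (x * t) *
      (A + ∑ k, Complex.exp (((s - t : ℝ) : ℂ) * z k) * C k) =
      A * Complex.exp (x * t) +
        ∑ k, (C k * Complex.exp (s * z k)) * Complex.exp ((x - z k) * t) := by
    intro t
    rw [mul_add, Finset.mul_sum, mul_comm _ A]
    congr 1
    refine Finset.sum_congr rfl fun k _ => ?_
    have h2 : Complex.exp (x * t) * (Complex.exp (((s - t : ℝ) : ℂ) * z k) * C k) =
        C k * (Complex.exp (x * t) * Complex.exp (((s - t : ℝ) : ℂ) * z k)) := by ring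
    have h3 : C k * Complex.exp (s * z k) * Complex.exp ((x - z k) * t) =
        C k * (Complex.exp (s * z k) * Complex.exp ((x - z k) * t)) := by ring
    rw [h2, h3, ← Complex.exp_add, ← Complex.exp_add]
    congr 2
    push_cast
    ring
  rw [intervalIntegral.integral_congr (g := fun t : ℝ => A * Complex.exp (x * t) +
    ∑ k, (C k * Complex.exp (s * z k)) * Complex.exp ((x - z k) * t)) (fun t _ => h1 t)]
  rw [intervalIntegral.integral_add, intervalIntegral.integral_const_mul,
    intervalIntegral.integral_finsetSum, integral_exp_mul_complex hx]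
  · congr 1
    · simp
    · refine Finset.sum_congr rfl fun k _ => ?_
      rw [intervalIntegral.integral_const_mul,
        integral_exp_mul_complex (sub_ne_zero.mpr (hxz k))]
      have h4 : Complex.exp (s * z k) * Complex.exp ((x - z k) * s) = Complex.exp (x * s) := by
        rw [← Complex.exp_add]
        congr 1
        ring
      have h5 : C k * Complex.exp (s * z k) * ((Complex.exp ((x - z k) * s) -
          Complex.exp ((x - z k) * ((0 : ℝ) : ℂ))) / (x - z k)) =
          C k * ((Complex.exp (s * z k) * Complex.exp ((x - z k) * s) -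
            Complex.exp (s * z k) * Complex.exp ((x - z k) * ((0 : ℝ) : ℂ))) / (x - z k)) := by
        ring
      rw [h5, h4]
      simp
  · intro k _
    exact Continuous.intervalIntegrable (by fun_prop) _ _
  · exact Continuous.intervalIntegrable (by fun_prop) _ _
  · exact Continuous.intervalIntegrable (by fun_prop) _ _

end StdIntAux

theorem integral_stdS (z : Fin d → ℂ) (hz : ∀ k, z k ≠ 0) (hz' : Function.Injective z)
    {s : ℝ} (hs : 0 ≤ s) :
    ∫ t in stdS d s, Complex.exp (∑ k, (t k : ℂ) * z k) =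
      (∏ k, -z k)⁻¹ + ∑ k, Complex.exp (s * z k) *
        (z k * ∏ l ∈ Finset.univ.erase k, (z k - z l))⁻¹ := by
  induction d generalizing s with
  | zero =>
    have h1 : stdS 0 s = Set.univ := by
      ext t
      simp [stdS, hs]
    have h2 : (volume : Measure (Fin 0 → ℝ)) = Measure.dirac (fun i => i.elim0) := by
      rw [volume_pi, Measure.pi_of_empty]
      congr 1
    rw [h1, Measure.restrict_univ, h2]
    simp
  | succ d ih =>
    have hx : z 0 ≠ 0 := hz 0
    have hxz : ∀ k : Fin d, z 0 ≠ z k.succ := by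
      intro k h
      exact absurd (hz' h) (Fin.succ_ne_zero k).symm
    have hzs : ∀ k : Fin d, z k.succ ≠ 0 := fun k => hz _
    have hzs' : Function.Injective (fun k : Fin d => z k.succ) :=
      hz'.comp (Fin.succ_injective d)
    rw [StdIntAux.fubini z hs]
    have h1 : ∫ t in (0 : ℝ)..s, Complex.exp (z 0 * t) *
        ∫ t' in stdS d (s - t), Complex.exp (∑ k, (t' k : ℂ) * z k.succ) =
        ∫ t in (0 : ℝ)..s, Complex.exp (z 0 * t) * ((∏ k : Fin d, -z k.succ)⁻¹ +
          ∑ k : Fin d, Complex.exp (((s - t : ℝ) : ℂ) * z k.succ) *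
            (z k.succ * ∏ l ∈ Finset.univ.erase k, (z k.succ - z l.succ))⁻¹) := by
      refine intervalIntegral.integral_congr fun t ht => ?_
      rw [Set.uIcc_of_le hs] at ht
      rw [ih (fun k : Fin d => z k.succ) hzs hzs' (sub_nonneg.mpr ht.2)]
    rw [h1, StdIntAux.one_dim (fun k : Fin d => z k.succ) (z 0) hx hxz s]
    have h2 := StdIntAux.pf (fun k : Fin d => z k.succ) hzs hzs' (z 0) hx hxz
    rw [Fin.prod_univ_succ, Fin.sum_univ_succ]
    have h3 : ∏ l ∈ Finset.univ.erase (0 : Fin (d + 1)), (z 0 - z l) =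
        ∏ l : Fin d, (z 0 - z l.succ) := by
      rw [StdIntAux.prod_erase_ite, Fin.prod_univ_succ]
      simp
    have h4 : ∀ k : Fin d, ∏ l ∈ Finset.univ.erase k.succ, (z k.succ - z l) =
        (z k.succ - z 0) * ∏ l ∈ Finset.univ.erase k, (z k.succ - z l.succ) := by
      intro k
      rw [StdIntAux.prod_erase_ite, Fin.prod_univ_succ, StdIntAux.prod_erase_ite]
      simp [(Fin.succ_ne_zero k).symm]
    rw [h3, h2]
    obtain ⟨B, hB⟩ : ∃ B : ℂ, B = (∏ k : Fin d, -z k.succ)⁻¹ := ⟨_, rfl⟩
    have h5 : ∀ k : Fin d, Complex.exp (s * z k.succ) *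
        (z k.succ * ∏ l ∈ Finset.univ.erase k.succ, (z k.succ - z l))⁻¹ =
        -((z k.succ * ∏ l ∈ Finset.univ.erase k, (z k.succ - z l.succ))⁻¹ *
          (Complex.exp (s * z k.succ) / (z 0 - z k.succ))) := by
      intro k
      rw [h4]
      have h6 : z 0 - z k.succ ≠ 0 := sub_ne_zero.mpr (hxz k)
      have h7 : z k.succ - z 0 = -(z 0 - z k.succ) := by ring
      rw [h7, mul_inv, mul_inv, mul_inv, inv_neg]
      ring
    have h6 : ∀ k : Fin d, ((z 0 - z k.succ) *
        (z k.succ * ∏ l ∈ Finset.univ.erase k, (z k.succ - z l.succ)))⁻¹ =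
        (z k.succ * ∏ l ∈ Finset.univ.erase k, (z k.succ - z l.succ))⁻¹ / (z 0 - z k.succ) := by
      intro k
      rw [mul_inv]
      ring
    have h8 : (-z 0 * ∏ k : Fin d, -z k.succ)⁻¹ = -(B / z 0) := by
      rw [mul_inv, ← hB, inv_neg]
      ring
    have h9 : (z 0 * ∏ l : Fin d, -z l.succ)⁻¹ = B / z 0 := by
      rw [mul_inv, ← hB]
      ring
    rw [h8, h9, ← hB, Finset.sum_congr rfl fun k _ => h5 k, Finset.sum_congr rfl fun k _ => h6 k,
      mul_comm (s : ℂ) (z 0), mul_add, Finset.mul_sum]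
    have h10 : ∑ k : Fin d, (z k.succ * ∏ l ∈ Finset.univ.erase k, (z k.succ - z l.succ))⁻¹ *
        ((Complex.exp (z 0 * s) - Complex.exp (s * z k.succ)) / (z 0 - z k.succ)) =
        ∑ k : Fin d, Complex.exp (z 0 * s) *
          ((z k.succ * ∏ l ∈ Finset.univ.erase k, (z k.succ - z l.succ))⁻¹ /
            (z 0 - z k.succ)) +
        ∑ k : Fin d, -((z k.succ * ∏ l ∈ Finset.univ.erase k, (z k.succ - z l.succ))⁻¹ *
          (Complex.exp (s * z k.succ) / (z 0 - z k.succ))) := by
      rw [← Finset.sum_add_distrib]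
      refine Finset.sum_congr rfl fun k _ => ?_
      ring
    rw [h10]
    ring

end Pool.Agent.MPbd65ca
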