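import Pool.Agent.Lib.MP_bd65ca_an.Gen.Spx
import Pool.Agent.Lib.MP_bd65ca_an.Gen.StdInt

/-!
# TUR, module SpxCos: the cosine transform of a simplex
-/

open MeasureTheory Pointwise Set Filter Topology
open scoped RealInnerProductSpace

namespace Pool.Agent.MPbd65ca

variable {d : ℕ}

namespace SpxCosAux

/-- The powers of `2 π i`. -/
theorem inv_pow_eq (d : ℕ) : (((2 * Real.pi : ℝ) * Complex.I : ℂ) ^ d)⁻¹ =
    (((2 * Real.pi : ℝ) : ℂ) ^ d)⁻¹ * Complex.exp ((-(Real.pi * d / 2) : ℝ) * Complex.I) := by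
  rw [mul_pow, mul_inv]
  congr 1
  have h1 : Complex.I = Complex.exp ((Real.pi / 2 : ℝ) * Complex.I) := by
    push_cast
    exact Complex.exp_pi_div_two_mul_I.symm
  have h2 : Complex.I ^ d = Complex.exp ((Real.pi * d / 2 : ℝ) * Complex.I) := by
    conv_lhs => rw [h1]
    rw [← Complex.exp_nat_mul]
    congr 1
    push_cast
    ring
  rw [h2, ← Complex.exp_neg]
  congr 1
  push_cast
  ring

theorem prod_none (a : Fin d → ℝ) (c : ℂ) :
    (∏ k, -(c * (a k : ℂ)))⁻¹ = (c ^ d)⁻¹ * (((∏ k, -a k)⁻¹ : ℝ) : ℂ) := by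
  have h1 : ∏ k, -(c * (a k : ℂ)) = c ^ d * ∏ k, -(a k : ℂ) := by
    have h2 : ∀ k, -(c * (a k : ℂ)) = c * -(a k : ℂ) := fun k => by ring
    rw [Finset.prod_congr rfl fun k _ => h2 k, Finset.prod_mul_distrib, Finset.prod_const,
      Finset.card_univ, Fintype.card_fin]
  rw [h1, mul_inv]
  push_cast
  rfl

theorem prod_some (a : Fin d → ℝ) (c : ℂ) (k : Fin d) :
    (c * (a k : ℂ) * ∏ l ∈ Finset.univ.erase k, (c * (a k : ℂ) - c * (a l : ℂ)))⁻¹ =
      (c ^ d)⁻¹ * (((a k * ∏ l ∈ Finset.univ.erase k, (a k - a l))⁻¹ : ℝ) : ℂ) := by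
  have hd : d = (d - 1) + 1 := by
    have := k.pos
    omega
  have h1 : ∏ l ∈ Finset.univ.erase k, (c * (a k : ℂ) - c * (a l : ℂ)) =
      c ^ (d - 1) * ∏ l ∈ Finset.univ.erase k, ((a k : ℂ) - (a l : ℂ)) := by
    have h2 : ∀ l, c * (a k : ℂ) - c * (a l : ℂ) = c * ((a k : ℂ) - (a l : ℂ)) :=
      fun l => by ring
    rw [Finset.prod_congr rfl fun l _ => h2 l, Finset.prod_mul_distrib, Finset.prod_const,
      Finset.card_erase_of_mem (Finset.mem_univ k), Finset.card_univ, Fintype.card_fin]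
  have h3 : c ^ d = c ^ (d - 1) * c := by
    conv_lhs => rw [hd]
    rw [pow_succ]
  have h4 : c * (a k : ℂ) * (c ^ (d - 1) * ∏ l ∈ Finset.univ.erase k, ((a k : ℂ) - (a l : ℂ))) =
      c ^ d * ((a k : ℂ) * ∏ l ∈ Finset.univ.erase k, ((a k : ℂ) - (a l : ℂ))) := by
    rw [h3]
    ring
  rw [h1, h4, mul_inv]
  push_cast
  rfl

/-- The complex form. -/
theorem spx_exp (p : E d) (u : Fin d → E d) (hu : LinearIndependent ℝ u) (x : E d)
    (hg : good u x) :
    ∫ y in spx p u, Complex.exp ((2 * Real.pi * ⟪x, y⟫ : ℝ) * Complex.I) =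
      ((((2 * Real.pi) ^ d)⁻¹ : ℝ) : ℂ) *
        ∑ o, (cf u x o : ℂ) * Complex.exp ((ph x (vt p u o) : ℝ) * Complex.I) := by
  set c : ℂ := (2 * Real.pi : ℝ) * Complex.I with hc
  have hc0 : c ≠ 0 := by
    rw [hc]
    refine mul_ne_zero ?_ Complex.I_ne_zero
    exact_mod_cast (by positivity : (2 * Real.pi : ℝ) ≠ 0)
  set a : Fin d → ℝ := fun k => ⟪x, u k⟫ with ha
  have h1 : ∀ t : Fin d → ℝ,
      Complex.exp ((2 * Real.pi * ⟪x, p + ∑ k, t k • u k⟫ : ℝ) * Complex.I) =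
        Complex.exp ((2 * Real.pi * ⟪x, p⟫ : ℝ) * Complex.I) *
          Complex.exp (∑ k, (t k : ℂ) * (c * (a k : ℂ))) := by
    intro t
    rw [← Complex.exp_add]
    congr 1
    rw [inner_add_right, inner_sum]
    have h2 : ∀ k, ⟪x, t k • u k⟫ = t k * a k := fun k => real_inner_smul_right _ _ _
    rw [Finset.sum_congr rfl fun k _ => h2 k, hc]
    push_cast
    rw [mul_add, add_mul]
    congr 1
    rw [Finset.mul_sum, Finset.sum_mul]
    refine Finset.sum_congr rfl fun k _ => ?_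
    ring
  rw [integral_spx p u hu]
  simp only [h1]
  rw [integral_const_mul]
  have hz : ∀ k, c * (a k : ℂ) ≠ 0 := fun k =>
    mul_ne_zero hc0 (Complex.ofReal_ne_zero.2 (hg.1 k))
  have hz' : Function.Injective fun k => c * (a k : ℂ) := by
    intro k l hkl
    by_contra hne
    exact hg.2 k l hne (Complex.ofReal_injective (mul_left_cancel₀ hc0 hkl))
  rw [integral_stdS (fun k => c * (a k : ℂ)) hz hz' zero_le_one]
  simp only [prod_none, prod_some]
  rw [Fintype.sum_option, hc, inv_pow_eq d]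
  have e0 : (cf u x none : ℂ) * Complex.exp ((ph x (vt p u none) : ℝ) * Complex.I) =
      (vdet u : ℂ) * (((∏ k, -a k)⁻¹ : ℝ) : ℂ) *
        (Complex.exp ((2 * Real.pi * ⟪x, p⟫ : ℝ) * Complex.I) *
          Complex.exp ((-(Real.pi * d / 2) : ℝ) * Complex.I)) := by
    rw [← Complex.exp_add]
    have h3 : (ph x (vt p u none) : ℝ) = 2 * Real.pi * ⟪x, p⟫ + -(Real.pi * d / 2) := by
      simp only [ph, vt]
      ring
    have h4 : cf u x none = vdet u * (∏ k, -a k)⁻¹ := rfl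
    rw [h3, h4]
    push_cast
    rw [add_mul]
  have e1 : ∀ k, (cf u x (some k) : ℂ) *
      Complex.exp ((ph x (vt p u (some k)) : ℝ) * Complex.I) =
      (vdet u : ℂ) * (((a k * ∏ l ∈ Finset.univ.erase k, (a k - a l))⁻¹ : ℝ) : ℂ) *
        (Complex.exp ((2 * Real.pi * ⟪x, p⟫ : ℝ) * Complex.I) *
          Complex.exp ((-(Real.pi * d / 2) : ℝ) * Complex.I) *
          Complex.exp (((1 : ℝ) : ℂ) * ((2 * Real.pi : ℝ) * Complex.I * (a k : ℂ)))) := by
    intro k
    rw [← Complex.exp_add, ← Complex.exp_add]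
    have h3 : (ph x (vt p u (some k)) : ℝ) =
        2 * Real.pi * ⟪x, p⟫ + -(Real.pi * d / 2) + 2 * Real.pi * a k := by
      simp only [ph, vt, ha]
      rw [inner_add_right]
      ring
    have h4 : cf u x (some k) =
        vdet u * (a k * ∏ l ∈ Finset.univ.erase k, (a k - a l))⁻¹ := rfl
    have h5 : ((ph x (vt p u (some k)) : ℝ) : ℂ) * Complex.I =
        ((2 * Real.pi * ⟪x, p⟫ : ℝ) : ℂ) * Complex.I +
          ((-(Real.pi * d / 2) : ℝ) : ℂ) * Complex.I +
          ((1 : ℝ) : ℂ) * ((2 * Real.pi : ℝ) * Complex.I * (a k : ℂ)) := by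
      rw [h3]
      push_cast
      ring
    rw [h5, h4]
    push_cast
    rfl
  rw [e0, Finset.sum_congr rfl fun k _ => e1 k, mul_add, mul_add, Finset.mul_sum, mul_add]
  congr 1
  · push_cast
    ring
  · rw [Finset.mul_sum, Finset.mul_sum]
    refine Finset.sum_congr rfl fun k _ => ?_
    push_cast
    ring

end SpxCosAux

theorem spx_cos (p : E d) (u : Fin d → E d) (hu : LinearIndependent ℝ u) (x : E d)
    (hg : good u x) :
    ∫ y in spx p u, Real.cos (2 * Real.pi * ⟪x, y⟫) =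
      ((2 * Real.pi) ^ d)⁻¹ * ∑ o, cf u x o * Real.cos (ph x (vt p u o)) := by
  have hint : Integrable (fun y : E d =>
      Complex.exp ((2 * Real.pi * ⟪x, y⟫ : ℝ) * Complex.I)) (volume.restrict (spx p u)) := by
    have h1 : Continuous fun y : E d =>
        Complex.exp ((2 * Real.pi * ⟪x, y⟫ : ℝ) * Complex.I) := by
      fun_prop
    exact h1.continuousOn.integrableOn_compact (isCompact_spx p u)
  have h2 := integral_re hint
  have h3 : ∀ y : E d, RCLike.re (Complex.exp ((2 * Real.pi * ⟪x, y⟫ : ℝ) * Complex.I)) =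
      Real.cos (2 * Real.pi * ⟪x, y⟫) := fun y => Complex.exp_ofReal_mul_I_re _
  simp only [h3] at h2
  rw [h2, SpxCosAux.spx_exp p u hu x hg]
  have h4 : ∀ z : ℂ, RCLike.re z = z.re := fun z => rfl
  rw [h4, Complex.re_ofReal_mul, Complex.re_sum]
  congr 1
  refine Finset.sum_congr rfl fun o _ => ?_
  rw [Complex.re_ofReal_mul, Complex.exp_ofReal_mul_I_re]

end Pool.Agent.MPbd65ca
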