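import Pool.Agent.Lib.MP_bd65ca_an.Gen.Defs
import Pool.Agent.Lib.MP_bd65ca_an.Dense

/-!
# TUR, module Strict: strictly convex norms near a body
-/

open MeasureTheory Pointwise Set Filter Topology
open scoped RealInnerProductSpace

namespace Pool.Agent.MPbd65ca

variable {d : ℕ}

private theorem sqrt_mink {ε : ℝ} (hε : 0 ≤ ε) (g₁ g₂ h₁ h₂ : ℝ) :
    √((g₁ + g₂) ^ 2 + ε * (h₁ + h₂) ^ 2) ≤ √(g₁ ^ 2 + ε * h₁ ^ 2) + √(g₂ ^ 2 + ε * h₂ ^ 2) := by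
  have hA : 0 ≤ g₁ ^ 2 + ε * h₁ ^ 2 := by positivity
  have hB : 0 ≤ g₂ ^ 2 + ε * h₂ ^ 2 := by positivity
  have hAB : 0 ≤ √(g₁ ^ 2 + ε * h₁ ^ 2) * √(g₂ ^ 2 + ε * h₂ ^ 2) := by positivity
  have hCS : g₁ * g₂ + ε * (h₁ * h₂) ≤ √(g₁ ^ 2 + ε * h₁ ^ 2) * √(g₂ ^ 2 + ε * h₂ ^ 2) := by
    refine abs_le_of_sq_le_sq' ?_ hAB |>.2
    rw [mul_pow, Real.sq_sqrt hA, Real.sq_sqrt hB]
    nlinarith [mul_nonneg hε (sq_nonneg (g₁ * h₂ - g₂ * h₁))]
  rw [Real.sqrt_le_left (by positivity)]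
  nlinarith [Real.sq_sqrt hA, Real.sq_sqrt hB, hCS]

theorem exists_snorm {W : Set (E d)} (hW : IsBody W) {η : ℝ} (hη : 0 < η) :
    ∃ ν : E d → ℝ, SNorm ν ∧ (∀ x ∈ W, ν x ≤ 1 + η) ∧ ∀ x, ν x ≤ 1 → x ∈ W := by
  have h0 : (0 : E d) ∈ interior W := hW.zero_mem
  have hnhds : W ∈ 𝓝 (0 : E d) := mem_interior_iff_mem_nhds.1 h0
  have habs : Absorbent ℝ W := absorbent_nhds_zero hnhds
  have hadd := gauge_add_le hW.convex habs
  have hneg : ∀ x, gauge W (-x) = gauge W x := fun x => gauge_neg hW.neg_mem x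
  have hsmul : ∀ (c : ℝ) x, gauge W (c • x) = |c| * gauge W x := by
    intro c x
    rcases le_total 0 c with hc | hc
    · rw [gauge_smul_of_nonneg hc, abs_of_nonneg hc, smul_eq_mul]
    · rw [← hneg, ← neg_smul, gauge_smul_of_nonneg (neg_nonneg.2 hc), abs_of_nonpos hc,
        smul_eq_mul]
  have hg0 : ∀ x, 0 ≤ gauge W x := fun x => gauge_nonneg x
  have hmem : ∀ x, gauge W x ≤ 1 → x ∈ W := by
    intro x hx
    have := (gauge_le_one_iff_mem_closure hW.convex hnhds).1 hx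
    rwa [hW.isCompact.isClosed.closure_eq] at this
  have hle : ∀ x ∈ W, gauge W x ≤ 1 := fun x hx => gauge_le_one_of_mem hx
  obtain ⟨R₀, hR₀, hR⟩ : ∃ R₀ : ℝ, 0 < R₀ ∧ ∀ x ∈ W, ‖x‖ ≤ R₀ := by
    obtain ⟨R, hR⟩ := hW.isCompact.isBounded.subset_closedBall (0 : E d)
    refine ⟨max R 1, by positivity, fun x hx => ?_⟩
    have := hR hx
    rw [mem_closedBall_zero_iff] at this
    exact this.trans (le_max_left _ _)
  obtain ⟨ρ₀, hρ₀, hρ⟩ := Metric.mem_nhds_iff.1 hnhds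
  have hgρ : ∀ x, gauge W x ≤ ‖x‖ / ρ₀ := by
    intro x
    have := gauge_mono (absorbent_ball_zero hρ₀) hρ x
    rwa [gauge_ball hρ₀.le] at this
  set ε : ℝ := 2 * η / R₀ ^ 2 with hεdef
  have hε : 0 < ε := by positivity
  have hpos : ∀ x : E d, 0 ≤ gauge W x ^ 2 + ε * ‖x‖ ^ 2 := fun x => by positivity
  refine ⟨fun x => √(gauge W x ^ 2 + ε * ‖x‖ ^ 2), ?_, ?_, ?_⟩
  · constructor
    · intro x y
      refine le_trans (Real.sqrt_le_sqrt ?_) (sqrt_mink hε.le _ _ _ _)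
      have h1 : gauge W (x + y) ^ 2 ≤ (gauge W x + gauge W y) ^ 2 :=
        pow_le_pow_left₀ (hg0 _) (hadd x y) 2
      have h2 : ‖x + y‖ ^ 2 ≤ (‖x‖ + ‖y‖) ^ 2 :=
        pow_le_pow_left₀ (norm_nonneg _) (norm_add_le x y) 2
      have h3 := mul_le_mul_of_nonneg_left h2 hε.le
      linarith
    · intro c x
      have : gauge W (c • x) ^ 2 + ε * ‖c • x‖ ^ 2 =
          |c| ^ 2 * (gauge W x ^ 2 + ε * ‖x‖ ^ 2) := by
        rw [hsmul, norm_smul, Real.norm_eq_abs]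
        ring
      show √(gauge W (c • x) ^ 2 + ε * ‖c • x‖ ^ 2) = _
      rw [this, Real.sqrt_mul (sq_nonneg _), Real.sqrt_sq (abs_nonneg c)]
    · refine ⟨√ε, Real.sqrt_pos.2 hε, fun x => ?_⟩
      refine Real.le_sqrt_of_sq_le ?_
      rw [mul_pow, Real.sq_sqrt hε.le]
      nlinarith [sq_nonneg (gauge W x)]
    · refine ⟨√((1 / ρ₀) ^ 2 + ε), Real.sqrt_pos.2 (by positivity), fun x => ?_⟩
      have h1 : gauge W x ^ 2 + ε * ‖x‖ ^ 2 ≤ ((1 / ρ₀) ^ 2 + ε) * ‖x‖ ^ 2 := by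
        have := pow_le_pow_left₀ (hg0 x) (hgρ x) 2
        have h2 : (‖x‖ / ρ₀) ^ 2 = (1 / ρ₀) ^ 2 * ‖x‖ ^ 2 := by ring
        nlinarith
      refine (Real.sqrt_le_sqrt h1).trans (le_of_eq ?_)
      rw [Real.sqrt_mul (by positivity), Real.sqrt_sq (norm_nonneg x)]
    · intro x y hx hy hxy
      have hx' : gauge W x ^ 2 + ε * ‖x‖ ^ 2 ≤ 1 := by
        have := Real.sqrt_le_one.1 hx
        exact this
      have hy' : gauge W y ^ 2 + ε * ‖y‖ ^ 2 ≤ 1 := by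
        have := Real.sqrt_le_one.1 hy
        exact this
      show √(gauge W ((1 / 2 : ℝ) • (x + y)) ^ 2 + ε * ‖(1 / 2 : ℝ) • (x + y)‖ ^ 2) < 1
      have hg : gauge W ((1 / 2 : ℝ) • (x + y)) ≤ 1 / 2 * (gauge W x + gauge W y) := by
        rw [hsmul, abs_of_pos (by norm_num : (0 : ℝ) < 1 / 2)]
        exact mul_le_mul_of_nonneg_left (hadd x y) (by norm_num)
      have hg2 : gauge W ((1 / 2 : ℝ) • (x + y)) ^ 2 ≤ (gauge W x ^ 2 + gauge W y ^ 2) / 2 := by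
        have := pow_le_pow_left₀ (hg0 _) hg 2
        nlinarith [sq_nonneg (gauge W x - gauge W y)]
      have hn2 : ‖(1 / 2 : ℝ) • (x + y)‖ ^ 2 = (‖x‖ ^ 2 + ‖y‖ ^ 2) / 2 - ‖x - y‖ ^ 2 / 4 := by
        have hp := parallelogram_law_with_norm ℝ x y
        rw [norm_smul, Real.norm_eq_abs, abs_of_pos (by norm_num : (0 : ℝ) < 1 / 2)]
        nlinarith
      have hd : 0 < ‖x - y‖ ^ 2 := by
        have : x - y ≠ 0 := sub_ne_zero.2 hxy
        positivity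
      rw [Real.sqrt_lt' one_pos, hn2]
      nlinarith [mul_pos hε hd]
  · intro x hx
    show √(gauge W x ^ 2 + ε * ‖x‖ ^ 2) ≤ 1 + η
    rw [Real.sqrt_le_left (by positivity)]
    have h1 : gauge W x ^ 2 ≤ 1 := by
      have := pow_le_pow_left₀ (hg0 x) (hle x hx) 2
      simpa using this
    have h2 : ‖x‖ ^ 2 ≤ R₀ ^ 2 := pow_le_pow_left₀ (norm_nonneg x) (hR x hx) 2
    have h3 : ε * ‖x‖ ^ 2 ≤ 2 * η := by
      have := mul_le_mul_of_nonneg_left h2 hε.le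
      have h4 : ε * R₀ ^ 2 = 2 * η := by
        rw [hεdef]; field_simp
      linarith
    nlinarith [sq_nonneg η]
  · intro x hx
    apply hmem
    have h1 : gauge W x ^ 2 + ε * ‖x‖ ^ 2 ≤ 1 := Real.sqrt_le_one.1 hx
    have h2 : gauge W x ^ 2 ≤ 1 := by nlinarith [mul_nonneg hε.le (sq_nonneg ‖x‖)]
    nlinarith [hg0 x]

end Pool.Agent.MPbd65ca
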