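import Pool.Agent.Lib.MP_bd65ca_an.Gen.Basic

/-!
# TUR, module Triang: the triangulation of the convex hull by the cones over the facets
-/

open MeasureTheory Pointwise Set Filter Topology
open scoped RealInnerProductSpace

namespace Pool.Agent.MPbd65ca

variable {d : ℕ}

/-- `s` is the set of the vertices of a facet -/
private def IsF (N s : Finset (E d)) : Prop :=
  s ⊆ N ∧ s.card = d ∧ ∃ l : E d, (∀ v ∈ N, ⟪l, v⟫ ≤ 1) ∧ ∀ v ∈ N, ⟪l, v⟫ = 1 ↔ v ∈ s

/-- an enumeration of `s` -/
private noncomputable def enum (s : Finset (E d)) : Fin d → E d :=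
  open Classical in
  if h : s.card = d then fun k => ((s.equivFinOfCardEq h).symm k : E d) else 0

private theorem enum_eq {s : Finset (E d)} (h : s.card = d) :
    enum s = fun k => ((s.equivFinOfCardEq h).symm k : E d) := by
  unfold enum
  rw [dif_pos h]

private theorem enum_mem {s : Finset (E d)} (h : s.card = d) (k : Fin d) : enum s k ∈ s := by
  rw [enum_eq h]
  exact ((s.equivFinOfCardEq h).symm k).2

private theorem enum_surj {s : Finset (E d)} (h : s.card = d) {v : E d} (hv : v ∈ s) :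
    ∃ k, enum s k = v := by
  rw [enum_eq h]
  exact ⟨s.equivFinOfCardEq h ⟨v, hv⟩, by simp⟩

private theorem enum_sum {s : Finset (E d)} (h : s.card = d) {M : Type*} [AddCommMonoid M]
    (f : E d → M) : ∑ k, f (enum s k) = ∑ v ∈ s, f v := by
  rw [enum_eq h, ← Finset.sum_coe_sort s f]
  exact Equiv.sum_comp (s.equivFinOfCardEq h).symm (fun v : s => f v)

private theorem enum_li {s : Finset (E d)} (h : s.card = d)
    (hs : LinearIndependent ℝ (fun v : s => (v : E d))) : LinearIndependent ℝ (enum s) := by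
  rw [enum_eq h]
  exact hs.comp _ (s.equivFinOfCardEq h).symm.injective

private theorem enum_inj {s : Finset (E d)} (h : s.card = d) : Function.Injective (enum s) := by
  rw [enum_eq h]
  exact Subtype.val_injective.comp (s.equivFinOfCardEq h).symm.injective

/-- existence of a facet -/
private theorem facet_exists {N : Finset (E d)} {a κ : E d} {r : ℝ}
    (h : Fine N a κ r) {y : E d} (hy : y ∈ convexHull ℝ (N : Set (E d))) (hy0 : y ≠ 0)
    (hgood : ∀ s ∈ N.powerset, s.card < d → y ∉ Submodule.span ℝ (s : Set (E d))) :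
    ∃ s, IsF N s ∧ y ∈ spx 0 (enum s) := by
  classical
  have h0i : (0 : E d) ∈ interior (convexHull ℝ (N : Set (E d))) :=
    h.ball (Metric.mem_closedBall_self (by linarith [h.hr]))
  have hcpt : IsCompact (convexHull ℝ (N : Set (E d))) :=
    (Finset.finite_toSet N).isCompact_convexHull ℝ
  have hcv : Convex ℝ (convexHull ℝ (N : Set (E d))) := convex_convexHull ℝ _
  have hn0 : convexHull ℝ (N : Set (E d)) ∈ 𝓝 (0 : E d) := mem_interior_iff_mem_nhds.1 h0i
  have habs : Absorbent ℝ (convexHull ℝ (N : Set (E d))) := absorbent_nhds_zero hn0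
  have hbd : Bornology.IsVonNBounded ℝ (convexHull ℝ (N : Set (E d))) :=
    NormedSpace.isVonNBounded_of_isBounded ℝ hcpt.isBounded
  obtain ⟨g, hg⟩ : ∃ g, g = gauge (convexHull ℝ (N : Set (E d))) y := ⟨_, rfl⟩
  have hg0 : 0 < g := by
    rw [hg]
    exact (gauge_pos habs hbd).2 hy0
  have hg1 : g ≤ 1 := by
    rw [hg]
    exact gauge_le_one_of_mem hy
  have hq1 : gauge (convexHull ℝ (N : Set (E d))) (g⁻¹ • y) = 1 := by
    rw [gauge_smul_of_nonneg (inv_nonneg.2 hg0.le), ← hg, smul_eq_mul, inv_mul_cancel₀ hg0.ne']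
  have hqW : g⁻¹ • y ∈ convexHull ℝ (N : Set (E d)) := by
    have h1 : g⁻¹ • y ∈ closure (convexHull ℝ (N : Set (E d))) :=
      (gauge_le_one_iff_mem_closure hcv hn0).1 hq1.le
    rwa [hcpt.isClosed.closure_eq] at h1
  have hqi : g⁻¹ • y ∉ interior (convexHull ℝ (N : Set (E d))) := by
    intro h1
    have h2 := interior_subset_gauge_lt_one _ h1
    exact absurd hq1 (ne_of_lt h2)
  obtain ⟨f, hf0, hf⟩ := geometric_hahn_banach_of_nonempty_interior_point hcv hqi ⟨0, h0i⟩
  have hfq : 0 < f (g⁻¹ • y) := by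
    obtain ⟨x, hx⟩ : ∃ x, f x ≠ 0 := by
      by_contra hcon
      push Not at hcon
      exact hf0 (ContinuousLinearMap.ext hcon)
    have ht : Tendsto (fun t : ℝ => t • x) (𝓝 0) (𝓝 (0 : E d)) := by
      have h1 : Tendsto (fun t : ℝ => t • x) (𝓝 0) (𝓝 ((0 : ℝ) • x)) :=
        tendsto_id.smul_const x
      simpa using h1
    have hev : ∀ᶠ t : ℝ in 𝓝 0, t • x ∈ convexHull ℝ (N : Set (E d)) := ht hn0
    obtain ⟨ε, hε, hball⟩ := Metric.eventually_nhds_iff.1 hev
    have h1 : (ε / 2) • x ∈ convexHull ℝ (N : Set (E d)) := by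
      apply hball
      rw [Real.dist_eq, sub_zero, abs_of_pos (by linarith)]
      linarith
    have h2 : (-(ε / 2)) • x ∈ convexHull ℝ (N : Set (E d)) := by
      apply hball
      rw [Real.dist_eq, sub_zero, abs_neg, abs_of_pos (by linarith)]
      linarith
    have h3 := hf _ h1
    have h4 := hf _ h2
    rw [map_smul, smul_eq_mul] at h3 h4
    rcases lt_or_gt_of_ne hx with h5 | h5
    · have h6 : 0 < -(ε / 2) * f x := by nlinarith
      linarith
    · have h6 : 0 < (ε / 2) * f x := by positivity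
      linarith
  obtain ⟨l, hl⟩ : ∃ l : E d, ∀ v, ⟪l, v⟫ = (f (g⁻¹ • y))⁻¹ * f v := by
    refine ⟨(f (g⁻¹ • y))⁻¹ • (InnerProductSpace.toDual ℝ (E d)).symm f, fun v => ?_⟩
    rw [real_inner_smul_left, InnerProductSpace.toDual_symm_apply]
  have hl1 : ∀ v ∈ N, ⟪l, v⟫ ≤ 1 := by
    intro v hv
    rw [hl, inv_mul_le_iff₀ hfq, mul_one]
    exact hf v (subset_convexHull ℝ _ hv)
  have hlq : ⟪l, g⁻¹ • y⟫ = 1 := by
    rw [hl, inv_mul_cancel₀ hfq.ne']
  obtain ⟨w, hw0, hw1, hwq⟩ := Finset.mem_convexHull'.1 hqW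
  have hzero : ∀ v ∈ N, w v * (1 - ⟪l, v⟫) = 0 := by
    have h1 : ∑ v ∈ N, w v * (1 - ⟪l, v⟫) = 0 := by
      have h2 : ⟪l, g⁻¹ • y⟫ = ∑ v ∈ N, w v * ⟪l, v⟫ := by
        rw [← hwq, inner_sum]
        exact Finset.sum_congr rfl fun v _ => by rw [real_inner_smul_right]
      have h3 : ∑ v ∈ N, w v * (1 - ⟪l, v⟫) = ∑ v ∈ N, w v - ∑ v ∈ N, w v * ⟪l, v⟫ := by
        rw [← Finset.sum_sub_distrib]
        exact Finset.sum_congr rfl fun v _ => by ring
      rw [h3, hw1, ← h2, hlq, sub_self]
    exact (Finset.sum_eq_zero_iff_of_nonneg fun v hv =>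
      mul_nonneg (hw0 v hv) (by linarith [hl1 v hv])).1 h1
  obtain ⟨s, hs⟩ : ∃ s, s = N.filter (fun v => ⟪l, v⟫ = 1) := ⟨_, rfl⟩
  have hsN : s ⊆ N := by rw [hs]; exact Finset.filter_subset _ _
  have hmem : ∀ v ∈ N, ⟪l, v⟫ = 1 ↔ v ∈ s := by
    intro v hv
    rw [hs, Finset.mem_filter]
    exact ⟨fun h1 => ⟨hv, h1⟩, fun h1 => h1.2⟩
  have hw2 : ∀ v ∈ N, v ∉ s → w v = 0 := by
    intro v hv hvs
    rcases mul_eq_zero.1 (hzero v hv) with h1 | h1
    · exact h1
    · exact absurd ((hmem v hv).1 (by linarith)) hvs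
  have hsum1 : ∑ v ∈ s, w v = 1 := by
    rw [← hw1]
    exact Finset.sum_subset hsN fun v hv hvs => hw2 v hv hvs
  have hq : ∑ v ∈ s, w v • v = g⁻¹ • y := by
    rw [← hwq]
    exact Finset.sum_subset hsN fun v hv hvs => by rw [hw2 v hv hvs, zero_smul]
  have hyq : y = ∑ v ∈ s, (g * w v) • v := by
    have h1 : y = g • (g⁻¹ • y) := by rw [smul_smul, mul_inv_cancel₀ hg0.ne', one_smul]
    rw [h1, ← hq, Finset.smul_sum]
    exact Finset.sum_congr rfl fun v _ => by rw [smul_smul]
  have hyspan : y ∈ Submodule.span ℝ (s : Set (E d)) := by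
    rw [hyq]
    exact Submodule.sum_mem _ fun v hv => Submodule.smul_mem _ _ (Submodule.subset_span hv)
  have hcard : s.card = d := by
    refine le_antisymm (h.gp2 l s hsN fun v hv => (hmem v (hsN hv)).2 hv) ?_
    by_contra hlt
    exact hgood s (Finset.mem_powerset.2 hsN) (not_le.1 hlt) hyspan
  refine ⟨s, ⟨hsN, hcard, l, hl1, hmem⟩, ?_⟩
  refine ⟨fun k => g * w (enum s k), ⟨fun k => ?_, ?_⟩, ?_⟩
  · exact mul_nonneg hg0.le (hw0 _ (hsN (enum_mem hcard k)))
  · rw [enum_sum hcard (fun v => g * w v), ← Finset.mul_sum, hsum1, mul_one]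
    exact hg1
  · rw [zero_add, enum_sum hcard (fun v => (g * w v) • v)]
    exact hyq

/-- uniqueness of the facet -/
private theorem facet_unique {N s s' : Finset (E d)} (hs : IsF N s) (hs' : IsF N s') {y : E d}
    (hy : y ∈ spx 0 (enum s)) (hy' : y ∈ spx 0 (enum s'))
    (hgood : ∀ s ∈ N.powerset, s.card < d → y ∉ Submodule.span ℝ (s : Set (E d))) :
    s = s' := by
  classical
  obtain ⟨hsN, hcard, l, hl1, hl⟩ := hs
  obtain ⟨hsN', hcard', l', hl1', hl'⟩ := hs'
  obtain ⟨t, ⟨ht0, -⟩, hty⟩ := hy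
  obtain ⟨t', ⟨ht0', -⟩, hty'⟩ := hy'
  rw [zero_add] at hty hty'
  have hpos : ∀ k, 0 < t k := by
    intro k
    rcases (ht0 k).lt_or_eq with h1 | h1
    · exact h1
    · exfalso
      refine hgood (s.erase (enum s k)) (Finset.mem_powerset.2
        ((Finset.erase_subset _ _).trans hsN)) ?_ ?_
      · rw [Finset.card_erase_of_mem (enum_mem hcard k), hcard]
        have h2 : 0 < d := lt_of_le_of_lt (Nat.zero_le _) k.2
        omega
      · rw [hty]
        refine Submodule.sum_mem _ fun j _ => ?_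
        by_cases hjk : j = k
        · rw [hjk, ← h1, zero_smul]
          exact Submodule.zero_mem _
        · refine Submodule.smul_mem _ _ (Submodule.subset_span ?_)
          rw [Finset.mem_coe, Finset.mem_erase]
          exact ⟨fun h3 => hjk (enum_inj hcard h3), enum_mem hcard j⟩
  have h1 : ⟪l, y⟫ = ∑ k, t k := by
    rw [hty, inner_sum]
    refine Finset.sum_congr rfl fun k _ => ?_
    rw [real_inner_smul_right, (hl _ (hsN (enum_mem hcard k))).2 (enum_mem hcard k), mul_one]
  have h1' : ⟪l', y⟫ = ∑ k, t' k := by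
    rw [hty', inner_sum]
    refine Finset.sum_congr rfl fun k _ => ?_
    rw [real_inner_smul_right, (hl' _ (hsN' (enum_mem hcard' k))).2 (enum_mem hcard' k), mul_one]
  have h2 : ⟪l, y⟫ ≤ ∑ k, t' k := by
    rw [hty', inner_sum]
    refine Finset.sum_le_sum fun k _ => ?_
    rw [real_inner_smul_right]
    exact mul_le_of_le_one_right (ht0' k) (hl1 _ (hsN' (enum_mem hcard' k)))
  have h2' : ⟪l', y⟫ = ∑ k, t k * ⟪l', enum s k⟫ := by
    rw [hty, inner_sum]
    exact Finset.sum_congr rfl fun k _ => by rw [real_inner_smul_right]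
  have h3 : ∑ k, t k * (1 - ⟪l', enum s k⟫) = 0 := by
    refine le_antisymm ?_ (Finset.sum_nonneg fun k _ => mul_nonneg (ht0 k)
      (by linarith [hl1' _ (hsN (enum_mem hcard k))]))
    have h4 : ∑ k, t k * (1 - ⟪l', enum s k⟫) = ∑ k, t k - ∑ k, t k * ⟪l', enum s k⟫ := by
      rw [← Finset.sum_sub_distrib]
      exact Finset.sum_congr rfl fun k _ => by ring
    rw [h4, ← h2', ← h1, h1']
    linarith
  have h5 : ∀ k, ⟪l', enum s k⟫ = 1 := by
    intro k
    have h6 := (Finset.sum_eq_zero_iff_of_nonneg fun k _ => mul_nonneg (ht0 k)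
      (by linarith [hl1' _ (hsN (enum_mem hcard k))])).1 h3 k (Finset.mem_univ k)
    rcases mul_eq_zero.1 h6 with h7 | h7
    · exact absurd h7 (hpos k).ne'
    · linarith
  have hsub : s ⊆ s' := by
    intro v hv
    obtain ⟨k, hk⟩ := enum_surj hcard hv
    rw [← hk]
    exact (hl' _ (hsN (enum_mem hcard k))).1 (h5 k)
  exact Finset.eq_of_subset_of_card_le hsub (by rw [hcard, hcard'])

theorem exists_tri (hd : 2 ≤ d) {N : Finset (E d)} {a κ : E d} {r : ℝ} (h : Fine N a κ r) :
    ∃ T : Finset (Fin d → E d), Tri N T := by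
  classical
  have h0i : (0 : E d) ∈ interior (convexHull ℝ (N : Set (E d))) :=
    h.ball (Metric.mem_closedBall_self (by linarith [h.hr]))
  have hcv : Convex ℝ (convexHull ℝ (N : Set (E d))) := convex_convexHull ℝ _
  refine ⟨((N.powerset).filter (fun s => IsF N s)).image enum, ?_, ?_, ?_⟩
  · intro F hF k
    obtain ⟨s, hs, rfl⟩ := Finset.mem_image.1 hF
    have hs' := (Finset.mem_filter.1 hs).2
    exact hs'.1 (enum_mem hs'.2.1 k)
  · intro F hF
    obtain ⟨s, hs, rfl⟩ := Finset.mem_image.1 hF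
    obtain ⟨hsN, hcard, l, hl1, hl⟩ := (Finset.mem_filter.1 hs).2
    refine enum_li hcard (h.gp1 s hsN hcard.le fun v hv hv' => ?_)
    have h1 := (hl v (hsN hv)).2 hv
    have h2 := (hl (-v) (hsN hv')).2 hv'
    rw [inner_neg_right, h1] at h2
    norm_num at h2
  · have hae : ∀ᵐ y : E d, ∀ s ∈ N.powerset,
        s.card < d → y ∉ Submodule.span ℝ (s : Set (E d)) := by
      rw [Filter.eventually_all_finset]
      intro s _
      by_cases hsd : s.card < d
      · have hne : Submodule.span ℝ (s : Set (E d)) ≠ ⊤ := by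
          intro htop
          have h1 : Module.finrank ℝ (Submodule.span ℝ (s : Set (E d))) ≤ s.card :=
            finrank_span_finset_le_card s
          rw [htop, finrank_top, finrank_euclideanSpace_fin] at h1
          omega
        have hz : (volume : Measure (E d)) (Submodule.span ℝ (s : Set (E d)) : Set (E d)) = 0 :=
          Measure.addHaar_submodule volume _ hne
        have h2 : ∀ᵐ y : E d, y ∉ (Submodule.span ℝ (s : Set (E d)) : Set (E d)) :=
          measure_eq_zero_iff_ae_notMem.1 hz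
        filter_upwards [h2] with y hy _
        exact hy
      · exact Filter.Eventually.of_forall fun y h1 => absurd h1 hsd
    filter_upwards [hae] with y hgood
    have hy0 : y ≠ 0 := by
      intro hy0
      refine hgood ∅ (Finset.empty_mem_powerset N) (by simp; omega) ?_
      rw [hy0]
      exact Submodule.zero_mem _
    have hsubW : ∀ s, IsF N s → spx 0 (enum s) ⊆ convexHull ℝ (N : Set (E d)) := by
      intro s hs
      refine spx_subset hcv (interior_subset h0i) fun k => ?_
      rw [zero_add]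
      exact subset_convexHull ℝ _ (hs.1 (enum_mem hs.2.1 k))
    by_cases hyW : y ∈ convexHull ℝ (N : Set (E d))
    · obtain ⟨s, hs, hys⟩ := facet_exists h hyW hy0 hgood
      rw [Set.indicator_of_mem hyW]
      rw [Finset.sum_eq_single (enum s)]
      · rw [Set.indicator_of_mem hys]
      · intro F hF hne
        obtain ⟨s', hs', rfl⟩ := Finset.mem_image.1 hF
        have hs'' := (Finset.mem_filter.1 hs').2
        refine Set.indicator_of_notMem (fun hy' => hne ?_) _
        rw [facet_unique hs hs'' hys hy' hgood]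
      · intro hnot
        exact absurd (Finset.mem_image.2 ⟨s, Finset.mem_filter.2
          ⟨Finset.mem_powerset.2 hs.1, hs⟩, rfl⟩) hnot
    · rw [Set.indicator_of_notMem hyW]
      refine (Finset.sum_eq_zero fun F hF => ?_).symm
      obtain ⟨s', hs', rfl⟩ := Finset.mem_image.1 hF
      have hs'' := (Finset.mem_filter.1 hs').2
      exact Set.indicator_of_notMem (fun hy' => hyW (hsubW s' hs'' hy')) _

end Pool.Agent.MPbd65ca
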